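import Mathlib

/-!
# Arrangements of flat semialgebraic patches: definitions used in the statement

Patch `i` lies in the hyperplane `g i = 0` and is cut out by the polynomial conditions `q i l ≥ 0`.
-/

namespace FP

variable {d : ℕ} {ι μ : Type} (g : ι → (Fin d → ℝ) →ᵃ[ℝ] ℝ) (q : ι → μ → MvPolynomial (Fin d) ℝ)

/-- The patch number `i`. -/
def patch (i : ι) : Set (Fin d → ℝ) := {x | g i x = 0 ∧ ∀ l, 0 ≤ MvPolynomial.eval x (q i l)}

/-- General position: the hyperplanes meet transversally, and a common point of `d` hyperplanes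
is not a zero of a boundary polynomial of one of them. -/
def GenPos : Prop :=
  ∀ (D : Finset ι) (x : Fin d → ℝ), (∀ i ∈ D, g i x = 0) →
    (LinearIndependent ℝ fun i : D => (g i.1).linear) ∧
      (D.card = d → ∀ i ∈ D, ∀ l, MvPolynomial.eval x (q i l) ≠ 0)

/-- `x` and `y` lie on the same patches, and on the same boundary pieces of these patches. -/
def Same (x y : Fin d → ℝ) : Prop :=
  ∀ i, (x ∈ patch g q i ↔ y ∈ patch g q i) ∧ (x ∈ patch g q i →
    ∀ l, (MvPolynomial.eval x (q i l) = 0 ↔ MvPolynomial.eval y (q i l) = 0))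

/-- The face of the arrangement that contains `x`. -/
def face (x : Fin d → ℝ) : Set (Fin d → ℝ) := connectedComponentIn {y | Same g q x y} x

/-- The cell of the arrangement that contains `p`. -/
def cell (p : Fin d → ℝ) : Set (Fin d → ℝ) := connectedComponentIn (⋃ i, patch g q i)ᶜ p

end FP
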