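import Pool.Agent.Work.MP_8a5de9_co_B.Planar
import Pool.Agent.Work.MP_8a5de9_co.Fl.Defs

-- merged part: Pool.Agent.Work.MP_8a5de9_co.Fl.Alg
section
/-!
# Sets with few components; the number of components of a basic open set in a flat
-/

open Set Filter Topology SA

namespace FP

section few

variable {α : Type} [TopologicalSpace α] {X Y : Set α} {x y : α} {β : ℕ}

/-- At most `β` points lie pairwise in different components of `X`. -/
def Few (X : Set α) (β : ℕ) : Prop :=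
  ∀ T : Finset α, (∀ x ∈ T, x ∈ X) → (∀ x ∈ T, ∀ y ∈ T, y ∈ cc X x → x = y) → T.card ≤ β

theorem cc_base (h : y ∈ cc X x) : x ∈ X := connectedComponentIn_nonempty_iff.1 ⟨y, h⟩

theorem cc_symm (h : y ∈ cc X x) : x ∈ cc X y := by
  rw [cc, ← connectedComponentIn_eq h]
  exact mem_connectedComponentIn (cc_base h)

theorem cc_trans {w : α} (h : y ∈ cc X x) (h' : w ∈ cc X y) : w ∈ cc X x := by
  rwa [cc, connectedComponentIn_eq h]

theorem Few.mono {β' : ℕ} (h : Few X β) (h' : β ≤ β') : Few X β' :=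
  fun T a b => (h T a b).trans h'

theorem Few.reps [Nonempty α] (h : Few X β) :
    ∃ z : Fin β → α, ∀ x ∈ X, ∃ k, x ∈ cc X (z k) := by
  classical
  let P : ℕ → Prop := fun n => ∃ T : Finset α, (∀ x ∈ T, x ∈ X) ∧
    (∀ x ∈ T, ∀ y ∈ T, y ∈ cc X x → x = y) ∧ T.card = n
  obtain ⟨T, h1, h2, h3⟩ : P (Nat.findGreatest P β) :=
    Nat.findGreatest_spec (Nat.zero_le β) ⟨∅, by simp, by simp, rfl⟩
  have h4 := h T h1 h2
  refine ⟨fun k => if hk : k.1 < T.card then (T.equivFin.symm ⟨k.1, hk⟩).1 else Classical.ofNonempty,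
    fun x hx => ?_⟩
  obtain ⟨t, ht, h5⟩ : ∃ t ∈ T, x ∈ cc X t := by
    by_contra hn
    push Not at hn
    have hxT : x ∉ T := fun h6 => hn x h6 (mem_connectedComponentIn hx)
    have a1 : ∀ y ∈ insert x T, y ∈ X := fun y hy => by
      rcases Finset.mem_insert.1 hy with rfl | hy
      exacts [hx, h1 y hy]
    have a2 : ∀ y ∈ insert x T, ∀ w ∈ insert x T, w ∈ cc X y → y = w := fun y hy w hw e => by
      rcases Finset.mem_insert.1 hy with b | b <;> rcases Finset.mem_insert.1 hw with b' | b'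
      exacts [b.trans b'.symm, absurd (b ▸ cc_symm e) (hn w b'), absurd (b' ▸ e) (hn y b),
        h2 y b w b' e]
    have a3 := h _ a1 a2
    rw [Finset.card_insert_of_notMem hxT] at a3
    exact Nat.findGreatest_is_greatest (P := P) (n := β) (k := T.card + 1) (by omega) a3
      ⟨_, a1, a2, Finset.card_insert_of_notMem hxT⟩
  refine ⟨⟨(T.equivFin ⟨t, ht⟩).1, (T.equivFin ⟨t, ht⟩).2.trans_le h4⟩, ?_⟩
  simpa using h5

/-- A union of parts with few components. -/
theorem Few.cover {κ : Type} (s : Finset κ) (Y : κ → Set α) (hY : ∀ k ∈ s, Y k ⊆ X)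
    (hX : ∀ x ∈ X, ∃ k ∈ s, x ∈ Y k) (h : ∀ k ∈ s, Few (Y k) β) : Few X (s.card * β) := by
  classical
  intro T h1 h2
  refine (Finset.card_le_card (t := s.biUnion fun k => T.filter (· ∈ Y k)) fun x hx => ?_).trans
    (Finset.card_biUnion_le_card_mul _ _ _ fun k hk => h k hk _ (fun x hx => ?_)
      fun x hx y hy e => ?_)
  · obtain ⟨k, hk, h3⟩ := hX x (h1 x hx)
    exact Finset.mem_biUnion.2 ⟨k, hk, Finset.mem_filter.2 ⟨hx, h3⟩⟩
  · exact (Finset.mem_filter.1 hx).2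
  · exact h2 x (Finset.mem_filter.1 hx).1 y (Finset.mem_filter.1 hy).1
      (connectedComponentIn_mono x (hY k hk) e)

end few

section pol

variable {d : ℕ}

/-- Affine functions. -/
def Af (d : ℕ) : Submodule ℝ ((Fin d → ℝ) → ℝ) :=
  Submodule.span ℝ (insert 1 (range fun (j : Fin d) (x : Fin d → ℝ) => x j))

theorem af_one : (1 : (Fin d → ℝ) → ℝ) ∈ Af d := Submodule.subset_span (mem_insert _ _)

theorem af_co (j : Fin d) : (fun x : Fin d → ℝ => x j) ∈ Af d :=
  Submodule.subset_span (mem_insert_of_mem _ ⟨j, rfl⟩)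

theorem af_mono {N M : ℕ} (h : N ≤ M) : Af d ^ N ≤ Af d ^ M :=
  pow_le_pow_right' (Submodule.one_le.2 af_one) h

theorem af_const (N : ℕ) (r : ℝ) : (fun _ : Fin d → ℝ => r) ∈ Af d ^ N :=
  af_mono (Nat.zero_le N) (by
    rw [pow_zero]
    exact Submodule.algebraMap_mem r)

theorem af_mul {N M : ℕ} {f f' : (Fin d → ℝ) → ℝ} (h : f ∈ Af d ^ N) (h' : f' ∈ Af d ^ M) :
    f * f' ∈ Af d ^ (N + M) := by
  rw [pow_add]
  exact Submodule.mul_mem_mul h h'

theorem af_prod {κ : Type} (s : Finset κ) (f : κ → (Fin d → ℝ) → ℝ) (n : κ → ℕ)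
    (h : ∀ k ∈ s, f k ∈ Af d ^ n k) : ∏ k ∈ s, f k ∈ Af d ^ ∑ k ∈ s, n k := by
  classical
  induction s using Finset.induction_on with
  | empty => exact af_const 0 1
  | insert a s ha ih =>
    rw [Finset.prod_insert ha, Finset.sum_insert ha]
    exact af_mul (h a (Finset.mem_insert_self _ _)) (ih fun k hk => h k (Finset.mem_insert_of_mem hk))

theorem af_pow {N : ℕ} {f : (Fin d → ℝ) → ℝ} (h : f ∈ Af d ^ N) (k : ℕ) :
    f ^ k ∈ Af d ^ (N * k) := by
  rw [pow_mul]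
  exact Submodule.pow_mem_pow _ h k

theorem af_aff (f : (Fin d → ℝ) →ᵃ[ℝ] ℝ) : ⇑f ∈ Af d := by
  have e : ⇑f = f 0 • (1 : (Fin d → ℝ) → ℝ) +
      ∑ j, f.linear (fun k => if j = k then 1 else 0) • fun x : Fin d → ℝ => x j := by
    funext x
    have h := f.map_vadd 0 x
    rw [vadd_eq_add, vadd_eq_add, add_zero, LinearMap.pi_apply_eq_sum_univ] at h
    simp only [Pi.add_apply, Pi.smul_apply, Pi.one_apply, Finset.sum_apply, smul_eq_mul] at h ⊢
    rw [h, mul_one, add_comm]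
    exact congrArg _ (Finset.sum_congr rfl fun j _ => mul_comm _ _)
  rw [e]
  exact add_mem (Submodule.smul_mem _ _ af_one)
    (Submodule.sum_mem _ fun j _ => Submodule.smul_mem _ _ (af_co j))

theorem af_eval {N : ℕ} {Q : MvPolynomial (Fin d) ℝ} (h : Q.totalDegree ≤ N) :
    (fun x => MvPolynomial.eval x Q) ∈ Af d ^ N := by
  have e : (fun x => MvPolynomial.eval x Q) =
      ∑ m ∈ Q.support, Q.coeff m • ∏ j, (fun x : Fin d → ℝ => x j) ^ m j := by
    funext x
    rw [MvPolynomial.eval_eq']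
    simp only [Finset.sum_apply, Pi.smul_apply, Finset.prod_apply, Pi.pow_apply, smul_eq_mul]
  rw [e]
  refine Submodule.sum_mem _ fun m hm => Submodule.smul_mem _ _ (af_mono ?_
    (af_prod _ _ (fun j => m j) fun j _ => Submodule.pow_mem_pow _ (af_co j) _))
  have h1 := (MvPolynomial.le_totalDegree hm).trans h
  rwa [Finsupp.sum_fintype _ _ fun _ => rfl] at h1

theorem af_comp {N : ℕ} (ψ : (Fin d → ℝ) →ᵃ[ℝ] (Fin d → ℝ)) {f : (Fin d → ℝ) → ℝ}
    (h : f ∈ Af d ^ N) : (fun x => f (ψ x)) ∈ Af d ^ N := by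
  induction h using Submodule.pow_induction_on_left' with
  | algebraMap r => exact af_const 0 r
  | add f f' i _ _ a b => exact add_mem a b
  | mem_mul m hm i f _ a =>
    rw [pow_succ']
    refine Submodule.mul_mem_mul (m := fun x => m (ψ x)) ?_ a
    induction hm using Submodule.span_induction with
    | mem m hm =>
      rcases hm with rfl | ⟨j, rfl⟩
      · exact af_one
      · have h := af_aff ((AffineMap.proj (k := ℝ) (V := fun _ : Fin d => ℝ)
          (P := fun _ : Fin d => ℝ) j).comp ψ)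
        exact h
    | zero => exact zero_mem _
    | add m m' _ _ a b => exact add_mem a b
    | smul r m _ a => exact Submodule.smul_mem _ r a

theorem af_line {m : (Fin d → ℝ) → ℝ} (hm : m ∈ Af d) (v : Fin d → ℝ) :
    Continuous m ∧ ∃ r : ℝ, ∀ x, HasDerivAt (fun t : ℝ => m (x + t • v)) r 0 := by
  induction hm using Submodule.span_induction with
  | mem m hm =>
    rcases hm with rfl | ⟨j, rfl⟩
    · exact ⟨continuous_const, 0, fun x => hasDerivAt_const _ _⟩
    · refine ⟨continuous_apply j, v j, fun x => ?_⟩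
      simpa using ((hasDerivAt_id (0 : ℝ)).mul_const (v j)).const_add (x j)
  | zero => exact ⟨continuous_const, 0, fun x => hasDerivAt_const _ _⟩
  | add m m' _ _ a b =>
    obtain ⟨a1, r, a2⟩ := a
    obtain ⟨b1, r', b2⟩ := b
    exact ⟨a1.add b1, r + r', fun x => (a2 x).add (b2 x)⟩
  | smul s m _ a =>
    obtain ⟨a1, r, a2⟩ := a
    exact ⟨a1.const_smul s, s * r, fun x => (a2 x).const_mul s⟩

theorem af_der {N : ℕ} {f : (Fin d → ℝ) → ℝ} (h : f ∈ Af d ^ N) (v : Fin d → ℝ) :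
    Continuous f ∧ ∃ f' ∈ Af d ^ N, ∀ x, HasDerivAt (fun t : ℝ => f (x + t • v)) (f' x) 0 := by
  induction h using Submodule.pow_induction_on_left' with
  | algebraMap r => exact ⟨continuous_const, 0, zero_mem _, fun x => hasDerivAt_const _ _⟩
  | add f f' i _ _ a b =>
    obtain ⟨a1, r, a2, a3⟩ := a
    obtain ⟨b1, r', b2, b3⟩ := b
    exact ⟨a1.add b1, r + r', add_mem a2 b2, fun x => (a3 x).add (b3 x)⟩
  | mem_mul m hm i f hf a =>
    obtain ⟨a1, f', a2, a3⟩ := a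
    obtain ⟨b1, r, b2⟩ := af_line hm v
    refine ⟨b1.mul a1, r • f + m * f', add_mem (Submodule.smul_mem _ _ (af_mono i.le_succ hf)) ?_,
      fun x => ?_⟩
    · rw [pow_succ']
      exact Submodule.mul_mem_mul hm a2
    · have h := (b2 x).mul (a3 x)
      simp only [zero_smul, add_zero] at h
      exact h

theorem af_cont {N : ℕ} {f : (Fin d → ℝ) → ℝ} (h : f ∈ Af d ^ N) : Continuous f :=
  (af_der h 0).1

/-- Monomials. -/
def mon (a : Fin d → ℕ) : (Fin d → ℝ) → ℝ := fun x => ∏ j, x j ^ a j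

theorem af_span (N : ℕ) : Af d ^ N ≤ Submodule.span ℝ (mon '' {a : Fin d → ℕ | ∀ j, a j ≤ N}) := by
  induction N with
  | zero =>
    rw [pow_zero, Submodule.one_le]
    exact Submodule.subset_span ⟨0, fun _ => le_rfl, funext fun x => by simp [mon]⟩
  | succ N ih =>
    rw [pow_succ']
    refine (mul_le_mul_right ih _).trans ?_
    rw [Af, Submodule.span_mul_span]
    refine Submodule.span_mono ?_
    rintro _ ⟨u, hu, _, ⟨a, ha, rfl⟩, rfl⟩
    rcases hu with rfl | ⟨j, rfl⟩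
    · exact ⟨a, fun j => (ha j).trans N.le_succ, (one_mul _).symm⟩
    · refine ⟨a + Pi.single j 1, fun k => ?_, funext fun x => ?_⟩
      · have := ha k
        by_cases e : k = j
        · subst e
          simpa using this
        · simp only [Pi.add_apply, Pi.single_eq_of_ne e]
          omega
      · simp only [mon, Pi.add_apply, pow_add, Finset.prod_mul_distrib, Pi.mul_apply]
        rw [mul_comm, Finset.prod_eq_single j (fun k _ e => by rw [Pi.single_eq_of_ne e, pow_zero])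
          (fun h => absurd (Finset.mem_univ j) h), Pi.single_eq_same, pow_one]

theorem af_dep {N : ℕ} {κ : Type} [Fintype κ] (v : κ → (Fin d → ℝ) → ℝ) (hv : ∀ k, v k ∈ Af d ^ N)
    (hc : (N + 1) ^ d < Fintype.card κ) :
    ∃ c : κ → ℝ, (∀ x, ∑ k, c k * v k x = 0) ∧ ∃ k, c k ≠ 0 := by
  classical
  have h : ¬ LinearIndependent ℝ v := fun hl => by
    have h1 := linearIndependent_le_span_aux' v hl
      ↑((Fintype.piFinset fun _ : Fin d => Finset.range (N + 1)).image mon) (by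
        rintro _ ⟨k, rfl⟩
        refine Submodule.span_mono ?_ (af_span N (hv k))
        rintro _ ⟨a, ha, rfl⟩
        exact Finset.mem_coe.2 (Finset.mem_image_of_mem _ (Fintype.mem_piFinset.2 fun j =>
          Finset.mem_range.2 (Nat.lt_succ_of_le (ha j)))))
    have h2 := Finset.card_image_le (s := Fintype.piFinset fun _ : Fin d => Finset.range (N + 1))
      (f := mon)
    simp only [Fintype.card_piFinset, Finset.card_range, Finset.prod_const, Finset.card_univ,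
      Fintype.card_fin, Finset.coe_sort_coe, Fintype.card_coe] at h1 h2
    omega
  obtain ⟨c, h1, h2⟩ := Fintype.not_linearIndependent_iff.1 h
  refine ⟨c, fun x => ?_, h2⟩
  simpa using congrFun h1 x

/-- A relation between the values of `p` and one coordinate. -/
theorem fib_one {D : ℕ} (p : Fin d → (Fin d → ℝ) → ℝ) (hp : ∀ k, p k ∈ Af d ^ D) (j : Fin d) :
    ∃ A : MvPolynomial (Fin d) ℝ, A ≠ 0 ∧ ∀ a, MvPolynomial.eval a A ≠ 0 →
      ∃ Z : Finset ℝ, Z.card ≤ (d * D + 1) ^ d ∧ ∀ x, (∀ k, p k x = a k) → x j ∈ Z := by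
  classical
  set M := (d * D + 1) ^ d with hM
  obtain ⟨c, h1, ⟨a₀, t₀⟩, h2⟩ := af_dep (N := D * (d * M) + M)
    (κ := (Fin d → Fin (M + 1)) × Fin (M + 1))
    (fun u => (∏ k, p k ^ (u.1 k).1) * (fun x => x j) ^ u.2.1) (fun u => af_mono (by
      have h1 : ∑ k, D * (u.1 k).1 ≤ ∑ _k : Fin d, D * M :=
        Finset.sum_le_sum fun k _ => Nat.mul_le_mul_left _ (Nat.le_of_lt_succ (u.1 k).2)
      rw [Finset.sum_const, Finset.card_univ, Fintype.card_fin, smul_eq_mul] at h1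
      exact add_le_add (h1.trans (le_of_eq (by ring))) (Nat.le_of_lt_succ u.2.2))
      (af_mul (af_prod _ _ (fun k => D * (u.1 k).1) fun k _ => af_pow (hp k) _)
        (Submodule.pow_mem_pow _ (af_co j) u.2.1))) (by
      rw [Fintype.card_prod, Fintype.card_fun, Fintype.card_fin, Fintype.card_fin]
      calc (D * (d * M) + M + 1) ^ d ≤ ((d * D + 1) * (M + 1)) ^ d :=
            Nat.pow_le_pow_left (by nlinarith [Nat.zero_le (d * D)]) _
        _ = (M + 1) ^ d * M := by rw [mul_pow, mul_comm]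
        _ < _ := Nat.mul_lt_mul_of_pos_left M.lt_succ_self (by positivity))
  let e : (Fin d → Fin (M + 1)) → Fin d →₀ ℕ := fun a =>
    Finsupp.equivFunOnFinite.symm fun k => (a k).1
  have he : Function.Injective e := fun a b h => funext fun k =>
    Fin.ext (congrFun (Finsupp.equivFunOnFinite.symm.injective h) k)
  refine ⟨∑ a, MvPolynomial.monomial (e a) (c (a, t₀)), fun h0 => h2 ?_, fun y hy => ?_⟩
  · have h3 := congrArg (MvPolynomial.coeff (e a₀)) h0
    rwa [MvPolynomial.coeff_sum, Finset.sum_eq_single a₀ (fun b _ hb => by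
      rw [MvPolynomial.coeff_monomial, if_neg fun h => hb (he h)]) (by simp),
      MvPolynomial.coeff_monomial, if_pos rfl, MvPolynomial.coeff_zero] at h3
  let G : Polynomial ℝ := ∑ t : Fin (M + 1), Polynomial.monomial t.1
    (∑ a : Fin d → Fin (M + 1), c (a, t) * ∏ k, y k ^ (a k).1)
  have hG : G ≠ 0 := fun h0 => hy (by
    have h3 := congrArg (Polynomial.coeff · t₀.1) h0
    simp only [G, Polynomial.finsetSum_coeff, Polynomial.coeff_monomial, Polynomial.coeff_zero,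
      Fin.val_inj, Finset.sum_ite_eq', Finset.mem_univ, if_true] at h3
    rw [map_sum, ← h3]
    refine Finset.sum_congr rfl fun a _ => ?_
    rw [MvPolynomial.eval_monomial, Finsupp.prod_fintype _ _ fun _ => pow_zero _]
    rfl)
  refine ⟨G.roots.toFinset, (Multiset.toFinset_card_le _).trans ((Polynomial.card_roots' G).trans
    (Polynomial.natDegree_sum_le_of_forall_le _ _ fun t _ =>
      (Polynomial.natDegree_monomial_le _).trans (Nat.le_of_lt_succ t.2))), fun x hx => ?_⟩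
  rw [Multiset.mem_toFinset, Polynomial.mem_roots hG, Polynomial.IsRoot.def, ← h1 x,
    Fintype.sum_prod_type_right, Polynomial.eval_finsetSum]
  refine Finset.sum_congr rfl fun t _ => ?_
  rw [Polynomial.eval_monomial, Finset.sum_mul]
  refine Finset.sum_congr rfl fun a _ => ?_
  simp only [Pi.mul_apply, Finset.prod_apply, Pi.pow_apply, hx, mul_assoc]

/-- A small value with few preimages. -/
theorem fib {D : ℕ} (p : Fin d → (Fin d → ℝ) → ℝ) (hp : ∀ k, p k ∈ Af d ^ D) {ε : ℝ} (hε : 0 < ε) :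
    ∃ a : Fin d → ℝ, (∀ j, |a j| < ε) ∧ ∀ T : Finset (Fin d → ℝ), (∀ x ∈ T, ∀ k, p k x = a k) →
      T.card ≤ ((d * D + 1) ^ d) ^ d := by
  classical
  choose A h0 hA using fib_one p hp
  obtain ⟨a, ha, h1⟩ : ∃ a ∈ Set.pi univ fun _ : Fin d => Ioo (-ε) ε,
      MvPolynomial.eval a (∏ j, A j) ≠ 0 := by
    by_contra hn
    push Not at hn
    exact Finset.prod_ne_zero_iff.2 (fun j _ => h0 j) (MvPolynomial.funext_set _
      (fun _ => Ioo_infinite (by linarith)) fun x hx => (hn x hx).trans (map_zero _).symm)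
  rw [map_prod] at h1
  choose Z h2 h3 using fun j => hA j a (Finset.prod_ne_zero_iff.1 h1 j (Finset.mem_univ j))
  refine ⟨a, fun j => abs_lt.2 (ha j trivial), fun T hT => ?_⟩
  refine (Finset.card_le_card (t := Fintype.piFinset Z) fun x hx =>
    Fintype.mem_piFinset.2 fun j => h3 j x (hT x hx)).trans ?_
  rw [Fintype.card_piFinset]
  exact (Finset.prod_le_pow_card _ _ _ fun j _ => h2 j).trans (by simp)

/-- The bound for the number of components. -/
def bet (d N : ℕ) : ℕ := ((d * (N * 2 + 1 * 2) + 1) ^ d) ^ d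

theorem af_sq (r : ℝ) : (fun x : Fin d → ℝ => r - ∑ j, x j ^ 2) ∈ Af d ^ (1 * 2) := by
  have e : (fun x : Fin d → ℝ => r - ∑ j, x j ^ 2) =
      (fun _ => r) - ∑ j, (fun x : Fin d → ℝ => x j) ^ 2 := by
    funext x
    simp
  rw [e]
  exact sub_mem (af_const _ r) (Submodule.sum_mem _ fun j _ => Submodule.pow_mem_pow _ (af_co j) 2)

theorem cpt_sq (r : ℝ) : IsCompact {x : Fin d → ℝ | ∑ j, x j ^ 2 ≤ r} := by
  refine (isCompact_univ_pi fun _ : Fin d => isCompact_Icc (a := -(r + 1)) (b := r + 1)).of_isClosed_subset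
    (isClosed_le (by fun_prop) continuous_const) fun x hx j _ => abs_le.1 ?_
  have h1 : x j ^ 2 ≤ r := (Finset.single_le_sum (f := fun j => x j ^ 2)
    (fun _ _ => sq_nonneg _) (Finset.mem_univ j)).trans hx
  nlinarith [sq_nonneg (|x j| - 1), sq_abs (x j), sq_nonneg (x j)]

theorem few_max {h : (Fin d → ℝ) → ℝ} (hc : Continuous h) {r m : ℝ} {a x : Fin d → ℝ}
    (hr : ∀ y, 0 < h y → ∑ j, y j ^ 2 ≤ r) (hx : m ≤ h x) (hm : 0 < m)
    (hl : ∀ y : Fin d → ℝ, ∑ j, y j ^ 2 ≤ r → |∑ j, a j * y j| < m / 2) :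
    ∃ y ∈ cc {x | 0 < h x} x, IsLocalMax (fun y => h y - ∑ j, a j * y j) y := by
  have hO : IsOpen {x | 0 < h x} := isOpen_lt continuous_const hc
  have hx0 : x ∈ {x | 0 < h x} := hm.trans_le hx
  have hx' : x ∈ cc {x | 0 < h x} x := mem_connectedComponentIn hx0
  have b1 : closure (cc {x | 0 < h x} x) ⊆ {x | ∑ j, x j ^ 2 ≤ r} :=
    closure_minimal (fun y hy => hr y (connectedComponentIn_subset {x | 0 < h x} x hy))
      (cpt_sq r).isClosed
  have b0 : Continuous fun y : Fin d → ℝ => h y - ∑ j, a j * y j := by fun_prop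
  obtain ⟨y, hy, hmax⟩ := ((cpt_sq r).of_isClosed_subset isClosed_closure b1).exists_isMaxOn
    ⟨x, subset_closure hx'⟩ b0.continuousOn
  have b2 : h x - ∑ j, a j * x j ≤ h y - ∑ j, a j * y j := hmax (subset_closure hx')
  have b3 : y ∈ {x | 0 < h x} := by
    have c1 := abs_lt.1 (hl x (hr x hx0))
    have c2 := abs_lt.1 (hl y (b1 hy))
    change 0 < h y
    linarith [c1.2, c2.1]
  obtain ⟨w, w1, w2⟩ := mem_closure_iff.1 hy _ hO.connectedComponentIn
    (mem_connectedComponentIn b3)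
  have b4 : y ∈ cc {x | 0 < h x} x := cc_trans w2 (cc_symm w1)
  exact ⟨y, b4, hmax.isLocalMax (mem_of_superset (hO.connectedComponentIn.mem_nhds b4)
    subset_closure)⟩

theorem few_der {h : (Fin d → ℝ) → ℝ} {a y : Fin d → ℝ} {k : Fin d} {s : ℝ}
    (h1 : IsLocalMax (fun y => h y - ∑ j, a j * y j) y)
    (h2 : HasDerivAt (fun t : ℝ => h (y + t • Pi.single k 1)) s 0) : s = a k := by
  have b6 : Tendsto (fun t : ℝ => y + t • (Pi.single k 1 : Fin d → ℝ)) (𝓝 0) (𝓝 y) :=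
    Continuous.tendsto' (by fun_prop) _ _ (by simp)
  have b5 : IsLocalMax (fun t : ℝ => h (y + t • Pi.single k 1) -
      ∑ j, a j * (y + t • (Pi.single k 1 : Fin d → ℝ)) j) 0 := by
    filter_upwards [b6.eventually h1] with t ht
    rwa [zero_smul, add_zero]
  have b7 : HasDerivAt (fun t : ℝ => ∑ j, a j * (y + t • (Pi.single k 1 : Fin d → ℝ)) j) (a k) 0 := by
    have e : (fun t : ℝ => ∑ j, a j * (y + t • (Pi.single k 1 : Fin d → ℝ)) j) =
        fun t => ∑ j, a j * y j + t * a k := by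
      funext t
      simp [mul_add, Finset.sum_add_distrib, Pi.single_apply, mul_comm]
    rw [e]
    simpa using ((hasDerivAt_id (0 : ℝ)).mul_const (a k)).const_add (∑ j, a j * y j)
  exact sub_eq_zero.1 (b5.hasDerivAt_eq_zero (h2.sub b7))

theorem few_ball {N : ℕ} {h : (Fin d → ℝ) → ℝ} (hm : h ∈ Af d ^ N) {r : ℝ}
    (hr : ∀ y, 0 < h y → ∑ j, y j ^ 2 ≤ r) : Few {x | 0 < h x} (((d * N + 1) ^ d) ^ d) := by
  classical
  intro T h1 h2
  have hc := af_cont hm
  choose p hp hp' using fun j : Fin d => (af_der hm (Pi.single j 1)).2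
  obtain ⟨m, hm0, hm1⟩ := T.finite_toSet.isCompact.exists_forall_le' hc.continuousOn h1
  obtain ⟨B, hB⟩ := (cpt_sq (d := d) r).exists_bound_of_continuousOn
    (f := fun x => ∑ j, |x j|) (by fun_prop)
  have hB' : ∀ x : Fin d → ℝ, ∑ j, x j ^ 2 ≤ r → ∑ j, |x j| ≤ |B| := fun x hx =>
    (le_abs_self _).trans ((hB x hx).trans (le_abs_self B))
  obtain ⟨a, ha, hT⟩ := fib p hp (ε := m / (2 * (|B| + 1))) (by positivity)
  have hl : ∀ x : Fin d → ℝ, ∑ j, x j ^ 2 ≤ r → |∑ j, a j * x j| < m / 2 := fun x hx => by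
    have b1 : |∑ j, a j * x j| ≤ m / (2 * (|B| + 1)) * ∑ j, |x j| := by
      rw [Finset.mul_sum]
      refine (Finset.abs_sum_le_sum_abs _ _).trans (Finset.sum_le_sum fun j _ => ?_)
      rw [abs_mul]
      exact mul_le_mul_of_nonneg_right (ha j).le (abs_nonneg _)
    refine b1.trans_lt ((mul_le_mul_of_nonneg_left (hB' x hx) (by positivity)).trans_lt ?_)
    rw [div_mul_eq_mul_div, div_lt_div_iff₀ (by positivity) two_pos]
    nlinarith [abs_nonneg B]
  choose! y hy hy' using fun x (hx : x ∈ T) => few_max hc hr (hm1 x hx) hm0 hl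
  rw [← Finset.card_image_of_injOn (f := y) fun x hx x' hx' e =>
    h2 x hx x' hx' (cc_trans (hy x hx) (cc_symm (e ▸ hy x' hx')))]
  refine hT _ fun w hw k => ?_
  obtain ⟨x, hx, rfl⟩ := Finset.mem_image.1 hw
  exact few_der (hy' x hx) (hp' k _)

theorem few_ne {N : ℕ} {Q : (Fin d → ℝ) → ℝ} (hQ : Q ∈ Af d ^ N) : Few {x | Q x ≠ 0} (bet d N) := by
  unfold bet
  intro T h1 h2
  obtain ⟨r, hr⟩ : ∃ r : ℝ, ∀ x ∈ T, ∑ j, x j ^ 2 < r :=
    ⟨∑ x ∈ T, ∑ j, x j ^ 2 + 1, fun x hx => lt_of_le_of_lt (Finset.single_le_sum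
      (f := fun x : Fin d → ℝ => ∑ j, x j ^ 2) (fun _ _ => Finset.sum_nonneg fun _ _ => sq_nonneg _)
        hx) (lt_add_one _)⟩
  obtain ⟨h, hm, hpos⟩ : ∃ h ∈ Af d ^ (N * 2 + 1 * 2), ∀ x, 0 < h x ↔ Q x ≠ 0 ∧ ∑ j, x j ^ 2 < r := by
    refine ⟨_, af_mul (af_pow hQ 2) (af_sq r), fun x => ?_⟩
    rw [Pi.mul_apply, Pi.pow_apply]
    refine ⟨fun a => ⟨fun b => ?_, sub_pos.1 ((mul_pos_iff_of_pos_left ?_).1 a)⟩,
      fun a => mul_pos (sq_pos_iff.2 a.1) (sub_pos.2 a.2)⟩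
    · rw [b, zero_pow two_ne_zero, zero_mul] at a
      exact lt_irrefl _ a
    · exact lt_of_le_of_ne (sq_nonneg _) (left_ne_zero_of_mul a.ne').symm
  have h3 := few_ball hm (r := r) fun y hy => ((hpos y).1 hy).2.le
  have h4 : {x | 0 < h x} ⊆ {x | Q x ≠ 0} := fun w hw => ((hpos w).1 hw).1
  exact h3 T (fun x hx => (hpos x).2 ⟨h1 x hx, hr x hx⟩) fun x hx y hy e =>
    h2 x hx y hy (connectedComponentIn_mono x h4 e)

/-- Open sets that are unions of components of the complement of a hypersurface. -/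
def Bas (N : ℕ) (W : Set (Fin d → ℝ)) : Prop :=
  IsOpen W ∧ ∃ Q ∈ Af d ^ N, W ⊆ {x | Q x ≠ 0} ∧ ∀ x ∈ W, cc {x | Q x ≠ 0} x ⊆ W

theorem bas_pos {N : ℕ} {w : (Fin d → ℝ) → ℝ} (h : w ∈ Af d ^ N) : Bas N {x | 0 < w x} :=
  ⟨isOpen_lt continuous_const (af_cont h), w, h, fun _ hx => ne_of_gt hx, fun x hx _ hy =>
    isPreconnected_connectedComponentIn.lt_of_ne (af_cont h).continuousOn
      (fun _ hw => connectedComponentIn_subset _ _ hw)
      ⟨x, mem_connectedComponentIn (ne_of_gt hx), hx⟩ hy⟩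

theorem Bas.inter {N M : ℕ} {W W' : Set (Fin d → ℝ)} (h : Bas N W) (h' : Bas M W') :
    Bas (N + M) (W ∩ W') := by
  obtain ⟨a1, Q, a2, a3, a4⟩ := h
  obtain ⟨b1, Q', b2, b3, b4⟩ := h'
  exact ⟨a1.inter b1, Q * Q', af_mul a2 b2, fun x hx => mul_ne_zero (a3 hx.1) (b3 hx.2),
    fun x hx y hy => ⟨a4 x hx.1 (connectedComponentIn_mono x (fun _ => left_ne_zero_of_mul) hy),
      b4 x hx.2 (connectedComponentIn_mono x (fun _ => right_ne_zero_of_mul) hy)⟩⟩

theorem Bas.mono {N M : ℕ} {W : Set (Fin d → ℝ)} (h : Bas N W) (h' : N ≤ M) : Bas M W := by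
  obtain ⟨a1, Q, a2, a3⟩ := h
  exact ⟨a1, Q, af_mono h' a2, a3⟩

theorem bas_all {κ : Type} {N : ℕ} (s : Finset κ) (W : κ → Set (Fin d → ℝ))
    (h : ∀ k ∈ s, Bas N (W k)) : Bas (s.card * N) {x | ∀ k ∈ s, x ∈ W k} := by
  classical
  induction s using Finset.induction_on with
  | empty => simpa using bas_pos (af_const (d := d) 0 1)
  | insert a s ha ih =>
    have h1 := (h a (Finset.mem_insert_self _ _)).inter
      (ih fun k hk => h k (Finset.mem_insert_of_mem hk))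
    rw [Finset.card_insert_of_notMem ha, add_mul, one_mul, add_comm]
    simpa only [Finset.forall_mem_insert, ofPred_and, ofPred_mem_eq] using h1

theorem Bas.few {N : ℕ} {W : Set (Fin d → ℝ)} (h : Bas N W) {ι : Type}
    (g : ι → (Fin d → ℝ) →ᵃ[ℝ] ℝ) (Z : Finset ι) :
    Few ({x | ∀ i ∈ Z, g i x = 0} ∩ W) (bet d N) := by
  classical
  obtain ⟨-, Q, h1, h2, h3⟩ := h
  intro T a1 a2
  rcases T.eq_empty_or_nonempty with rfl | ⟨x₀, hx₀⟩
  · exact Nat.zero_le _
  let V : Submodule ℝ (Fin d → ℝ) := ⨅ i : Z, LinearMap.ker (g i.1).linear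
  obtain ⟨π, hπ⟩ := V.subtype.exists_leftInverse_of_injective V.ker_subtype
  let ψ : (Fin d → ℝ) →ᵃ[ℝ] (Fin d → ℝ) :=
    AffineMap.const ℝ _ x₀ + (V.subtype.comp π).toAffineMap
  have hψ : ∀ t, ψ t = x₀ + (π t).1 := fun _ => rfl
  have b1 : ∀ t, ∀ i ∈ Z, g i (ψ t) = 0 := fun t i hi => by
    have h4 := (g i).map_vadd x₀ (π t).1
    rw [vadd_eq_add, vadd_eq_add, (a1 x₀ hx₀).1 i hi, add_comm,
      show (g i).linear (π t).1 = 0 from (Submodule.mem_iInf _).1 (π t).2 ⟨i, hi⟩, add_zero] at h4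
    exact h4
  have b2 : ∀ x ∈ T, ψ (x - x₀) = x := fun x hx => by
    have h4 : x - x₀ ∈ V := (Submodule.mem_iInf _).2 fun i => by
      have h5 := (g i.1).linearMap_vsub x x₀
      rw [(a1 x hx).1 i.1 i.2, (a1 x₀ hx₀).1 i.1 i.2] at h5
      simpa using h5
    have h5 : π (x - x₀) = ⟨x - x₀, h4⟩ := LinearMap.congr_fun hπ ⟨x - x₀, h4⟩
    rw [hψ, h5, add_sub_cancel]
  rw [← Finset.card_image_of_injective T (sub_left_injective (b := x₀))]
  refine few_ne (af_comp ψ h1) _ (fun t ht => ?_) fun t ht t' ht' e => ?_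
  · obtain ⟨x, hx, rfl⟩ := Finset.mem_image.1 ht
    change Q (ψ (x - x₀)) ≠ 0
    rw [b2 x hx]
    exact h2 (a1 x hx).2
  obtain ⟨x, hx, rfl⟩ := Finset.mem_image.1 ht
  obtain ⟨x', hx', rfl⟩ := Finset.mem_image.1 ht'
  have b3 := (isPreconnected_connectedComponentIn (x := x - x₀) (F := {t | Q (ψ t) ≠ 0})).image ψ
    ψ.continuous_of_finiteDimensional.continuousOn
  have b4 : x ∈ ψ '' cc {t | Q (ψ t) ≠ 0} (x - x₀) :=
    ⟨_, mem_connectedComponentIn (cc_base e), b2 x hx⟩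
  have b5 : ψ '' cc {t | Q (ψ t) ≠ 0} (x - x₀) ⊆ {x | Q x ≠ 0} := by
    rintro _ ⟨t, ht, rfl⟩
    exact connectedComponentIn_subset {t | Q (ψ t) ≠ 0} _ ht
  have b6 : ψ '' cc {t | Q (ψ t) ≠ 0} (x - x₀) ⊆ {x | ∀ i ∈ Z, g i x = 0} ∩ W := fun w hw => by
    refine ⟨?_, h3 x (a1 x hx).2 (b3.subset_connectedComponentIn b4 b5 hw)⟩
    obtain ⟨t, -, rfl⟩ := hw
    exact b1 t
  rw [a2 x hx x' hx' (b3.subset_connectedComponentIn b4 b6 ⟨_, e, b2 x' hx'⟩)]

end pol

end FP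
end

-- merged part: Pool.Agent.Work.MP_8a5de9_co.Fl.Hy
section
/-!
# Hyperplanes in general position, sign vectors, and the counting lemma `mv`
-/

open Set Filter Topology SA Function

namespace FP

set_option linter.unusedSectionVars false

variable {E ι : Type} [NormedAddCommGroup E] [NormedSpace ℝ E]

/-- Hyperplanes in general position. -/
structure Hy (E ι : Type) [NormedAddCommGroup E] [NormedSpace ℝ E] where
  g : ι → E →ᵃ[ℝ] ℝ
  d : ℕ
  dim : Module.finrank ℝ E = d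
  gp : ∀ (D : Finset ι) (x : E), (∀ i ∈ D, g i x = 0) →
    LinearIndependent ℝ fun i : D => (g i.1).linear

theorem aff_lin (f : E →ᵃ[ℝ] ℝ) (x y : E) : f.linear (x - y) = f x - f y := f.linearMap_vsub x y

theorem aff_add (f : E →ᵃ[ℝ] ℝ) (x e : E) : f (x + e) = f x + f.linear e := by
  have h := aff_lin f (x + e) x
  rw [add_sub_cancel_left] at h
  rw [h, add_sub_cancel]

theorem aff_line (f : E →ᵃ[ℝ] ℝ) (x y : E) (σ : ℝ) :
    f (AffineMap.lineMap x y σ) = (1 - σ) * f x + σ * f y := by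
  rw [AffineMap.apply_lineMap, AffineMap.lineMap_apply_ring]

/-- The subsets of `R` with less than `k` elements. -/
def low [DecidableEq ι] (R : Finset ι) (k : ℕ) : Finset (Finset ι) :=
  R.powerset.filter fun J => J.card < k

theorem mem_low [DecidableEq ι] {R J : Finset ι} {k : ℕ} : J ∈ low R k ↔ J ⊆ R ∧ J.card < k := by
  simp [low]

theorem low_sum [DecidableEq ι] (R : Finset ι) (k : ℕ) :
    (low R k).card ≤ ∑ t ∈ Finset.range k, R.card.choose t := by
  refine (Finset.card_le_card (t := (Finset.range k).biUnion fun t => R.powersetCard t)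
    fun J hJ => ?_).trans (Finset.card_biUnion_le.trans (le_of_eq ?_))
  · exact Finset.mem_biUnion.2 ⟨J.card, Finset.mem_range.2 (mem_low.1 hJ).2,
      Finset.mem_powersetCard.2 ⟨(mem_low.1 hJ).1, rfl⟩⟩
  · exact Finset.sum_congr rfl fun t _ => Finset.card_powersetCard _ _

theorem low_choose [DecidableEq ι] {R : Finset ι} {k : ℕ} (h : k ≤ R.card) :
    (low R (k + 1)).card ≤ 2 ^ k * R.card.choose k := by
  refine (Finset.card_le_card (t := (R.powersetCard k).biUnion Finset.powerset)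
    fun J hJ => ?_).trans ((Finset.card_biUnion_le_card_mul _ _ (2 ^ k) fun D hD => ?_).trans ?_)
  · obtain ⟨D, a, b, e⟩ := Finset.exists_subsuperset_card_eq (mem_low.1 hJ).1
      (Nat.le_of_lt_succ (mem_low.1 hJ).2) h
    exact Finset.mem_biUnion.2 ⟨D, Finset.mem_powersetCard.2 ⟨b, e⟩, Finset.mem_powerset.2 a⟩
  · rw [Finset.card_powerset, (Finset.mem_powersetCard.1 hD).2]
  · rw [Finset.card_powersetCard, mul_comm]

theorem low_pow [DecidableEq ι] {R : Finset ι} (h : 1 ≤ R.card) (k : ℕ) :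
    (low R k).card ≤ k * R.card ^ (k - 1) := by
  refine (low_sum R k).trans ((Finset.sum_le_card_nsmul _ _ (R.card ^ (k - 1)) fun t ht => ?_).trans ?_)
  · have := Finset.mem_range.1 ht
    exact (Nat.choose_le_pow _ _).trans (Nat.pow_le_pow_right h (by omega))
  · rw [Finset.card_range, smul_eq_mul]

/-- The signs on `J` given by the subset `J₁`. -/
def asg [DecidableEq ι] (J J₁ : Finset ι) (σ : ι → SignType) : ι → SignType :=
  fun i => if i ∈ J₁ then 1 else if i ∈ J then -1 else σ i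

/-- The sum over the corners. -/
def cor [DecidableEq ι] (φ : (ι → SignType) → ZMod 2) (J : Finset ι) (σ : ι → SignType) : ZMod 2 :=
  ∑ J₁ ∈ J.powerset, φ (asg J J₁ σ)

theorem cor_empty [DecidableEq ι] (φ : (ι → SignType) → ZMod 2) (σ : ι → SignType) :
    cor φ ∅ σ = φ σ := by
  have e : asg ∅ ∅ σ = σ := funext fun i => by simp [asg]
  rw [cor, Finset.powerset_empty, Finset.sum_singleton, e]

theorem cor_insert [DecidableEq ι] (φ : (ι → SignType) → ZMod 2) {J : Finset ι} {a : ι}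
    (ha : a ∉ J) (σ : ι → SignType) :
    cor φ (insert a J) σ = cor φ J (update σ a 1) + cor φ J (update σ a (-1)) := by
  unfold cor
  rw [Finset.sum_powerset_insert ha, add_comm]
  refine congrArg₂ (· + ·) (Finset.sum_congr rfl fun J₁ _ => congrArg _ (funext fun i => ?_))
    (Finset.sum_congr rfl fun J₁ _ => congrArg _ (funext fun i => ?_))
  · by_cases hi : i = a
    · subst hi
      simp [asg, ha]
    · simp [asg, hi]
  · by_cases hi : i = a
    · subst hi
      simp [asg, ha]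
    · simp [asg, hi]

theorem asg_update [DecidableEq ι] {J J₁ : Finset ι} (h : J₁ ⊆ J) {a : ι} (ha : a ∉ J)
    (σ : ι → SignType) (s : SignType) : asg J J₁ (update σ a s) = update (asg J J₁ σ) a s := by
  funext i
  by_cases hi : i = a
  · subst hi
    have : i ∉ J₁ := fun h' => ha (h h')
    simp [asg, ha, this]
  · simp [asg, hi]

theorem asg_out [DecidableEq ι] {J J₁ : Finset ι} (h : J₁ ⊆ J) (σ : ι → SignType) {i : ι}
    (hi : i ∉ J) : asg J J₁ σ i = σ i := by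
  have : i ∉ J₁ := fun h' => hi (h h')
  simp [asg, hi, this]

theorem asg_in [DecidableEq ι] {J J₁ : Finset ι} (σ : ι → SignType) {i : ι} (hi : i ∈ J) :
    asg J J₁ σ i ≠ 0 := by
  by_cases h : i ∈ J₁ <;> simp [asg, hi, h]

variable [FiniteDimensional ℝ E]

theorem aff_cont (f : E →ᵃ[ℝ] ℝ) : Continuous f := f.continuous_of_finiteDimensional

namespace Hy

variable (c : Hy E ι)

/-- The flat of `Z`. -/
def Lam (Z : Finset ι) : Set E := {x | ∀ i ∈ Z, c.g i x = 0}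

/-- The linear parts of the equations in `A`. -/
def lin (A : Finset ι) : E →ₗ[ℝ] (A → ℝ) := LinearMap.pi fun j : A => (c.g j.1).linear

variable {c} {A : Finset ι} {x : E}

theorem lin_mem {e : E} : e ∈ LinearMap.ker (c.lin A) ↔ ∀ j ∈ A, (c.g j).linear e = 0 := by
  rw [LinearMap.mem_ker, funext_iff]
  exact ⟨fun h j hj => h ⟨j, hj⟩, fun h j => h j.1 j.2⟩

theorem lin_range (h : x ∈ c.Lam A) : LinearMap.range (c.lin A) = ⊤ := by
  classical
  by_contra hne
  obtain ⟨φ, h0, hφ⟩ := Submodule.exists_le_ker_of_lt_top _ (lt_top_iff_ne_top.2 hne)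
  have hli := Fintype.linearIndependent_iff.1 (c.gp A x h)
    (fun j => φ fun k => if j = k then 1 else 0) (by
      ext e
      have := hφ (LinearMap.mem_range_self _ e)
      rw [LinearMap.mem_ker, LinearMap.pi_apply_eq_sum_univ] at this
      rw [LinearMap.sum_apply, LinearMap.zero_apply]
      exact Eq.trans (Finset.sum_congr rfl fun j _ => mul_comm _ _) this)
  refine h0 (LinearMap.ext fun v => ?_)
  rw [LinearMap.pi_apply_eq_sum_univ, LinearMap.zero_apply]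
  exact Finset.sum_eq_zero fun j _ => by rw [hli j, smul_zero]

theorem lin_rank (h : x ∈ c.Lam A) :
    A.card + Module.finrank ℝ (LinearMap.ker (c.lin A)) = c.d := by
  rw [← c.dim, ← LinearMap.finrank_range_add_finrank_ker (c.lin A), lin_range h, finrank_top,
    Module.finrank_fintype_fun_eq_card, Fintype.card_coe]

theorem card_le (h : x ∈ c.Lam A) : A.card ≤ c.d := by
  have := lin_rank h
  omega

theorem ker (h : x ∈ c.Lam A) (hc : A.card = c.d) {e : E}
    (he : ∀ j ∈ A, (c.g j).linear e = 0) : e = 0 := by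
  have h1 := lin_rank h
  have h2 : LinearMap.ker (c.lin A) = ⊥ := Submodule.finrank_eq_zero.1 (by omega)
  exact (Submodule.eq_bot_iff _).1 h2 e (lin_mem.2 he)

theorem uniq (h : x ∈ c.Lam A) (hc : A.card = c.d) {x' : E} (h' : x' ∈ c.Lam A) : x = x' :=
  sub_eq_zero.1 (ker h hc fun j hj => by rw [aff_lin, h j hj, h' j hj, sub_self])

theorem solve (h : x ∈ c.Lam A) (r : ι → ℝ) : ∃ e, ∀ j ∈ A, (c.g j).linear e = r j := by
  obtain ⟨e, he⟩ := LinearMap.range_eq_top.1 (lin_range h) fun j => r j.1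
  exact ⟨e, fun j hj => congrFun he ⟨j, hj⟩⟩

theorem exists_height [Finite ι] (c : Hy E ι) : ∃ z : E →ₗ[ℝ] ℝ,
    (∀ A x, x ∈ c.Lam A → A.card < c.d → ∃ u, z u = 1 ∧ ∀ j ∈ A, (c.g j).linear u = 0) ∧
      ∀ A A' x x', x ∈ c.Lam A → x' ∈ c.Lam A' → A.card = c.d → A'.card = c.d → z x = z x' →
        x = x' := by
  have h1 : ∀ A : Finset ι, ∃ u : E, ∀ x, x ∈ c.Lam A → A.card < c.d →
      u ≠ 0 ∧ u ∈ LinearMap.ker (c.lin A) := by
    intro A
    by_cases h0 : LinearMap.ker (c.lin A) = ⊥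
    · refine ⟨0, fun x hx hc => ?_⟩
      have := lin_rank hx
      rw [h0, finrank_bot] at this
      omega
    · obtain ⟨u, hu, hu0⟩ := (Submodule.ne_bot_iff _).1 h0
      exact ⟨u, fun _ _ _ => ⟨hu0, hu⟩⟩
  have h2 : ∀ A : Finset ι, ∃ v : E, ∀ x, x ∈ c.Lam A → A.card = c.d → x = v := by
    intro A
    by_cases h0 : ∃ v, v ∈ c.Lam A
    · obtain ⟨v, hv⟩ := h0
      exact ⟨v, fun x hx hc => uniq hx hc hv⟩
    · exact ⟨0, fun x hx _ => (h0 ⟨x, hx⟩).elim⟩
  choose u hu using h1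
  choose v hv using h2
  obtain ⟨w, hw⟩ : ∃ w : Finset ι ⊕ Finset ι × Finset ι → E,
    w = Sum.elim u fun p => v p.1 - v p.2 := ⟨_, rfl⟩
  obtain ⟨z, hz⟩ := Module.exists_dual_forall_apply_ne_zero (K := ℝ)
    (fun k : {k // w k ≠ 0} => w k.1) fun k => k.2
  refine ⟨z, fun A x hx hc => ?_, fun A A' x x' hx hx' hc hc' e => ?_⟩
  · obtain ⟨h3, h4⟩ := hu A x hx hc
    have h5 := hz ⟨Sum.inl A, by rw [hw]; exact h3⟩
    simp only [hw, Sum.elim_inl] at h5
    refine ⟨(z (u A))⁻¹ • u A, by rw [map_smul, smul_eq_mul, inv_mul_cancel₀ h5], ?_⟩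
    exact lin_mem.1 (Submodule.smul_mem _ _ h4)
  · by_contra hne
    rw [hv A x hx hc, hv A' x' hx' hc'] at hne e
    have h5 := hz ⟨Sum.inr (A, A'), by rw [hw]; exact sub_ne_zero.2 hne⟩
    simp only [hw, Sum.elim_inr, map_sub] at h5
    exact h5 (sub_eq_zero.2 e)

variable [Fintype ι] [DecidableEq ι] (c)

/-- The sign vector of the hyperplanes of `H`. -/
noncomputable def sv (H : Finset ι) (x : E) : ι → SignType :=
  fun i => if i ∈ H then SignType.sign (c.g i x) else 0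

/-- The sign vectors realized in `Ω`, in the flat of `F ∪ J`. -/
def Rz (F H J : Finset ι) (Ω : Set E) : Set (ι → SignType) :=
  {σ | ∃ x ∈ Ω, x ∈ c.Lam (F ∪ J) ∧ c.sv H x = σ}

variable {c} {F F' R H J Z : Finset ι} {x' : E} {i : ι}

theorem Lam_mono (h : F ⊆ F') : c.Lam F' ⊆ c.Lam F := fun _ hx i hi => hx i (h hi)

theorem Lam_insert (hx : x ∈ c.Lam F) (h : c.g i x = 0) : x ∈ c.Lam (insert i F) := fun j hj => by
  rcases Finset.mem_insert.1 hj with rfl | hj
  exacts [h, hx j hj]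

theorem ne_of_full (hx : x ∈ c.Lam F) (hc : c.d ≤ F.card) (hi : i ∉ F) : c.g i x ≠ 0 := fun h => by
  have := card_le (Lam_insert hx h)
  rw [Finset.card_insert_of_notMem hi] at this
  omega

theorem convex_Lam (Z : Finset ι) : Convex ℝ (c.Lam Z) := by
  have : c.Lam Z = ⋂ i ∈ Z, (c.g i) ⁻¹' {0} := by ext x; simp [Lam]
  rw [this]
  exact convex_iInter₂ fun i _ => (convex_singleton _).affine_preimage _

theorem isClosed_Lam (Z : Finset ι) : IsClosed (c.Lam Z) := by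
  have : c.Lam Z = ⋂ i ∈ Z, (c.g i) ⁻¹' {0} := by ext x; simp [Lam]
  rw [this]
  exact isClosed_biInter fun i _ => isClosed_singleton.preimage (aff_cont _)

theorem sv_of_mem (hi : i ∈ H) (x : E) : c.sv H x i = SignType.sign (c.g i x) := if_pos hi

theorem sv_of_notMem (hi : i ∉ H) (x : E) : c.sv H x i = 0 := if_neg hi

theorem sv_eq_zero (hi : i ∈ H) : c.sv H x i = 0 ↔ c.g i x = 0 := by
  rw [sv_of_mem hi, sign_eq_zero_iff]

theorem sign_near (c : Hy E ι) (x : E) : ∀ᶠ y in 𝓝 x, ∀ i, c.g i x ≠ 0 →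
    SignType.sign (c.g i y) = SignType.sign (c.g i x) := by
  refine eventually_all.2 fun i => ?_
  rcases lt_trichotomy (c.g i x) 0 with h3 | h3 | h3
  · filter_upwards [(isOpen_lt (aff_cont (c.g i)) continuous_const).mem_nhds h3] with y hy _
    rw [sign_neg hy, sign_neg h3]
  · exact Eventually.of_forall fun _ h4 => absurd h3 h4
  · filter_upwards [(isOpen_lt continuous_const (aff_cont (c.g i))).mem_nhds h3] with y hy _
    rw [sign_pos hy, sign_pos h3]

theorem sv_near (c : Hy E ι) (H : Finset ι) (x : E) :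
    ∀ᶠ y in 𝓝 x, ∀ i, c.sv H x i ≠ 0 → c.sv H y i = c.sv H x i := by
  filter_upwards [c.sign_near x] with y hy i hi
  have h : i ∈ H := by_contra fun h => hi (sv_of_notMem h x)
  rw [sv_of_mem h, sv_of_mem h, hy i fun e => hi ((sv_eq_zero h).2 e)]

theorem lift (h : Disjoint F H) (hx : x ∈ c.Lam F) {τ : ι → SignType}
    (h1 : ∀ i, c.sv H x i ≠ 0 → τ i = c.sv H x i) (h2 : ∀ i ∉ H, τ i = 0) :
    ∃ᶠ y in 𝓝 x, y ∈ c.Lam F ∧ c.sv H y = τ := by
  classical
  have h0 : x ∈ c.Lam (F ∪ H.filter fun i => c.g i x = 0) := fun i hi => by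
    rcases Finset.mem_union.1 hi with hi | hi
    exacts [hx i hi, (Finset.mem_filter.1 hi).2]
  obtain ⟨e, he⟩ := solve h0 fun j => (τ j : ℝ)
  have hl : ∀ i ∈ F ∪ H.filter (fun i => c.g i x = 0), ∀ t : ℝ,
      c.g i (x + t • e) = t * (τ i : ℝ) := fun i hi t => by
    rw [aff_add, h0 i hi, zero_add, map_smul, he i hi, smul_eq_mul]
  have ht : Tendsto (fun t : ℝ => x + t • e) (𝓝[>] 0) (𝓝 x) := by
    refine tendsto_nhdsWithin_of_tendsto_nhds (Continuous.tendsto' (by fun_prop) _ _ ?_)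
    simp
  refine ht.frequently (Eventually.frequently ?_)
  filter_upwards [self_mem_nhdsWithin, ht.eventually (c.sign_near x)] with t ht0 hy
  refine ⟨fun i hi => ?_, funext fun i => ?_⟩
  · rw [hl i (Finset.mem_union_left _ hi), h2 i (Finset.disjoint_left.1 h hi), SignType.coe_zero,
      mul_zero]
  · by_cases hi : i ∈ H
    · rw [sv_of_mem hi]
      by_cases h3 : c.g i x = 0
      · rw [hl i (Finset.mem_union_right _ (Finset.mem_filter.2 ⟨hi, h3⟩)), sign_mul, sign_pos ht0,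
          one_mul]
        cases τ i <;> simp
      · rw [hy i h3, h1 i fun h4 => h3 ((sv_eq_zero hi).1 h4), sv_of_mem hi]
    · rw [sv_of_notMem hi, h2 i hi]

theorem CLift_conv (H : Finset ι) (i : ι) (s : SignType) : Convex ℝ {x | c.sv H x i = s} := by
  by_cases hi : i ∈ H
  · simp only [sv_of_mem hi]
    exact ((ordConnected_singleton (a := s)).preimage_mono
      SignType.sign.monotone).convex.affine_preimage (c.g i)
  · simp only [sv_of_notMem hi]
    exact fun _ hx _ _ _ _ _ _ _ => hx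

theorem CLift_out (hx : x ∈ c.Lam (F ∪ J)) (i : ι) (hi : i ∉ H \ J) : c.sv H x i = 0 := by
  by_cases h : i ∈ H
  · by_contra h'
    exact hi (Finset.mem_sdiff.2 ⟨h, fun hJ =>
      h' ((sv_eq_zero h).2 (hx i (Finset.mem_union_right _ hJ)))⟩)
  · exact sv_of_notMem h x

theorem CLift_mem (h : Disjoint F H) (hJ : J ⊆ H) {Ω : Set E} (ho : Ω ∈ 𝓝 x)
    (hx : x ∈ c.Lam (F ∪ J)) {τ : ι → SignType} (h1 : ∀ i, c.sv H x i ≠ 0 → τ i = c.sv H x i)
    (h2 : ∀ i ∉ H \ J, τ i = 0) : τ ∈ c.Rz F H J Ω := by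
  obtain ⟨y, ⟨hy, e⟩, hΩ⟩ := ((lift h (Lam_mono Finset.subset_union_left hx) h1 fun i hi =>
    h2 i fun h' => hi (Finset.mem_sdiff.1 h').1).and_eventually ho).exists
  refine ⟨y, hΩ, fun i hi => ?_, e⟩
  rcases Finset.mem_union.1 hi with hi | hi
  · exact hy i hi
  · refine (sv_eq_zero (hJ hi)).1 ?_
    rw [e]
    exact h2 i fun h' => (Finset.mem_sdiff.1 h').2 hi

theorem convex_face (F H : Finset ι) (σ : ι → SignType) :
    Convex ℝ {x | x ∈ c.Lam F ∧ c.sv H x = σ} := by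
  have h : {x | x ∈ c.Lam F ∧ c.sv H x = σ} = c.Lam F ∩ ⋂ i, {x | c.sv H x i = σ i} := by
    ext x
    simp [funext_iff]
  rw [h]
  exact (convex_Lam F).inter (convex_iInter fun i => CLift_conv H i (σ i))

theorem sys (h : Disjoint F H) (hJ : J ⊆ H) {Ω : Set E} (ho : IsOpen Ω) (hc : Convex ℝ Ω) :
    Sys (c.Rz F H J Ω) (H \ J) := by
  refine ⟨?_, ?_, ?_⟩
  · rintro _ ⟨x, -, hx, rfl⟩
    exact CLift_out hx
  · rintro _ ⟨x, hΩ, hx, rfl⟩ a ha h0 s
    refine CLift_mem h hJ (ho.mem_nhds hΩ) hx (fun i hi => ?_) fun i hi => ?_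
    · exact Function.update_of_ne (fun e : i = a => hi (e ▸ h0)) _ _
    · rw [Function.update_of_ne (fun e : i = a => hi (e ▸ ha))]
      exact CLift_out hx i hi
  · rintro _ ⟨x, hΩ, hx, rfl⟩ _ ⟨y, hΩ', hy, rfl⟩ a h1 h2
    have ha : a ∈ H := by
      by_contra h'
      rw [sv_of_notMem h'] at h1
      exact zero_ne_one h1
    rw [sv_of_mem ha, sign_eq_one_iff] at h1
    rw [sv_of_mem ha, sign_eq_neg_one_iff] at h2
    have h3 : Convex ℝ ((Ω ∩ c.Lam (F ∪ J)) ∩
        ⋂ i, ⋂ _ : c.sv H x i = c.sv H y i, {z | c.sv H z i = c.sv H x i}) :=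
      (hc.inter (convex_Lam _)).inter (convex_iInter₂ fun i _ => CLift_conv H i _)
    obtain ⟨z, hz, h4⟩ := h3.isPreconnected.intermediate_value (a := y) (b := x)
      ⟨⟨hΩ', hy⟩, mem_iInter₂.2 fun _ e => e.symm⟩ ⟨⟨hΩ, hx⟩, mem_iInter₂.2 fun _ _ => rfl⟩
      (aff_cont (c.g a)).continuousOn ⟨h2.le, h1.le⟩
    exact ⟨_, ⟨z, hz.1.1, hz.1.2, rfl⟩, (sv_eq_zero ha).2 h4, mem_iInter₂.1 hz.2⟩

theorem chm_mem (h : Disjoint F H) (hJ : J ⊆ H) {Ω : Set E} (ho : Ω ∈ 𝓝 x)
    (hx : x ∈ c.Lam (F ∪ J)) : chm (H \ J) (c.sv H x) ∈ c.Rz F H J Ω :=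
  CLift_mem h hJ ho hx (fun _ hi => if_neg fun h' => hi h'.2)
    fun i hi => (if_neg fun h' => hi h'.1).trans (CLift_out hx i hi)

theorem val_const (h : Disjoint F H) (hJ : J ⊆ H) {k : ι → (ι → SignType) → ZMod 2}
    {χ : (ι → SignType) → ZMod 2} (hχ : Jump (c.Rz F H J univ) (H \ J) k χ) {D : Set E}
    (hD : IsPreconnected D) (hs : D ⊆ c.Lam (F ∪ J))
    (h0 : ∀ x ∈ D, ∀ᶠ y in 𝓝 x, y ∈ c.Lam (F ∪ J) →
      ∀ i, Fac (H \ J) i (c.sv H y) → k i (c.sv H y) = 0) (hx : x ∈ D) (hx' : x' ∈ D) :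
    χ (chm (H \ J) (c.sv H x)) = χ (chm (H \ J) (c.sv H x')) := by
  refine hD.constant (f := fun x => χ (chm (H \ J) (c.sv H x))) (fun v hv => ?_) hx hx'
  obtain ⟨ε, hε, hb⟩ := Metric.mem_nhds_iff.1 (h0 v hv)
  have h1 : Jump (c.Rz F H J (Metric.ball v ε)) (H \ J) (fun _ _ => 0) χ := by
    rintro i _ ⟨y, hy, hy', rfl⟩ hf
    exact (hχ i _ ⟨y, mem_univ y, hy', rfl⟩ hf).trans (hb hy hy' i hf)
  have h3 : ∀ y ∈ D, y ∈ Metric.ball v ε →
      χ (chm (H \ J) (c.sv H y)) = χ (chm (H \ J) (c.sv H v)) := fun y hy hy' =>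
    (sys h hJ Metric.isOpen_ball (convex_ball v ε)).conn h1
      (chm_mem h hJ (Metric.isOpen_ball.mem_nhds hy') (hs hy))
      (chm_mem h hJ (Metric.ball_mem_nhds v hε) (hs hv)) (cham_chm _ _) (cham_chm _ _)
  refine (continuousWithinAt_const (b := χ (chm (H \ J) (c.sv H v)))).congr_of_eventuallyEq ?_ rfl
  filter_upwards [self_mem_nhdsWithin, nhdsWithin_le_nhds (Metric.ball_mem_nhds v hε)] with y hy hy'
  exact h3 y hy hy'

theorem lam_fac {y : E} {h : ι} (hy : y ∈ c.Lam (F ∪ J)) (hh : h ∈ H) (h0 : c.sv H y h = 0) :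
    y ∈ c.Lam (F ∪ insert h J) := by
  rw [Finset.union_insert]
  exact Lam_insert hy ((sv_eq_zero hh).1 h0)

theorem fac_cham {h : ι} {σ : ι → SignType} (hf : Fac (H \ J) h σ) : Cham (H \ insert h J) σ :=
  fun j hj => by
    rw [Finset.mem_sdiff, Finset.mem_insert, not_or] at hj
    exact hf.2.2 j (Finset.mem_sdiff.2 ⟨hj.1, hj.2.2⟩) hj.2.1

variable (c) in
/-- The data of the counting lemma. -/
structure MV where
  P : ι → Set E
  W : Set E
  F : Finset ι
  R : Finset ι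
  hP : ∀ a, ∀ x ∈ P a, c.g a x = 0
  cl : ∀ a, IsClosed (P a)
  op : IsOpen W
  dj : Disjoint F R

namespace MV

variable (M : c.MV)

/-- The free part of the flat. -/
def X : Set E := {x | x ∈ c.Lam M.F ∩ M.W ∧ ∀ a ∈ M.R, x ∉ M.P a}

/-- `σ` is a chamber of the flat of `F ∪ J` at `y`. -/
def Cp (J : Finset ι) (y : E) (σ : ι → SignType) : Prop :=
  (∀ i, c.sv M.R y i ≠ 0 → σ i = c.sv M.R y i) ∧ (∀ i ∉ M.R \ J, σ i = 0) ∧ Cham (M.R \ J) σ

theorem ex_pt (y : E) (τ : ι → SignType) : ∃ w, y ∈ M.W → Cham M.R τ →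
    ∀ᶠ u in 𝓝 y, u ∈ c.Lam M.F → c.sv M.R u = τ → u ∈ cc M.X w := by
  by_cases hy : y ∈ M.W
  swap
  · exact ⟨y, fun h => absurd h hy⟩
  obtain ⟨ε, hε, hb⟩ := Metric.isOpen_iff.1 M.op y hy
  by_cases h : ∃ w, w ∈ Metric.ball y ε ∩ {x | x ∈ c.Lam M.F ∧ c.sv M.R x = τ}
  · obtain ⟨w, hw⟩ := h
    refine ⟨w, fun _ hτ => ?_⟩
    filter_upwards [Metric.ball_mem_nhds y hε] with u a1 a2 a3
    refine ((convex_ball y ε).inter (convex_face M.F M.R τ)).isPreconnected.subset_connectedComponentIn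
      hw ?_ ⟨a1, a2, a3⟩
    intro v hv
    refine ⟨⟨hv.2.1, hb hv.1⟩, fun a ha h' => hτ a ha ?_⟩
    rw [← hv.2.2]
    exact (sv_eq_zero ha).2 (M.hP a v h')
  · refine ⟨y, fun _ _ => ?_⟩
    filter_upwards [Metric.ball_mem_nhds y hε] with u a1 a2 a3
    exact absurd ⟨u, a1, a2, a3⟩ h

/-- A point in the chamber `τ` at `y`. -/
noncomputable def pt (y : E) (τ : ι → SignType) : E := (M.ex_pt y τ).choose

variable {M} {y : E} {σ τ : ι → SignType} {f : E → ZMod 2}

theorem near (hy : y ∈ c.Lam M.F ∩ M.W) (h : M.Cp ∅ y τ) :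
    ∃ᶠ u in 𝓝 y, (u ∈ c.Lam M.F ∧ c.sv M.R u = τ) ∧ u ∈ cc M.X (M.pt y τ) := by
  obtain ⟨h1, h2, h3⟩ := h
  rw [Finset.sdiff_empty] at h2 h3
  exact ((lift M.dj hy.1 h1 h2).and_eventually ((M.ex_pt y τ).choose_spec hy.2 h3)).mono
    fun u hu => ⟨hu.1, hu.2 hu.1.1 hu.1.2⟩

theorem loc (hf : ∀ x, ∀ x' ∈ cc M.X x, f x' = f x) (hy : y ∈ M.W) :
    ∀ᶠ y' in 𝓝 y, y' ∈ c.Lam M.F → ∀ τ, M.Cp ∅ y' τ → f (M.pt y' τ) = f (M.pt y τ) := by
  have h1 : ∀ᶠ u in 𝓝 y, ∀ τ, Cham M.R τ → u ∈ c.Lam M.F → c.sv M.R u = τ →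
      u ∈ cc M.X (M.pt y τ) :=
    eventually_all.2 fun τ => eventually_imp_distrib_left.2 ((M.ex_pt y τ).choose_spec hy)
  filter_upwards [h1.eventually_nhds, M.op.mem_nhds hy] with y' a1 a2 a3 τ a4
  obtain ⟨u, ⟨⟨b1, b2⟩, b3⟩, b4⟩ := ((near ⟨a3, a2⟩ a4).and_eventually a1).exists
  rw [← hf _ _ b3, ← hf _ _ (b4 τ (Finset.sdiff_empty (s := M.R) ▸ a4.2.2) b1 b2)]

theorem cp_asg (hJ : J ⊆ M.R) (hy : y ∈ c.Lam (M.F ∪ J)) (h : M.Cp J y σ) {J₁ : Finset ι}
    (h1 : J₁ ⊆ J) : M.Cp ∅ y (asg J J₁ σ) := by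
  refine ⟨fun i hi => ?_, fun i hi => ?_, fun i hi => ?_⟩
  · rw [asg_out h1 σ fun e => hi (CLift_out hy i fun e' => (Finset.mem_sdiff.1 e').2 e)]
    exact h.1 i hi
  · rw [Finset.sdiff_empty] at hi
    rw [asg_out h1 σ fun e => hi (hJ e)]
    exact h.2.1 i fun e => hi (Finset.mem_sdiff.1 e).1
  · by_cases e : i ∈ J
    · exact asg_in σ e
    · rw [asg_out h1 σ e]
      exact h.2.2 i (Finset.mem_sdiff.2 ⟨(Finset.mem_sdiff.1 hi).1, e⟩)

theorem cp_update {a : ι} (ha : a ∈ M.R) (haJ : a ∉ J) (h0 : c.g a y = 0)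
    (h : M.Cp (insert a J) y σ) {s : SignType} (hs : s ≠ 0) : M.Cp J y (update σ a s) := by
  refine ⟨fun i hi => ?_, fun i hi => ?_, fun i hi => ?_⟩
  · rw [update_of_ne fun e => hi (by rw [e]; exact (sv_eq_zero ha).2 h0)]
    exact h.1 i hi
  · rw [update_of_ne fun e => hi (by rw [e]; exact Finset.mem_sdiff.2 ⟨ha, haJ⟩)]
    exact h.2.1 i fun e => hi (Finset.sdiff_subset_sdiff subset_rfl (Finset.subset_insert _ _) e)
  · by_cases e : i = a
    · rwa [e, update_self]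
    · rw [update_of_ne e]
      refine h.2.2 i ?_
      simp only [Finset.mem_sdiff, Finset.mem_insert, not_or] at hi ⊢
      exact ⟨hi.1, e, hi.2⟩

theorem flip (hf : ∀ x, ∀ x' ∈ cc M.X x, f x' = f x) (hy : y ∈ c.Lam M.F ∩ M.W) {a : ι}
    (h1 : y ∉ M.P a) (t1 : M.Cp ∅ y (update τ a 1)) (t2 : M.Cp ∅ y (update τ a (-1))) :
    f (M.pt y (update τ a 1)) = f (M.pt y (update τ a (-1))) := by
  obtain ⟨ε, hε, hb⟩ := Metric.isOpen_iff.1 (M.op.inter (M.cl a).isOpen_compl) y ⟨hy.2, h1⟩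
  obtain ⟨u₁, ⟨⟨l1, s1⟩, c1⟩, b1⟩ := ((near hy t1).and_eventually (Metric.ball_mem_nhds y hε)).exists
  obtain ⟨u₂, ⟨⟨l2, s2⟩, c2⟩, b2⟩ := ((near hy t2).and_eventually (Metric.ball_mem_nhds y hε)).exists
  rw [← hf _ _ c1, ← hf _ _ c2]
  refine (hf _ _ (((convex_ball y ε).inter (convex_face M.F (M.R.erase a)
    (c.sv (M.R.erase a) u₁))).isPreconnected.subset_connectedComponentIn ⟨b1, l1, rfl⟩ ?_
    ⟨b2, l2, funext fun i => ?_⟩)).symm
  · intro w hw
    refine ⟨⟨hw.2.1, (hb hw.1).1⟩, fun i hi h' => ?_⟩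
    by_cases e : i = a
    · exact (hb hw.1).2 (e ▸ h')
    · have h3 : i ∈ M.R.erase a := Finset.mem_erase.2 ⟨e, hi⟩
      refine t1.2.2 i (Finset.mem_sdiff.2 ⟨hi, Finset.notMem_empty _⟩) ?_
      rw [← s1, sv_eq_zero hi, ← sv_eq_zero h3, ← hw.2.2, sv_eq_zero h3]
      exact M.hP i w h'
  · by_cases hi : i ∈ M.R.erase a
    · have h3 := Finset.mem_erase.1 hi
      rw [sv_of_mem hi, sv_of_mem hi, ← sv_of_mem h3.2, ← sv_of_mem h3.2, s1, s2,
        update_of_ne h3.1, update_of_ne h3.1]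
    · rw [sv_of_notMem hi, sv_of_notMem hi]

theorem cancel (hf : ∀ x, ∀ x' ∈ cc M.X x, f x' = f x) (hJ : J ⊆ M.R)
    (hy : y ∈ c.Lam (M.F ∪ J) ∩ M.W) {a : ι} (ha : a ∈ J) (h1 : y ∉ M.P a) (h : M.Cp J y σ) :
    cor (fun τ => f (M.pt y τ)) J σ = 0 := by
  have h2 := Finset.notMem_erase a J
  have h3 : y ∈ c.Lam (M.F ∪ J.erase a) :=
    Lam_mono (Finset.union_subset_union_right (J.erase_subset a)) hy.1
  rw [← Finset.insert_erase ha] at h
  have h4 := fun (s : SignType) (hs : s ≠ 0) (J₁ : Finset ι) (b : J₁ ⊆ J.erase a) =>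
    cp_asg ((J.erase_subset a).trans hJ) h3
      (cp_update (hJ ha) h2 (hy.1 a (Finset.mem_union_right _ ha)) h hs) b
  rw [← Finset.insert_erase ha, cor_insert _ h2, CharTwo.add_eq_zero]
  refine Finset.sum_congr rfl fun J₁ b => ?_
  replace b := Finset.mem_powerset.1 b
  have h5 := h4 1 (by decide) J₁ b
  have h6 := h4 (-1) (by decide) J₁ b
  rw [asg_update b h2] at h5 h6
  rw [asg_update b h2, asg_update b h2]
  exact flip hf ⟨Lam_mono Finset.subset_union_left hy.1, hy.2⟩ h1 h5 h6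

variable (M) in
/-- The value at `y`. -/
noncomputable def val (f : E → ZMod 2) (J : Finset ι) (y : E) : ZMod 2 :=
  cor (fun τ => f (M.pt y τ)) J (chm (M.R \ J) (c.sv M.R y))

variable (M) in
/-- All corner sums vanish. -/
def Van (f : E → ZMod 2) (J : Finset ι) : Prop :=
  ∀ y ∈ c.Lam (M.F ∪ J) ∩ M.W, ∀ σ, M.Cp J y σ → cor (fun τ => f (M.pt y τ)) J σ = 0

theorem cp_chm (hy : y ∈ c.Lam (M.F ∪ J)) : M.Cp J y (chm (M.R \ J) (c.sv M.R y)) :=
  ⟨fun _ hi => if_neg fun h' => hi h'.2,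
    fun i hi => (if_neg fun h' => hi h'.1).trans (CLift_out hy i hi), cham_chm _ _⟩

theorem step (hf : ∀ x, ∀ x' ∈ cc M.X x, f x' = f x) (hJ : J ⊆ M.R)
    (ih : ∀ a ∈ M.R, a ∉ J → M.Van f (insert a J))
    (h : ∀ y ∈ c.Lam (M.F ∪ J) ∩ M.W, ∃ z, y ∈ cc (c.Lam (M.F ∪ J) ∩ M.W) z ∧ M.val f J z = 0) :
    M.Van f J := by
  have A : ∀ v ∈ c.Lam (M.F ∪ J) ∩ M.W, ∀ σ, M.Cp J v σ →
      cor (fun τ => f (M.pt v τ)) J σ = M.val f J v := fun v hv σ hσ => by
    obtain ⟨ε, hε, hb⟩ := Metric.mem_nhds_iff.1 (c.sv_near M.R v)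
    refine (sys M.dj hJ Metric.isOpen_ball (convex_ball v ε)).conn ?_
      (CLift_mem M.dj hJ (Metric.ball_mem_nhds v hε) hv.1 hσ.1 hσ.2.1)
      (chm_mem M.dj hJ (Metric.ball_mem_nhds v hε) hv.1) hσ.2.2 (cham_chm _ _)
    rintro i _ ⟨y, hy, hy', rfl⟩ hi
    obtain ⟨a1, a2⟩ := Finset.mem_sdiff.1 hi.1
    rw [← cor_insert _ a2]
    refine ih i a1 a2 v ⟨lam_fac hv.1 a1 ?_, hv.2⟩ _
      ⟨hb hy, CLift_out (lam_fac hy' a1 hi.2.1), fac_cham hi⟩
    by_contra e
    exact e ((hb hy i e).symm.trans hi.2.1)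
  intro y hy σ hσ
  obtain ⟨z, a1, a2⟩ := h y hy
  rw [A y hy σ hσ, ← a2]
  have hs := connectedComponentIn_subset (c.Lam (M.F ∪ J) ∩ M.W) z
  refine isPreconnected_connectedComponentIn.constant (f := M.val f J) (fun v hv => ?_) a1
    (mem_connectedComponentIn (cc_base a1))
  refine (continuousWithinAt_const (b := M.val f J v)).congr_of_eventuallyEq ?_ rfl
  filter_upwards [self_mem_nhdsWithin, nhdsWithin_le_nhds (loc hf (hs hv).2),
    nhdsWithin_le_nhds (c.sv_near M.R v)] with u b1 b2 b3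
  have b4 := cp_chm (hs b1).1
  rw [← A v (hs hv) _ ⟨fun i hi => (b4.1 i (by rwa [b3 i hi])).trans (b3 i hi), b4.2⟩]
  exact Finset.sum_congr rfl fun J₁ e => b2 (Lam_mono Finset.subset_union_left (hs b1).1) _
    (cp_asg hJ (hs b1).1 b4 (Finset.mem_powerset.1 e))

theorem cc_near (hx : x ∈ M.X) : ∀ᶠ y in 𝓝 x, y ∈ c.Lam M.F → y ∈ cc M.X x := by
  have h1 : ∀ᶠ y in 𝓝 x, ∀ a ∈ M.R, y ∉ M.P a :=
    (eventually_all_finset M.R).2 fun a ha => (M.cl a).isOpen_compl.mem_nhds (hx.2 a ha)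
  obtain ⟨ε, hε, h2⟩ := Metric.eventually_nhds_iff_ball.1 (h1.and (M.op.mem_nhds hx.1.2))
  filter_upwards [Metric.ball_mem_nhds x hε] with y hy hL
  have h3 : Metric.ball x ε ∩ c.Lam M.F ⊆ M.X := fun w hw => ⟨⟨hw.2, (h2 w hw.1).2⟩, (h2 w hw.1).1⟩
  exact ((convex_ball x ε).inter (convex_Lam M.F)).isPreconnected.subset_connectedComponentIn
    ⟨Metric.mem_ball_self hε, hx.1.1⟩ h3 ⟨hy, hL⟩

variable (M) in
theorem mv {β : ℕ} (hβ : ∀ J ⊆ M.R, Few (c.Lam (M.F ∪ J) ∩ M.W) β) (T : Finset E)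
    (h1 : ∀ x ∈ T, x ∈ M.X) (h2 : ∀ x ∈ T, ∀ y ∈ T, y ∈ cc M.X x → x = y) (V : Finset (Finset ι))
    (hV : ∀ J ⊆ M.R, M.F.card + J.card = c.d → ∀ v ∈ c.Lam (M.F ∪ J) ∩ M.W, (∀ a ∈ J, v ∈ M.P a) →
      ∀ x ∈ T, v ∈ closure (cc M.X x) → J ∈ V) :
    T.card ≤ (low M.R (c.d - M.F.card)).card * β + V.card := by
  classical
  let f : (T → ZMod 2) → E → ZMod 2 := fun S u => ∑ x : T, if u ∈ cc M.X x then S x else 0
  have hf : ∀ S x, ∀ x' ∈ cc M.X x, f S x' = f S x := fun S x x' h =>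
    Finset.sum_congr rfl fun t _ => if_congr ⟨fun e => cc_trans e (cc_symm h), fun e => cc_trans e h⟩
      rfl rfl
  choose z hz using fun J : low M.R (c.d - M.F.card) => (hβ J.1 (mem_low.1 J.2).1).reps
  let v : Finset ι → E := fun J => Classical.epsilon (· ∈ c.Lam (M.F ∪ J))
  let ix : (low M.R (c.d - M.F.card) × Fin β) ⊕ V → Finset ι × E :=
    Sum.elim (fun p => (p.1.1, z p.1 p.2)) fun J => (J.1, v J.1)
  let o : (T → ZMod 2) →+ ((low M.R (c.d - M.F.card) × Fin β) ⊕ V → ZMod 2) :=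
    AddMonoidHom.mk' (fun S k => M.val (f S) (ix k).1 (ix k).2) fun S S' => funext fun k => by
      simp only [val, cor, f, Pi.add_apply, ← Finset.sum_add_distrib]
      refine Finset.sum_congr rfl fun _ _ => Finset.sum_congr rfl fun _ _ => ?_
      split_ifs <;> simp
  have key : ∀ S, o S = 0 → S = 0 := fun S h0 => by
    have a1 : ∀ m, ∀ J ⊆ M.R, c.d ≤ M.F.card + J.card + m → M.Van (f S) J := by
      intro m
      induction m with
      | zero =>
        intro J hJ hc y hy σ hσ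
        have b1 := Finset.card_union_of_disjoint (M.dj.mono_right hJ)
        have b2 := card_le hy.1
        by_cases b3 : ∀ a ∈ J, y ∈ M.P a
        swap
        · push Not at b3
          obtain ⟨a, b4, b5⟩ := b3
          exact cancel (hf S) hJ hy b4 b5 hσ
        by_cases b4 : ∃ x ∈ T, y ∈ closure (cc M.X x)
        · obtain ⟨x, b5, b6⟩ := b4
          have b7 : v J = y := uniq (Classical.epsilon_spec ⟨y, hy.1⟩) (by omega) hy.1
          have b8 : M.val (f S) J (v J) = 0 :=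
            congrFun h0 (Sum.inr ⟨J, hV J hJ (by omega) y hy b3 x b5 b6⟩)
          have b9 : ∀ τ, M.Cp J y τ → τ = c.sv M.R y := fun τ hτ => funext fun i => by
            by_cases hi : i ∈ M.R \ J
            · obtain ⟨e1, e2⟩ := Finset.mem_sdiff.1 hi
              exact hτ.1 i fun e => ne_of_full hy.1 (by omega) (fun e' => (Finset.mem_union.1 e').elim
                (fun e'' => Finset.disjoint_left.1 M.dj e'' e1) e2) ((sv_eq_zero e1).1 e)
            · rw [hτ.2.1 i hi, CLift_out hy.1 i hi]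
          rw [b7, val, b9 _ (cp_chm hy.1)] at b8
          rwa [b9 σ hσ]
        · push Not at b4
          refine Finset.sum_eq_zero fun J₁ e => ?_
          have b5 : ∀ᶠ u in 𝓝 y, ∀ x ∈ T, u ∉ cc M.X x := (eventually_all_finset T).2 fun x hx =>
            mem_of_superset (isClosed_closure.isOpen_compl.mem_nhds (b4 x hx))
              fun u hu e => hu (subset_closure e)
          obtain ⟨u, ⟨-, b6⟩, b7⟩ := ((near ⟨Lam_mono Finset.subset_union_left hy.1, hy.2⟩
            (cp_asg hJ hy.1 hσ (Finset.mem_powerset.1 e))).and_eventually b5).exists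
          exact (hf S _ _ b6).symm.trans (Finset.sum_eq_zero fun x _ => if_neg (b7 x.1 x.2))
      | succ m ih =>
        intro J hJ hc
        by_cases b1 : c.d ≤ M.F.card + J.card + m
        · exact ih J hJ b1
        refine step (hf S) hJ (fun a ha ha' => ih _ (Finset.insert_subset ha hJ) (by
          rw [Finset.card_insert_of_notMem ha']
          omega)) fun y hy => ?_
        obtain ⟨k, hk⟩ := hz ⟨J, mem_low.2 ⟨hJ, by omega⟩⟩ y hy
        exact ⟨_, hk, congrFun h0 (Sum.inl (⟨J, mem_low.2 ⟨hJ, by omega⟩⟩, k))⟩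
    funext x
    have a2 : x.1 ∈ c.Lam (M.F ∪ ∅) := by
      rw [Finset.union_empty]
      exact (h1 x x.2).1.1
    have a3 := a1 c.d ∅ (Finset.empty_subset _) (by omega) x ⟨a2, (h1 x x.2).1.2⟩ _ (cp_chm a2)
    obtain ⟨u, ⟨⟨b1, -⟩, b2⟩, b3⟩ :=
      ((near (h1 x x.2).1 (cp_chm a2)).and_eventually (cc_near (h1 x x.2))).exists
    rw [cor_empty, ← hf S _ _ b2, hf S _ _ (b3 b1)] at a3
    rw [Pi.zero_apply, ← a3]
    change S x = ∑ t : T, if x.1 ∈ cc M.X t then S t else 0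
    rw [Finset.sum_eq_single x (fun t _ ht => if_neg fun e => ht (Subtype.ext (h2 t t.2 x x.2 e)))
      fun h => absurd (Finset.mem_univ x) h, if_pos (mem_connectedComponentIn (h1 x x.2))]
  have h3 := count_ker (γ := Empty) o (fun _ _ => 0) fun S S' a b _ => (key S a).trans (key S' b).symm
  simpa using h3

end MV

end Hy

end FP
end

-- merged part: Pool.Agent.Work.MP_8a5de9_co.Fl.Ctx
section
/-!
# Patches in hyperplanes: local structure, good sides, slides, and the recurrence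
-/

open Set Filter Topology Metric SA Function

namespace FP

set_option linter.unusedSectionVars false
set_option linter.unusedVariables false

variable {E ι : Type} [NormedAddCommGroup E] [NormedSpace ℝ E]

/-- All the data. -/
structure Ctx (E ι : Type) [NormedAddCommGroup E] [NormedSpace ℝ E] extends Hy E ι where
  z : E →ₗ[ℝ] ℝ
  p : E
  P : ι → Set E
  O : ι → Set E
  β : ℕ
  d3 : 3 ≤ d
  cl : ∀ i, IsClosed (P i)
  op : ∀ i, IsOpen (O i)
  Pz : ∀ {i x}, x ∈ P i → g i x = 0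
  rs : ∀ {i x}, g i x = 0 → x ∈ O i → x ∈ P i
  vo : ∀ (D : Finset ι) x, D.card = d → (∀ i ∈ D, x ∈ P i) → ∀ i ∈ D, x ∈ O i
  zgen : ∀ A x, x ∈ toHy.Lam A → A.card < d → ∃ u, z u = 1 ∧ ∀ j ∈ A, (g j).linear u = 0
  zinj : ∀ A A' x x', x ∈ toHy.Lam A → x' ∈ toHy.Lam A' → A.card = d → A'.card = d →
    z x = z x' → x = x'
  b1 : ∀ Z, Few (toHy.Lam Z \ {x | ∀ i ∈ Z, x ∈ P i}) β
  b2 : ∀ Z F, F ⊆ Z → Few (toHy.Lam Z ∩ {x | ∀ i ∈ F, x ∈ O i}) β

/-- The same arrangement upside down. -/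
def Ctx.neg (c : Ctx E ι) : Ctx E ι :=
  { c with
    z := -c.z
    zgen := fun A x h hc => by
      obtain ⟨u, hu, h'⟩ := c.zgen A x h hc
      exact ⟨-u, by simp [hu], fun j hj => by simp [h' j hj]⟩
    zinj := fun A A' x x' h h' hc hc' e => c.zinj A A' x x' h h' hc hc' (by simpa using e) }

variable [FiniteDimensional ℝ E] [Fintype ι] [DecidableEq ι]

namespace Ctx

open Hy

section

variable (c : Ctx E ι) {A : Finset ι} {x : E}

theorem z_cont : Continuous c.z := c.z.continuous_of_finiteDimensional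

theorem solvez (h : x ∈ c.Lam A) (hc : A.card < c.d) (r : ι → ℝ) (r₀ : ℝ) :
    ∃ e, c.z e = r₀ ∧ ∀ j ∈ A, (c.g j).linear e = r j := by
  obtain ⟨e, he⟩ := solve h r
  obtain ⟨u, hu, h0⟩ := c.zgen A x h hc
  refine ⟨e + (r₀ - c.z e) • u, ?_, fun j hj => ?_⟩
  · rw [map_add, map_smul, hu, smul_eq_mul]
    ring
  · rw [map_add, map_smul, h0 j hj, smul_zero, add_zero, he j hj]

theorem rankz (h : x ∈ c.Lam A) (hc : A.card < c.d) :
    A.card + 1 + Module.finrank ℝ (LinearMap.ker (c.lin A) ⊓ LinearMap.ker c.z : Submodule ℝ E)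
      = c.d := by
  have h1 : LinearMap.range ((c.lin A).prod c.z) = ⊤ := by
    refine LinearMap.range_eq_top.2 fun q => ?_
    obtain ⟨e, h2, h3⟩ := c.solvez h hc (fun j => if hj : j ∈ A then q.1 ⟨j, hj⟩ else 0) q.2
    refine ⟨e, Prod.ext (funext fun j => ?_) h2⟩
    have := h3 j.1 j.2
    rw [dif_pos j.2] at this
    exact this
  rw [← LinearMap.ker_prod, ← c.dim,
    ← LinearMap.finrank_range_add_finrank_ker ((c.lin A).prod c.z), h1, finrank_top,
    Module.finrank_prod, Module.finrank_fintype_fun_eq_card, Fintype.card_coe, Module.finrank_self]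

theorem kerz (h : x ∈ c.Lam A) (hc : A.card + 1 = c.d) {e : E}
    (he : ∀ j ∈ A, (c.g j).linear e = 0) (hz : c.z e = 0) : e = 0 := by
  have h1 := c.rankz h (by omega)
  have h2 : LinearMap.ker (c.lin A) ⊓ LinearMap.ker c.z = ⊥ :=
    Submodule.finrank_eq_zero.1 (by omega)
  exact (Submodule.eq_bot_iff _).1 h2 e ⟨lin_mem.2 he, hz⟩

/-- The horizontal directions of a two-dimensional flat form a line. -/
theorem ker2 (h : x ∈ c.Lam A) (hc : A.card + 2 = c.d) :
    ∃ b, b ≠ 0 ∧ c.z b = 0 ∧ (∀ j ∈ A, (c.g j).linear b = 0) ∧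
      ∀ b' : E, b' ≠ 0 → c.z b' = 0 → (∀ j ∈ A, (c.g j).linear b' = 0) →
        ∀ e, c.z e = 0 → (∀ j ∈ A, (c.g j).linear e = 0) → ∃ s : ℝ, e = s • b' := by
  have h1 := c.rankz h (by omega)
  have h2 : Module.finrank ℝ (LinearMap.ker (c.lin A) ⊓ LinearMap.ker c.z : Submodule ℝ E)
      = 1 := by omega
  obtain ⟨b, hb, hb0⟩ := (Submodule.ne_bot_iff
    (LinearMap.ker (c.lin A) ⊓ LinearMap.ker c.z)).1 (fun h0 => by
      rw [h0, finrank_bot] at h2
      omega)
  refine ⟨b, hb0, hb.2, lin_mem.1 hb.1, fun b' h0 h3 h4 e h5 h6 => ?_⟩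
  obtain ⟨s, hs⟩ := (finrank_eq_one_iff_of_nonzero'
    (⟨b', lin_mem.2 h4, h3⟩ : (LinearMap.ker (c.lin A) ⊓ LinearMap.ker c.z : Submodule ℝ E))
    (fun e => h0 (congrArg Subtype.val e))).1 h2 ⟨e, lin_mem.2 h6, h5⟩
  exact ⟨s, (congrArg Subtype.val hs).symm⟩

variable {c}

theorem line_ext (h : x ∈ c.Lam A) (hc : A.card + 1 = c.d) {y : E} (hy : y ∈ c.Lam A)
    (e : c.z x = c.z y) : x = y :=
  sub_eq_zero.1 (c.kerz h hc (fun j hj => by rw [aff_lin, h j hj, hy j hj, sub_self])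
    (by rw [map_sub, e, sub_self]))

/-- A connected part of a line contains all points at intermediate heights. -/
theorem line_mem (hc : A.card + 1 = c.d) {γ : Set E} (hγ : IsPreconnected γ) (hs : γ ⊆ c.Lam A)
    {a b : E} (ha : a ∈ γ) (hb : b ∈ γ) (hx : x ∈ c.Lam A) (h : c.z x ∈ uIcc (c.z a) (c.z b)) :
    x ∈ γ := by
  obtain ⟨w, hw, e⟩ := (hγ.image c.z c.z_cont.continuousOn).ordConnected.uIcc_subset
    (mem_image_of_mem _ ha) (mem_image_of_mem _ hb) h
  exact line_ext (hs hw) hc hx e ▸ hw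

end

end Ctx

/-- The support of a sign pattern. -/
def supp {J : Type} [Fintype J] (s : J → SignType) : Finset J := Finset.univ.filter (s · ≠ 0)

@[simp] theorem mem_supp {J : Type} [Fintype J] {s : J → SignType} {i : J} :
    i ∈ supp s ↔ s i ≠ 0 := by simp [supp]

/-- There are at most `3 ^ |A|` sign patterns supported in `A`. -/
theorem card_supp_le {J : Type} [Fintype J] [DecidableEq J] (A : Finset J) :
    (Finset.univ.filter fun s : J → SignType => supp s ⊆ A).card ≤ 3 ^ A.card := by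
  have h : (Finset.univ.filter fun s : J → SignType => supp s ⊆ A) ⊆
      Fintype.piFinset fun i => if i ∈ A then Finset.univ else {0} := fun s hs => by
    rw [Fintype.mem_piFinset]
    intro i
    split_ifs with hi
    · exact Finset.mem_univ _
    · by_contra h0
      exact hi ((Finset.mem_filter.1 hs).2 (mem_supp.2 (by simpa using h0)))
  refine (Finset.card_le_card h).trans (le_of_eq ?_)
  rw [Fintype.card_piFinset]
  have h3 : (Finset.univ : Finset SignType).card = 3 := rfl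
  simp only [apply_ite Finset.card, h3, Finset.card_singleton]
  rw [Finset.prod_ite_mem, Finset.univ_inter, Finset.prod_const]

/-- A candidate vertex with a sign pattern. -/
abbrev Tu (ι : Type) := Finset ι × (ι → SignType)

namespace Ctx

open Hy

variable (c : Ctx E ι)

/-- The relative interior of a patch. -/
def rel (i : ι) : Set E := {x | c.g i x = 0 ∧ x ∈ c.O i}

/-- The intersection of the patches of `F`. -/
def PF (F : Finset ι) : Set E := {x | ∀ i ∈ F, x ∈ c.P i}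

/-- The intersection of the open parts. -/
def OF (F : Finset ι) : Set E := {x | ∀ i ∈ F, x ∈ c.O i}

/-- The complement of the patches of `R`. -/
def U (R : Finset ι) : Set E := {x | ∀ i ∈ R, x ∉ c.P i}

/-- The marked cell of the subfamily `R`. -/
def C (R : Finset ι) : Set E := connectedComponentIn (c.U R) c.p

/-- `x` lies in the relative interior of the patches of `D` and on no other patch of `R`. -/
def On (R D : Finset ι) (x : E) : Prop :=
  D ⊆ R ∧ (∀ i ∈ D, x ∈ c.rel i) ∧ ∀ i ∈ R, i ∉ D → x ∉ c.P i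

/-- In the ball of radius `ρ` around `x` only the equations active at `x` matter. -/
def Loc (R : Finset ι) (x : E) (ρ : ℝ) : Prop :=
  0 < ρ ∧ ∀ y ∈ ball x ρ, ∀ i ∈ R, (x ∉ c.P i → y ∉ c.P i) ∧ (x ∈ c.O i → y ∈ c.O i)

/-- An open orthant. -/
def Orth (s : ι → SignType) : Set E := {y | ∀ i, s i ≠ 0 → SignType.sign (c.g i y) = s i}

/-- The side `s` of `x` belongs to the marked cell. -/
def Good (R : Finset ι) (x : E) (s : ι → SignType) : Prop :=
  ∀ᶠ y in 𝓝 x, y ∈ c.Orth s → y ∈ c.U R → y ∈ c.C R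

/-- The common point of the hyperplanes of `D`. -/
noncomputable def vtx (D : Finset ι) : E := Classical.epsilon fun x => ∀ i ∈ D, c.g i x = 0

/-- `D` defines an inner vertex. -/
def Inner (D : Finset ι) : Prop := D.card = c.d ∧ ∀ i ∈ D, c.vtx D ∈ c.rel i

open Classical in
/-- Inner vertices with a good side that has `k` sign conditions. -/
noncomputable def Tup (R : Finset ι) (k : ℕ) : Finset (Tu ι) :=
  Finset.univ.filter fun t => t.1 ⊆ R ∧ c.Inner t.1 ∧ supp t.2 ⊆ t.1 ∧ (supp t.2).card = k ∧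
    c.Good R (c.vtx t.1) t.2

/-- `e` is a direction of the edge number `i` of the side `t`. -/
def Edge (t : Tu ι) (i : ι) (e : E) : Prop :=
  (∀ j ∈ t.1, j ≠ i → (c.g j).linear e = 0) ∧ SignType.sign ((c.g i).linear e) = t.2 i

/-- The edge number `i` of the side `t` goes up. -/
def Up (t : Tu ι) (i : ι) : Prop := ∃ e, c.Edge t i e ∧ 0 < c.z e

/-- All edges go up or all edges go down. -/
def Ext (t : Tu ι) : Prop := (∀ i ∈ supp t.2, c.Up t i) ∨ ∀ i ∈ supp t.2, ¬ c.Up t i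

open Classical in
/-- Good sides with all edges up. -/
noncomputable def TUp (R : Finset ι) (k : ℕ) : Finset (Tu ι) :=
  (c.Tup R k).filter fun τ => ∀ i ∈ supp τ.2, c.Up τ i

open Classical in
/-- Good sides with all edges up or all edges down. -/
noncomputable def TExt (R : Finset ι) (k : ℕ) : Finset (Tu ι) := (c.Tup R k).filter c.Ext

variable {c} {R R' D : Finset ι} {x y y' : E} {ρ : ℝ} {s s' : ι → SignType} {t : Tu ι} {i : ι}
  {k : ℕ}

theorem mem_Tup : t ∈ c.Tup R k ↔ t.1 ⊆ R ∧ c.Inner t.1 ∧ supp t.2 ⊆ t.1 ∧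
    (supp t.2).card = k ∧ c.Good R (c.vtx t.1) t.2 := by simp [Tup]

theorem rel_sub (i : ι) : c.rel i ⊆ c.P i := fun _ h => c.rs h.1 h.2

theorem PF_sub (F : Finset ι) : c.PF F ⊆ c.Lam F := fun _ h i hi => c.Pz (h i hi)

theorem PF_mono (h : R ⊆ R') : c.PF R' ⊆ c.PF R := fun _ hx i hi => hx i (h hi)

theorem isClosed_PF (F : Finset ι) : IsClosed (c.PF F) := by
  have : c.PF F = ⋂ i ∈ F, c.P i := by ext x; simp [PF]
  rw [this]
  exact isClosed_biInter fun i _ => c.cl i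

theorem isOpen_OF (F : Finset ι) : IsOpen (c.OF F) := by
  have : c.OF F = ⋂ i ∈ F, c.O i := by ext x; simp [OF]
  rw [this]
  exact isOpen_biInter_finset fun i _ => c.op i

theorem vtx_eq (hD : D.card = c.d) (h : x ∈ c.Lam D) : c.vtx D = x :=
  uniq (Classical.epsilon_spec (p := fun x => ∀ i ∈ D, c.g i x = 0) ⟨x, h⟩) hD h

theorem Inner.lam (h : c.Inner D) : c.vtx D ∈ c.Lam D := fun i hi => (h.2 i hi).1

/-- No further hyperplane passes through an inner vertex. -/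
theorem Inner.ne (h : c.Inner D) (hi : i ∉ D) : c.g i (c.vtx D) ≠ 0 := ne_of_full h.lam h.1.ge hi

theorem Inner.on (h : c.Inner D) (hR : D ⊆ R) : c.On R D (c.vtx D) :=
  ⟨hR, h.2, fun _ _ hi hp => h.ne hi (c.Pz hp)⟩

/-- A point on `d` patches is an inner vertex. -/
theorem inner_of_mem (hD : D.card = c.d) (h : ∀ i ∈ D, x ∈ c.P i) :
    c.Inner D ∧ c.vtx D = x := by
  have e := vtx_eq hD (PF_sub D h)
  exact ⟨⟨hD, fun i hi => e ▸ ⟨c.Pz (h i hi), c.vo D x hD h i hi⟩⟩, e⟩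

theorem Inner.height (h : c.Inner D) {D' : Finset ι} (h' : c.Inner D')
    (e : c.z (c.vtx D) = c.z (c.vtx D')) : D = D' := by
  have e' := c.zinj _ _ _ _ h.lam h'.lam h.1 h'.1 e
  refine Finset.eq_of_subset_of_card_le (fun i hi => ?_) (h'.1.trans h.1.symm).le
  by_contra hi'
  exact h'.ne hi' (e' ▸ (h.2 i hi).1)

theorem tup_empty (h : R.card < c.d) : c.Tup R k = ∅ := by
  refine Finset.eq_empty_of_forall_notMem fun t ht => ?_
  obtain ⟨h1, h2, -⟩ := mem_Tup.1 ht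
  have := Finset.card_le_card h1
  rw [h2.1] at this
  omega

theorem exists_loc (R : Finset ι) (x : E) : ∃ ρ, c.Loc R x ρ := by
  have h : ∀ᶠ y in 𝓝 x, ∀ i ∈ R, (x ∉ c.P i → y ∉ c.P i) ∧ (x ∈ c.O i → y ∈ c.O i) :=
    (eventually_all_finset R).2 fun i _ => Eventually.and
      (eventually_imp_distrib_left.2 fun hx => (c.cl i).isOpen_compl.mem_nhds hx)
      (eventually_imp_distrib_left.2 fun hx => (c.op i).mem_nhds hx)
  exact Metric.eventually_nhds_iff_ball.1 h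

theorem Loc.mem_U (h : c.Loc R x ρ) (ho : c.On R D x) (hy : y ∈ ball x ρ) :
    y ∈ c.U R ↔ ∀ i ∈ D, c.g i y ≠ 0 := by
  constructor
  · intro hU i hi h0
    exact hU i (ho.1 hi) (c.rs h0 ((h.2 y hy i (ho.1 hi)).2 (ho.2.1 i hi).2))
  · intro hD i hi hp
    by_cases hi' : i ∈ D
    · exact hD i hi' (c.Pz hp)
    · exact (h.2 y hy i hi).1 (ho.2.2 i hi hi') hp

/-- Sign classes are convex. -/
theorem convex_sign (A : Finset ι) (σ : ι → SignType) :
    Convex ℝ {y | ∀ j ∈ A, SignType.sign (c.g j y) = σ j} := by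
  have h : ∀ a : SignType, Convex ℝ {t : ℝ | SignType.sign t = a} := fun a =>
    ((ordConnected_singleton (a := a)).preimage_mono SignType.sign.monotone).convex
  simp only [ofPred_forall]
  exact convex_iInter fun j => convex_iInter fun _ => (h (σ j)).affine_preimage (c.g j)

theorem isOpen_U (R : Finset ι) : IsOpen (c.U R) := by
  have : c.U R = ⋂ i ∈ R, (c.P i)ᶜ := by ext x; simp [U]
  rw [this]
  exact isOpen_biInter_finset fun i _ => (c.cl i).isOpen_compl

theorem isOpen_C (R : Finset ι) : IsOpen (c.C R) := by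
  exact (isOpen_U R).connectedComponentIn

theorem isOpen_Orth (s : ι → SignType) : IsOpen (c.Orth s) := by
  have : c.Orth s = ⋂ i, {y | s i ≠ 0 → SignType.sign (c.g i y) = s i} := by
    ext x; simp [Orth]
  rw [this]
  refine isOpen_iInter_of_finite fun i => ?_
  have hc := aff_cont (c.g i)
  rcases h : s i with _ | _ | _
  · simp
  · simpa [sign_eq_neg_one_iff] using isOpen_lt hc continuous_const
  · simpa [sign_eq_one_iff] using isOpen_lt continuous_const hc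

theorem C_sub (R : Finset ι) : c.C R ⊆ c.U R := connectedComponentIn_subset _ _

/-- A connected part of the complement that meets the cell lies in the cell. -/
theorem sub_C {γ : Set E} (hγ : IsPreconnected γ) (hU : γ ⊆ c.U R) (hy : y ∈ γ)
    (hC : y ∈ c.C R) : γ ⊆ c.C R := by
  rw [C, connectedComponentIn_eq hC]
  exact hγ.subset_connectedComponentIn hy hU

theorem C_mono (h : R ⊆ R') : c.C R' ⊆ c.C R := by
  exact connectedComponentIn_mono _ fun x hx i hi => hx i (h hi)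

/-- Patches are nowhere dense (a nonempty patch lies in a true hyperplane). -/
theorem dense_U (R : Finset ι) : Dense (c.U R) := by
  have : c.U R = ⋂ i ∈ (R : Set ι), (c.P i)ᶜ := by ext x; simp [U]
  rw [this]
  refine dense_biInter_of_isOpen (fun i _ => (c.cl i).isOpen_compl)
    (to_countable _) fun i _ => ?_
  rcases (c.P i).eq_empty_or_nonempty with h | ⟨x, hx⟩
  · rw [h, compl_empty]; exact dense_univ
  obtain ⟨e, he⟩ := solve (c := c.toHy) (A := {i}) (x := x)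
    (fun j hj => Finset.mem_singleton.1 hj ▸ c.Pz hx) fun _ => 1
  have he' : (c.g i).linear e = 1 := he i (Finset.mem_singleton_self _)
  intro y
  by_cases hy : c.g i y = 0
  · have t : Tendsto (fun t : ℝ => t • e + y) (𝓝[≠] 0) (𝓝 y) := by
      have : Tendsto (fun t : ℝ => t • e + y) (𝓝 0) (𝓝 ((0 : ℝ) • e + y)) :=
        Continuous.tendsto (by fun_prop) 0
      rw [zero_smul, zero_add] at this
      exact this.mono_left nhdsWithin_le_nhds
    refine mem_closure_of_tendsto t (eventually_mem_nhdsWithin.mono fun t ht h => ht ?_)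
    have h1 := c.Pz h
    rw [← vadd_eq_add, AffineMap.map_vadd, map_smul, he', hy] at h1
    simpa using h1
  · exact subset_closure fun h => hy (c.Pz h)

/-- Approximate `y` by points of `c.U R'` inside a small ball around `y`. -/
theorem Good.mono (h : c.Good R' x s) (hR : R ⊆ R') : c.Good R x s := by
  filter_upwards [h.eventually_nhds] with y hy hO hU
  obtain ⟨ε, hε, hb⟩ := Metric.isOpen_iff.1 (isOpen_U R) y hU
  obtain ⟨w, hw, w1, w2, w3⟩ := (dense_U (c := c) R').inter_nhds_nonempty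
    (inter_mem hy (inter_mem ((isOpen_Orth s).mem_nhds hO) (ball_mem_nhds y hε)))
  exact sub_C (convex_ball y ε).isPreconnected hb w3 (C_mono hR (w1 w2 hw)) (mem_ball_self hε)

/-- Points of the ball with the same signs as a point of the cell lie in the cell. -/
theorem UGood_cls (h : c.Loc R x ρ) (ho : c.On R D x) (hy : y ∈ ball x ρ) (hy' : y' ∈ ball x ρ)
    (hC : y ∈ c.C R)
    (hs : ∀ i ∈ D, SignType.sign (c.g i y') = SignType.sign (c.g i y)) :
    y' ∈ c.C R := by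
  have hc := (convex_ball x ρ).inter (convex_sign (c := c) D
    fun j => SignType.sign (c.g j y))
  refine sub_C hc.isPreconnected ?_ ⟨hy, fun _ _ => rfl⟩ hC ⟨hy', hs⟩
  rintro w ⟨w1, w2⟩
  refine (h.mem_U ho w1).2 fun i hi h0 => (h.mem_U ho hy).1 (C_sub R hC) i hi ?_
  have := w2 i hi
  simp only [h0, sign_zero] at this
  exact sign_eq_zero_iff.1 this.symm

theorem UGood_sign {u v ε : ℝ} (h0 : 0 < ε) (h1 : ε ≤ 1)
    (h : u = 0 ∨ SignType.sign u = SignType.sign v) :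
    SignType.sign (AffineMap.lineMap u v ε) = SignType.sign v := by
  rw [AffineMap.lineMap_apply_ring]
  rcases h with rfl | h
  · simp [sign_mul, sign_pos h0]
  rcases lt_trichotomy v 0 with hv | rfl | hv
  · have hv' : SignType.sign v = -1 := sign_eq_neg_one_iff.2 hv
    rw [hv'] at h ⊢
    have := sign_eq_neg_one_iff.1 h
    have a1 := mul_nonneg (sub_nonneg.2 h1) (neg_nonneg.2 this.le)
    have a2 := mul_pos h0 (neg_pos.2 hv)
    exact sign_eq_neg_one_iff.2 (by nlinarith)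
  · rw [sign_zero, sign_eq_zero_iff] at h
    simp [h]
  · have hv' : SignType.sign v = 1 := sign_eq_one_iff.2 hv
    rw [hv'] at h ⊢
    have := sign_eq_one_iff.1 h
    have a1 := mul_nonneg (sub_nonneg.2 h1) this.le
    have a2 := mul_pos h0 hv
    exact sign_eq_one_iff.2 (by nlinarith)

/-- A good side of a point `y` of the ball is seen from `y'`. -/
theorem UGood_from (hg : c.Good R y s) (h : c.Loc R x ρ) (ho : c.On R D x) (hs : supp s ⊆ D)
    (hy : y ∈ ball x ρ) (hy' : y' ∈ ball x ρ) (hO : y' ∈ c.Orth s) (hU : y' ∈ c.U R)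
    (hD : ∀ i ∈ D, c.g i y = 0 ∨
      SignType.sign (c.g i y) = SignType.sign (c.g i y')) : y' ∈ c.C R := by
  have t : Tendsto (fun ε : ℝ => AffineMap.lineMap y y' ε) (𝓝[>] 0) (𝓝 y) := by
    have : Tendsto (fun ε : ℝ => AffineMap.lineMap y y' ε) (𝓝 0)
        (𝓝 (AffineMap.lineMap y y' (0 : ℝ))) := AffineMap.lineMap_continuous.tendsto 0
    rw [AffineMap.lineMap_apply_zero] at this
    exact this.mono_left nhdsWithin_le_nhds
  obtain ⟨ε, ⟨e1, e2⟩, e3⟩ := ((show ∀ᶠ ε : ℝ in 𝓝[>] 0, ε ∈ Ioo (0 : ℝ) 1 from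
    Ioo_mem_nhdsGT one_pos).and (t.eventually hg)).exists
  have hb : AffineMap.lineMap y y' ε ∈ ball x ρ :=
    (convex_ball x ρ).lineMap_mem hy hy' ⟨e1.le, e2.le⟩
  have hsg : ∀ i ∈ D, SignType.sign (c.g i (AffineMap.lineMap y y' ε)) =
      SignType.sign (c.g i y') := fun i hi => by
    rw [AffineMap.apply_lineMap]
    exact UGood_sign e1 e2.le (hD i hi)
  refine UGood_cls h ho hb hy' (e3 (fun i hi => ?_) ?_) fun i hi => (hsg i hi).symm
  · rw [hsg i (hs (mem_supp.2 hi))]; exact hO i hi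
  · refine (h.mem_U ho hb).2 fun i hi h0 => (h.mem_U ho hy').1 hU i hi ?_
    have := hsg i hi
    rw [h0, sign_zero] at this
    exact sign_eq_zero_iff.1 this.symm

/-- One point of a full orthant decides.  (The points `x + ε (y - x)` have the same signs as `y`,
and the sign class in the ball is convex.) -/
theorem good_of_mem (h : c.Loc R x ρ) (ho : c.On R D x) (hs : supp s = D) (hy : y ∈ ball x ρ)
    (hO : y ∈ c.Orth s) (hC : y ∈ c.C R) : c.Good R x s := by
  filter_upwards [ball_mem_nhds x h.1] with w hw wO _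
  refine UGood_cls h ho hy hw hC fun i hi => ?_
  have : s i ≠ 0 := mem_supp.1 (hs ▸ hi)
  rw [wO i this, hO i this]

theorem Good.mem (hg : c.Good R x s) (h : c.Loc R x ρ) (ho : c.On R D x) (hs : supp s ⊆ D)
    (hy : y ∈ ball x ρ) (hO : y ∈ c.Orth s) (hU : y ∈ c.U R) : y ∈ c.C R := by
  exact UGood_from hg h ho hs (mem_ball_self h.1) hy hO hU fun i hi => Or.inl (ho.2.1 i hi).1

/-- The side `s` of a point `y` near `x` is the side `s'` of `x`.
`→`: for `y'` in the ball, in `Orth s'` and in `U`, the points `y + ε (y' - y)` have the same signs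
on `D` as `y'`.  `←`: `Good.mem`. -/
theorem good_local (h : c.Loc R x ρ) (ho : c.On R D x) (hy : y ∈ ball x ρ) (hs : supp s ⊆ D)
    (hs' : supp s' ⊆ D) (h0 : ∀ i ∈ D, c.g i y = 0 → s' i = s i)
    (h1 : ∀ i ∈ D, c.g i y ≠ 0 → s i = 0 ∧ s' i = SignType.sign (c.g i y)) :
    c.Good R y s ↔ c.Good R x s' := by
  constructor
  · intro hg
    filter_upwards [ball_mem_nhds x h.1] with w hw wO wU
    refine UGood_from hg h ho hs hy hw (fun i hi => ?_) wU fun i hi => ?_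
    · have hD := hs (mem_supp.2 hi)
      have : s' i = s i := h0 i hD (by_contra fun hne => hi (h1 i hD hne).1)
      rw [← this]
      exact wO i (this ▸ hi)
    · by_cases hz : c.g i y = 0
      · exact Or.inl hz
      · right
        have := (h1 i hi hz).2
        rw [← this]
        exact (wO i (this ▸ sign_ne_zero.2 hz)).symm
  · intro hg
    have e1 : y ∈ c.Orth fun i => SignType.sign (c.g i y) := fun _ _ => rfl
    filter_upwards [isOpen_ball.mem_nhds hy, (isOpen_Orth _).mem_nhds e1] with w hw w1 wO wU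
    refine hg.mem h ho hs' hw (fun i hi => ?_) wU
    have hD := hs' (mem_supp.2 hi)
    by_cases hz : c.g i y = 0
    · rw [h0 i hD hz] at hi ⊢
      exact wO i hi
    · rw [(h1 i hD hz).2]
      exact w1 i (sign_ne_zero.2 hz)

/-- Goodness is constant along a face. -/
theorem good_slide {γ : Set E} (hγ : IsPreconnected γ) (ho : ∀ y ∈ γ, c.On R D y)
    (hs : supp s ⊆ D) (hy : y ∈ γ) (hy' : y' ∈ γ) (hg : c.Good R y s) : c.Good R y' s := by
  refine (hγ.induction₂' (fun a b => c.Good R a s → c.Good R b s) (fun a ha => ?_)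
    (fun _ _ _ _ _ _ h1 h2 h => h2 (h1 h)) hy hy') hg
  obtain ⟨ρ, hρ⟩ := exists_loc (c := c) R a
  filter_upwards [mem_nhdsWithin_of_mem_nhds (ball_mem_nhds a hρ.1), self_mem_nhdsWithin]
    with b hb hbγ
  have := good_local hρ (ho a ha) hb hs hs (fun _ _ _ => rfl)
    fun i hi h => absurd ((ho b hbγ).2.1 i hi).1 h
  exact ⟨this.2, this.1⟩

/-- Both sides of the patch `i` are good. -/
theorem good_both (ho : c.On R D x) (hi : i ∈ D) (hs : s i ≠ 0) (h : c.Good R x s)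
    (h' : c.Good R x (Function.update s i (-s i))) : c.Good R x (Function.update s i 0) := by
  obtain ⟨ρ, hρ⟩ := exists_loc (c := c) R x
  filter_upwards [ball_mem_nhds x hρ.1, h, h'] with w hw w1 w2 wO wU
  have hz : SignType.sign (c.g i w) ≠ 0 := sign_ne_zero.2 ((hρ.mem_U ho hw).1 wU i hi)
  have oth : ∀ j, j ≠ i → s j ≠ 0 → SignType.sign (c.g j w) = s j := fun j hj h0 => by
    have := wO j (by rwa [Function.update_of_ne hj])
    rwa [Function.update_of_ne hj] at this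
  by_cases e : SignType.sign (c.g i w) = s i
  · refine w1 (fun j hj => ?_) wU
    by_cases hji : j = i
    · rw [hji]; exact e
    · exact oth j hji hj
  · refine w2 (fun j hj => ?_) wU
    by_cases hji : j = i
    · subst hji
      rw [Function.update_self]
      revert e hz hs
      generalize SignType.sign (c.g j w) = a
      generalize s j = b
      revert a b
      decide
    · rw [Function.update_of_ne hji] at hj ⊢
      exact oth j hji hj

/-- More sign conditions. -/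
theorem Good.refine (h : c.Good R x s) (hs : ∀ i, s i ≠ 0 → s' i = s i) : c.Good R x s' := by
  filter_upwards [h] with w hw wO wU
  refine hw (fun i hi => ?_) wU
  rw [← hs i hi]
  exact wO i (by rwa [hs i hi])

theorem UEdge_solve (h : c.Inner D) (r : ι → ℝ) : ∃ e, ∀ j ∈ D, (c.g j).linear e = r j :=
  solve h.lam r

theorem UEdge_ker (h : c.Inner D) {e : E} (he : ∀ j ∈ D, (c.g j).linear e = 0) : e = 0 :=
  ker h.lam h.1 he

theorem UEdge_kerz (h : c.Inner D) (hi : i ∈ D) {e : E}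
    (he : ∀ j ∈ D, j ≠ i → (c.g j).linear e = 0) (hz : c.z e = 0) : e = 0 :=
  c.kerz (Lam_mono (D.erase_subset i) h.lam) ((Finset.card_erase_add_one hi).trans h.1)
    (fun l hl => he l (Finset.mem_of_mem_erase hl) (Finset.ne_of_mem_erase hl)) hz

theorem UEdge_sign {a b : ℝ} {σ : SignType} (hσ : σ ≠ 0) (ha : SignType.sign a = σ)
    (hb : SignType.sign b = σ) : 0 < a * b := by
  rw [← sign_eq_one_iff, sign_mul, ha, hb]
  cases σ <;> simp at hσ ⊢

theorem exists_edge (h : c.Inner t.1) (hi : i ∈ t.1) : ∃ e, c.Edge t i e := by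
  obtain ⟨e, he⟩ := UEdge_solve h fun j => if j = i then (t.2 i : ℝ) else 0
  refine ⟨e, fun j hj hji => by rw [he j hj, if_neg hji], ?_⟩
  rw [he i hi, if_pos rfl]
  cases t.2 i <;> simp

theorem Edge.z_ne (h : c.Inner t.1) (hi : i ∈ t.1) (hs : t.2 i ≠ 0) {e : E} (he : c.Edge t i e) :
    c.z e ≠ 0 :=
  fun hz => hs (by
    rw [← he.2, UEdge_kerz h hi he.1 hz, map_zero, sign_zero])

theorem Edge.up_iff (h : c.Inner t.1) (hi : i ∈ t.1) (hs : t.2 i ≠ 0) {e : E}
    (he : c.Edge t i e) : c.Up t i ↔ 0 < c.z e := by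
  refine ⟨fun ⟨e', he', hz⟩ => ?_, fun hz => ⟨e, he, hz⟩⟩
  have h1 := UEdge_sign hs he.2 he'.2
  have h2 := UEdge_ker h
    (e := (c.g i).linear e' • e - (c.g i).linear e • e') fun j hj => by
      rw [map_sub, map_smul, map_smul, smul_eq_mul, smul_eq_mul]
      by_cases hji : j = i
      · rw [hji]
        ring
      · rw [he.1 j hj hji, he'.1 j hj hji]
        ring
  have h3 := congrArg c.z h2
  rw [map_sub, map_smul, map_smul, map_zero, smul_eq_mul, smul_eq_mul] at h3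
  have h4 : 0 < (c.g i).linear e' ^ 2 * c.z e := by
    have h5 : (c.g i).linear e' ^ 2 * c.z e =
        (c.g i).linear e * (c.g i).linear e' * c.z e' := by
      linear_combination (c.g i).linear e' * h3
    rw [h5]
    exact mul_pos h1 hz
  exact pos_of_mul_pos_right h4 (sq_nonneg _)

theorem up_neg (h : c.Inner t.1) (hi : i ∈ t.1) (hs : t.2 i ≠ 0) : c.neg.Up t i ↔ ¬ c.Up t i := by
  obtain ⟨e, he⟩ := exists_edge h hi
  have h1 := Edge.up_iff (c := c.neg) h hi hs he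
  have h2 := he.z_ne h hi hs
  rw [h1, he.up_iff h hi hs]
  change 0 < -c.z e ↔ _
  rw [neg_pos, not_lt]
  exact ⟨le_of_lt, fun h3 => lt_of_le_of_ne h3 h2⟩

/-- The orthant of a side with all edges up lies above the vertex. -/
theorem orth_above (h : c.Inner t.1) (hs : supp t.2 = t.1) (hu : ∀ i ∈ t.1, c.Up t i)
    (hy : y ∈ c.Orth t.2) : c.z (c.vtx t.1) < c.z y := by
  choose! e he hz using hu
  have hne : ∀ i ∈ t.1, t.2 i ≠ 0 := fun i hi => mem_supp.1 (hs ▸ hi)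
  have hp : ∀ i ∈ t.1, 0 < c.g i y * (c.g i).linear (e i) := fun i hi =>
    UEdge_sign (hne i hi) (hy i (hne i hi)) (he i hi).2
  have h1 := UEdge_ker h (e := (y - c.vtx t.1) -
    ∑ i ∈ t.1, (c.g i y / (c.g i).linear (e i)) • e i) fun j hj => by
      rw [map_sub, map_sum, Finset.sum_eq_single_of_mem j hj fun i hi hij => by
        rw [map_smul, (he i hi).1 j hj hij.symm, smul_zero], map_smul, smul_eq_mul,
        div_mul_cancel₀ _ (right_ne_zero_of_mul (hp j hj).ne'), ← vsub_eq_sub y,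
        AffineMap.linearMap_vsub, (h.2 j hj).1, vsub_eq_sub, sub_zero, sub_self]
  have h2 := congrArg c.z h1
  rw [map_sub, map_sub, map_sum, map_zero, sub_eq_zero] at h2
  rw [← sub_pos, h2]
  refine Finset.sum_pos (fun i hi => ?_) (Finset.card_pos.1 (by have := c.d3; rw [h.1]; omega))
  rw [map_smul, smul_eq_mul]
  exact mul_pos (div_pos_iff.2 (mul_pos_iff.1 (hp i hi))) (hz i hi)

end Ctx

namespace Ctx

open Hy

variable {c : Ctx E ι}

theorem UMin_mem {R : Finset ι} {k : ℕ} {τ : Tu ι} :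
    τ ∈ c.TUp R k ↔ τ ∈ c.Tup R k ∧ ∀ i ∈ supp τ.2, c.Up τ i := by
  classical
  unfold TUp
  exact Finset.mem_filter

theorem UMin_congr {t t' : Tu ι} {i : ι} (h1 : t'.1 = t.1) (h2 : t'.2 i = t.2 i) (h : c.Up t i) :
    c.Up t' i := by
  obtain ⟨e, he, hz⟩ := h
  exact ⟨e, ⟨h1 ▸ he.1, h2 ▸ he.2⟩, hz⟩

theorem UMin_flip {t t' : Tu ι} {i : ι} (h : c.Inner t.1) (hi : i ∈ t.1) (hs : t.2 i ≠ 0)
    (h1 : t'.1 = t.1) (h2 : t'.2 i = -t.2 i) : c.Up t' i ↔ ¬ c.Up t i := by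
  obtain ⟨e, he⟩ := exists_edge h hi
  have he' : c.Edge t' i (-e) := by
    refine ⟨fun j hj hji => ?_, ?_⟩
    · rw [map_neg, he.1 j (h1 ▸ hj) hji, neg_zero]
    · rw [map_neg, Left.sign_neg, he.2, h2]
  have hs' : t'.2 i ≠ 0 := by
    rw [h2]
    exact fun h0 => hs (SignType.neg_eq_zero_iff.1 h0)
  rw [Edge.up_iff h hi hs he, Edge.up_iff (h1 ▸ h) (h1 ▸ hi) hs' he', map_neg]
  have := Edge.z_ne h hi hs he
  constructor
  · intro h3 h4
    linarith
  · intro h3
    have := lt_of_le_of_ne (not_lt.1 h3) this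
    linarith

open Classical in
/-- The pattern on `D` with all edges up. -/
noncomputable def UMin_pat (c : Ctx E ι) (D : Finset ι) : ι → SignType :=
  fun i => if i ∈ D then (if c.Up (D, fun _ => 1) i then 1 else -1) else 0

theorem UMin_supp (D : Finset ι) : supp (c.UMin_pat D) = D := by
  ext i
  rw [mem_supp, UMin_pat]
  by_cases hi : i ∈ D
  · simp only [hi, if_true, iff_true]
    split_ifs <;> decide
  · simp [hi]

theorem UMin_pat_up {D : Finset ι} (h : c.Inner D) {i : ι} (hi : i ∈ D) :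
    c.Up (D, c.UMin_pat D) i := by
  by_cases hu : c.Up (D, fun _ => 1) i
  · exact UMin_congr (t := (D, fun _ => 1)) rfl (by simp [UMin_pat, hi, hu]) hu
  · exact (UMin_flip (t := (D, fun _ => 1)) (t' := (D, c.UMin_pat D)) h hi (by simp) rfl
      (by simp [UMin_pat, hi, hu])).2 hu

theorem UMin_eq_pat {t : Tu ι} {i : ι} (h : c.Inner t.1) (hi : i ∈ t.1) (hs : t.2 i ≠ 0)
    (hu : c.Up t i) : t.2 i = c.UMin_pat t.1 i := by
  by_contra hne
  have h0 : c.UMin_pat t.1 i ≠ 0 := mem_supp.1 ((UMin_supp (c := c) t.1).superset hi)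
  have h2 : c.UMin_pat t.1 i = -t.2 i := by
    revert hne h0 hs
    generalize c.UMin_pat t.1 i = a
    generalize t.2 i = b
    revert a b
    decide
  exact (UMin_flip (t' := (t.1, c.UMin_pat t.1)) h hi hs rfl h2).1 (UMin_pat_up h hi) hu

theorem UMin_full {R : Finset ι} {τ : Tu ι} (hτ : τ ∈ c.TUp R c.d) : τ.2 = c.UMin_pat τ.1 := by
  obtain ⟨h1, h2⟩ := UMin_mem.1 hτ
  obtain ⟨-, hI, hs, hc, -⟩ := mem_Tup.1 h1
  have he : supp τ.2 = τ.1 := Finset.eq_of_subset_of_card_le hs (by rw [hc, hI.1])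
  funext i
  by_cases hi : i ∈ τ.1
  · have hi' : i ∈ supp τ.2 := he.symm ▸ hi
    exact UMin_eq_pat hI hi (mem_supp.1 hi') (h2 i hi')
  · have h3 : τ.2 i = 0 := by
      by_contra h0
      exact hi (hs (mem_supp.2 h0))
    rw [h3]
    simp [UMin_pat, hi]

theorem UMin_height {R : Finset ι} {τ τ' : Tu ι} (hτ : τ ∈ c.TUp R c.d) (hτ' : τ' ∈ c.TUp R c.d)
    (e : c.z (c.vtx τ.1) = c.z (c.vtx τ'.1)) : τ = τ' := by
  have h1 : τ.1 = τ'.1 :=
    Inner.height (mem_Tup.1 (UMin_mem.1 hτ).1).2.1 (mem_Tup.1 (UMin_mem.1 hτ').1).2.1 e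
  refine Prod.ext h1 ?_
  rw [UMin_full hτ, UMin_full hτ', h1]

theorem tup_up (R : Finset ι) (k : ℕ) : (c.TUp R k).card ≤ 2 ^ c.d * (c.TUp R c.d).card := by
  classical
  have h0 : ∀ τ ∈ c.TUp R k, ∀ i, τ.2 i ≠ 0 → τ.2 i = c.UMin_pat τ.1 i := by
    intro τ hτ i hi
    obtain ⟨h1, h2⟩ := UMin_mem.1 hτ
    obtain ⟨-, hI, hs, -, -⟩ := mem_Tup.1 h1
    exact UMin_eq_pat hI (hs (mem_supp.2 hi)) hi (h2 i (mem_supp.2 hi))
  refine Finset.card_le_mul_card_image_of_maps_to (f := fun τ => (τ.1, c.UMin_pat τ.1)) ?_ _ ?_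
  · intro τ hτ
    obtain ⟨hR, hI, -, -, hg⟩ := mem_Tup.1 (UMin_mem.1 hτ).1
    refine UMin_mem.2 ⟨mem_Tup.2 ⟨hR, hI, (UMin_supp _).subset, ?_, ?_⟩, fun i hi => ?_⟩
    · exact (congrArg Finset.card (UMin_supp τ.1)).trans hI.1
    · exact hg.refine fun i hi => (h0 τ hτ i hi).symm
    · exact UMin_pat_up hI ((UMin_supp τ.1).subset hi)
  · intro b hb
    rw [← (mem_Tup.1 (UMin_mem.1 hb).1).2.1.1, ← Finset.card_powerset]
    refine Finset.card_le_card_of_injOn (fun τ => supp τ.2) ?_ ?_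
    · intro τ hτ
      obtain ⟨h1, h2⟩ := Finset.mem_filter.1 (Finset.mem_coe.1 hτ)
      rw [← h2]
      exact Finset.mem_coe.2 (Finset.mem_powerset.2 (mem_Tup.1 (UMin_mem.1 h1).1).2.2.1)
    · intro τ hτ τ' hτ' he
      obtain ⟨h1, h2⟩ := Finset.mem_filter.1 (Finset.mem_coe.1 hτ)
      obtain ⟨h1', h2'⟩ := Finset.mem_filter.1 (Finset.mem_coe.1 hτ')
      have h3 : τ.1 = τ'.1 := (congrArg Prod.fst h2).trans (congrArg Prod.fst h2').symm
      have h4 : supp τ.2 = supp τ'.2 := he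
      refine Prod.ext h3 (funext fun i => ?_)
      by_cases hi : τ.2 i = 0
      · by_contra hne
        have h5 : i ∈ supp τ'.2 := mem_supp.2 fun h6 => hne (hi.trans h6.symm)
        exact mem_supp.1 (h4 ▸ h5) hi
      · have h5 : i ∈ supp τ'.2 := h4 ▸ mem_supp.2 hi
        rw [h0 τ h1 i hi, h0 τ' h1' i (mem_supp.1 h5), h3]

open Classical in
/-- The corner chains of a set of sides. -/
noncomputable def Ph (M : Finset (Tu ι)) (S : M → ZMod 2) (J : Finset ι) (σ : ι → SignType) :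
    ZMod 2 := ∑ τ : M, if J ⊆ τ.1.1 ∧ ∀ i ∈ τ.1.1, i ∉ J → σ i = τ.1.2 i then S τ else 0

theorem Ph_jump {M : Finset (Tu ι)} (hM : ∀ τ ∈ M, ∀ i ∈ τ.1, τ.2 i ≠ 0) (S : M → ZMod 2)
    {J : Finset ι} {h : ι} (hh : h ∉ J) (σ : ι → SignType) :
    Ph M S J (update σ h 1) + Ph M S J (update σ h (-1)) = Ph M S (insert h J) σ := by
  classical
  unfold Ph
  rw [← Finset.sum_add_distrib]
  refine Finset.sum_congr rfl fun τ _ => ?_
  have e1 : ∀ s, (J ⊆ τ.1.1 ∧ ∀ i ∈ τ.1.1, i ∉ J → update σ h s i = τ.1.2 i) ↔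
      (J ⊆ τ.1.1 ∧ ∀ i ∈ τ.1.1, i ∉ insert h J → σ i = τ.1.2 i) ∧ (h ∈ τ.1.1 → s = τ.1.2 h) := by
    intro s
    rw [and_assoc]
    refine and_congr_right fun _ => ⟨fun a => ⟨fun i hi b => ?_, fun b => ?_⟩, fun a i hi b => ?_⟩
    · rw [Finset.mem_insert, not_or] at b
      rw [← a i hi b.2, update_of_ne b.1]
    · rw [← a h b hh, update_self]
    · by_cases e : i = h
      · rw [e, update_self, a.2 (e ▸ hi)]
      · rw [update_of_ne e, a.1 i hi fun f => (Finset.mem_insert.1 f).elim e b]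
  simp only [e1, Finset.insert_subset_iff]
  by_cases a : J ⊆ τ.1.1 ∧ ∀ i ∈ τ.1.1, i ∉ insert h J → σ i = τ.1.2 i
  · by_cases b : h ∈ τ.1.1
    · rw [if_pos (⟨⟨b, a.1⟩, a.2⟩ : _ ∧ _)]
      rcases Sign_cases (hM τ.1 τ.2 h b) with e | e
      · rw [if_pos ⟨a, fun _ => e.symm⟩, if_neg fun f => absurd ((f.2 b).trans e) (by decide),
          add_zero]
      · rw [if_neg fun f => absurd ((f.2 b).trans e) (by decide), if_pos ⟨a, fun _ => e.symm⟩,
          zero_add]
    · rw [if_pos ⟨a, fun f => absurd f b⟩, if_pos ⟨a, fun f => absurd f b⟩,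
        if_neg fun f => b f.1.1, CharTwo.add_self_eq_zero]
  · rw [if_neg fun f => a f.1, if_neg fun f => a f.1, if_neg fun f => a ⟨f.1.2, f.2⟩, add_zero]

theorem min_card (R : Finset ι) : (c.TUp R c.d).card ≤ (low R c.d).card * c.β + 1 := by
  classical
  have hM : ∀ τ ∈ c.TUp R c.d, τ.1 ⊆ R ∧ c.Inner τ.1 ∧ supp τ.2 = τ.1 ∧ (∀ i ∈ τ.1, c.Up τ i) ∧
      c.Good R (c.vtx τ.1) τ.2 := fun τ hτ => by
    obtain ⟨h1, h2⟩ := UMin_mem.1 hτ
    obtain ⟨a1, a2, a3, a4, a5⟩ := mem_Tup.1 h1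
    have e := Finset.eq_of_subset_of_card_le a3 (by rw [a4, a2.1])
    exact ⟨a1, a2, e, e ▸ h2, a5⟩
  have hH := fun τ hτ τ' hτ' => UMin_height (c := c) (R := R) (τ := τ) (τ' := τ') hτ hτ'
  generalize c.TUp R c.d = M at hM hH ⊢
  have hn : ∀ τ ∈ M, ∀ i ∈ τ.1, τ.2 i ≠ 0 := fun τ hτ i hi => mem_supp.1 ((hM τ hτ).2.2.1.ge hi)
  choose z hz using fun J : low R c.d => (c.b1 J.1).reps
  let ix : (low R c.d × Fin c.β) ⊕ Unit → Finset ι × E :=
    Sum.elim (fun p => (p.1.1, z p.1 p.2)) fun _ => (∅, c.p)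
  let o : (M → ZMod 2) →+ ((low R c.d × Fin c.β) ⊕ Unit → ZMod 2) :=
    AddMonoidHom.mk' (fun S k => Ph M S (ix k).1 (chm (R \ (ix k).1) (c.sv R (ix k).2)))
      fun S S' => funext fun k => by
        simp only [Ph, Pi.add_apply, ← Finset.sum_add_distrib]
        refine Finset.sum_congr rfl fun _ _ => ?_
        split_ifs <;> simp
  have key : ∀ S, o S = 0 → S = 0 := fun S h0 => by
    let V : Finset ι → Prop := fun J => ∀ x ∈ c.Lam J, x ∉ c.PF J → Cham (R \ J) (c.sv R x) →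
      Ph M S J (c.sv R x) = 0
    have a0 : ∀ J ⊆ R, (∀ i ∈ R, i ∉ J → V (insert i J)) → ∀ X ⊆ c.Lam J,
        (∀ x ∈ X, ∀ᶠ y in 𝓝 x, ∀ i ∈ R, i ∉ J → y ∉ c.PF (insert i J)) → ∀ x, ∀ x' ∈ cc X x,
          Ph M S J (chm (R \ J) (c.sv R x')) = Ph M S J (chm (R \ J) (c.sv R x)) := by
      intro J hJ ih X hX hX' x x' hx
      refine val_const (F := ∅) (k := fun h σ => Ph M S (insert h J) σ) (Finset.disjoint_empty_left _)
        hJ (fun h σ _ hf => Ph_jump hn S (Finset.mem_sdiff.1 hf.1).2 σ)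
        isPreconnected_connectedComponentIn (by
          rw [Finset.empty_union]
          exact (connectedComponentIn_subset _ _).trans hX) (fun v hv => ?_) hx
        (mem_connectedComponentIn (cc_base hx))
      filter_upwards [hX' v (connectedComponentIn_subset _ _ hv)] with y a1 a2 i hf
      obtain ⟨a3, a4⟩ := Finset.mem_sdiff.1 hf.1
      exact ih i a3 a4 y (Lam_mono Finset.subset_union_right (lam_fac a2 a3 hf.2.1)) (a1 i a3 a4)
        (fac_cham hf)
    have a1 : ∀ m, ∀ J ⊆ R, c.d ≤ J.card + m → V J := by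
      intro m
      induction m with
      | zero =>
        intro J _ hc x hx hx' _
        refine Finset.sum_eq_zero fun τ _ => if_neg fun f => hx' fun i hi => ?_
        obtain ⟨-, b1, -⟩ := hM τ.1 τ.2
        have b2 := Finset.eq_of_subset_of_card_le f.1 (b1.1.trans_le hc)
        rw [← vtx_eq (x := x) b1.1 (b2 ▸ hx)]
        exact rel_sub i (b1.2 i (f.1 hi))
      | succ m ih =>
        intro J hJ hc
        by_cases b1 : c.d ≤ J.card + m
        · exact ih J hJ b1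
        intro x hx hx' hch
        obtain ⟨k, hk⟩ := hz ⟨J, mem_low.2 ⟨hJ, by omega⟩⟩ x ⟨hx, hx'⟩
        rw [← chm_eq hch, a0 J hJ (fun i hi hi' => ih _ (Finset.insert_subset hi hJ) (by
          rw [Finset.card_insert_of_notMem hi']
          omega)) _ sdiff_subset (fun v hv => ?_) _ _ hk]
        · exact congrFun h0 (Sum.inl (⟨J, mem_low.2 ⟨hJ, by omega⟩⟩, k))
        · filter_upwards [(isClosed_PF J).isOpen_compl.mem_nhds hv.2] with y hy i _ _ f
          exact hy (PF_mono (Finset.subset_insert _ _) f)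
    by_contra hS
    obtain ⟨τ₁, h₁⟩ := Function.ne_iff.1 hS
    obtain ⟨τ₀, h₀, hmin⟩ := (Finset.univ.filter fun τ : M => S τ ≠ 0).exists_min_image
      (fun τ => c.z (c.vtx τ.1.1)) ⟨τ₁, Finset.mem_filter.2 ⟨Finset.mem_univ _, h₁⟩⟩
    obtain ⟨b1, b2, b3, -, b5⟩ := hM τ₀.1 τ₀.2
    have b6 : ∀ᶠ y in 𝓝 (c.vtx τ₀.1.1), ∀ τ : M, c.z (c.vtx τ₀.1.1) < c.z (c.vtx τ.1.1) →
        c.z y < c.z (c.vtx τ.1.1) := eventually_all.2 fun τ => eventually_imp_distrib_left.2
      fun f => (isOpen_lt c.z_cont continuous_const).mem_nhds f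
    obtain ⟨y, ⟨-, e⟩, b7, b8⟩ := ((lift (F := ∅) (H := R) (x := c.vtx τ₀.1.1)
      (τ := fun i => if i ∈ τ₀.1.1 then τ₀.1.2 i else c.sv R (c.vtx τ₀.1.1) i)
      (Finset.disjoint_empty_left _) (fun _ f => absurd f (Finset.notMem_empty _))
      (fun i hi => if_neg fun f => hi ((sv_eq_zero (b1 f)).2 (b2.lam i f)))
      fun i hi => (if_neg fun f => hi (b1 f)).trans (sv_of_notMem hi _)).and_eventually
        (b5.and b6)).exists
    have c1 : ∀ i ∈ τ₀.1.1, c.sv R y i = τ₀.1.2 i := fun i hi => (congrFun e i).trans (if_pos hi)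
    have c2 : Cham (R \ ∅) (c.sv R y) := fun i hi => by
      by_cases f : i ∈ τ₀.1.1
      · rw [c1 i f]
        exact hn _ τ₀.2 i f
      · rw [(congrFun e i).trans (if_neg f), Ne, sv_eq_zero (Finset.mem_sdiff.1 hi).1]
        exact b2.ne f
    have c3 : ∀ τ : M, (∀ i ∈ τ.1.1, c.sv R y i = τ.1.2 i) → y ∈ c.Orth τ.1.2 := fun τ f i hi => by
      have g1 := (hM τ.1 τ.2).2.2.1.le (mem_supp.2 hi)
      rw [← f i g1, sv_of_mem ((hM τ.1 τ.2).1 g1)]
    have c4 := a0 ∅ (Finset.empty_subset _) (fun i hi _ => a1 c.d _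
      (Finset.insert_subset hi (Finset.empty_subset _)) (by omega)) (c.U R)
      (fun _ _ _ f => absurd f (Finset.notMem_empty _)) (fun v hv => by
        filter_upwards [(isOpen_U R).mem_nhds hv] with w hw i hi _ f
        exact hw i hi (f i (Finset.mem_insert_self _ _))) c.p y (b7 (c3 τ₀ c1) fun i hi f =>
          c2 i (Finset.mem_sdiff.2 ⟨hi, Finset.notMem_empty _⟩) ((sv_eq_zero hi).2 (c.Pz f)))
    rw [chm_eq c2, show Ph M S ∅ (chm (R \ ∅) (c.sv R c.p)) = 0 from congrFun h0 (Sum.inr ()), Ph,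
      Finset.sum_eq_single τ₀ (fun τ _ hτ => ?_) fun f => absurd (Finset.mem_univ _) f,
      if_pos ⟨Finset.empty_subset _, fun i hi _ => c1 i hi⟩] at c4
    · exact (Finset.mem_filter.1 h₀).2 c4
    · rw [ite_eq_right_iff]
      intro f
      by_contra g1
      obtain ⟨-, g2, g3, g4, -⟩ := hM τ.1 τ.2
      exact (orth_above g2 g3 g4 (c3 τ fun i hi => f.2 i hi (Finset.notMem_empty _))).not_gt
        (b8 τ (lt_of_le_of_ne (hmin τ (Finset.mem_filter.2 ⟨Finset.mem_univ _, g1⟩))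
          fun g5 => hτ (Subtype.ext (hH _ τ₀.2 _ τ.2 g5).symm)))
  have h3 := count_ker (γ := Empty) o (fun _ _ => 0) fun S S' a b _ => (key S a).trans (key S' b).symm
  simpa using h3

theorem ext_card (R : Finset ι) (k : ℕ) :
    (c.TExt R k).card ≤ 2 ^ (c.d + 1) * ((low R c.d).card * c.β + 1) := by
  classical
  have h1 : c.TExt R k ⊆ c.TUp R k ∪ c.neg.TUp R k := by
    intro τ hτ
    obtain ⟨h2, h3⟩ := Finset.mem_filter.1 hτ
    rcases h3 with h3 | h3
    · exact Finset.mem_union_left _ (UMin_mem.2 ⟨h2, h3⟩)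
    · obtain ⟨-, hI, hs, -, -⟩ := mem_Tup.1 h2
      exact Finset.mem_union_right _ (UMin_mem.2 ⟨h2, fun i hi =>
        (up_neg hI (hs hi) (mem_supp.1 hi)).2 (h3 i hi)⟩)
  have h2 := (tup_up (c := c) R k).trans (Nat.mul_le_mul_left _ (min_card R))
  have h3 : (c.neg.TUp R k).card ≤ 2 ^ c.d * ((low R c.d).card * c.β + 1) :=
    (tup_up (c := c.neg) R k).trans (Nat.mul_le_mul_left _ (min_card R))
  have h4 := (Finset.card_le_card h1).trans (Finset.card_union_le _ _)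
  rw [pow_succ, mul_comm _ 2, mul_assoc]
  omega

end Ctx

/-- The constant for the extremal sides. -/
def kext (d β : ℕ) : ℕ := 2 ^ (d + 1) * (2 ^ (d - 1) * β + 1)

theorem Ctx.ext_le (c : Ctx E ι) (R : Finset ι) (k : ℕ) :
    (c.TExt R k).card ≤ kext c.d c.β * R.card.choose (c.d - 1) := by
  classical
  rcases lt_or_ge R.card c.d with h | h
  · have h1 : c.TExt R k = ∅ := by
      unfold Ctx.TExt
      rw [Ctx.tup_empty h, Finset.filter_empty]
    rw [h1]
    exact Nat.zero_le _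
  · have h1 : c.d - 1 ≤ R.card := by omega
    have h2 := low_choose h1
    rw [show c.d - 1 + 1 = c.d by have := c.d3; omega] at h2
    refine (Ctx.ext_card R k).trans ?_
    rw [kext, mul_assoc, add_mul, one_mul, mul_right_comm]
    exact Nat.mul_le_mul_left _ (add_le_add (Nat.mul_le_mul_right _ h2) (Nat.choose_pos h1))

namespace Ctx

open Hy

variable (c : Ctx E ι)

/-- Starting at the vertex of `t`, cross the patch `i` along the edge number `i` and stop at the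
next vertex `v'`. -/
structure Slide (R : Finset ι) (t : Tu ι) (i : ι) (v' : E) : Prop where
  seg : ∀ y ∈ openSegment ℝ (c.vtx t.1) v', c.On R (t.1.erase i) y
  stop : ¬ c.On R (t.1.erase i) v'
  mem : ∀ j ∈ t.1.erase i, v' ∈ c.P j
  sgn : SignType.sign (c.g i v') = -t.2 i

open Classical in
/-- Slides whose other side is good as well. -/
noncomputable def PA (R : Finset ι) (k : ℕ) : Finset (Tu ι × ι) :=
  (c.Tup R k ×ˢ Finset.univ).filter fun q => q.1.2 q.2 ≠ 0 ∧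
    c.Good R (c.vtx q.1.1) (Function.update q.1.2 q.2 (-q.1.2 q.2))

open Classical in
/-- Slides that do not end at an inner vertex. -/
noncomputable def PB (R : Finset ι) (k : ℕ) : Finset (Tu ι × ι) :=
  (c.Tup R k ×ˢ Finset.univ).filter fun q => q.1.2 q.2 ≠ 0 ∧
    ¬ ∃ j ∈ R, j ∉ q.1.1 ∧ c.Inner (insert j (q.1.1.erase q.2)) ∧
      c.Slide R q.1 q.2 (c.vtx (insert j (q.1.1.erase q.2)))

variable {c}

theorem USlide_supp (s : ι → SignType) (i : ι) :
    supp (Function.update s i 0) = (supp s).erase i := by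
  ext j
  by_cases h : j = i
  · simp [h]
  · simp [h]

theorem USlide_ext {s s' : ι → SignType} {i : ι}
    (h : Function.update s i 0 = Function.update s' i 0) (h' : s i = s' i) : s = s' := by
  funext j
  by_cases e : j = i
  · rw [e, h']
  · simpa [e] using congrFun h j

theorem PA_card (R : Finset ι) (k : ℕ) :
    (c.PA R (k + 1)).card ≤ 2 * c.d * (c.Tup R k).card := by
  classical
  have hm : ∀ q ∈ c.PA R (k + 1), q.1 ∈ c.Tup R (k + 1) ∧ q.1.2 q.2 ≠ 0 ∧
      c.Good R (c.vtx q.1.1) (Function.update q.1.2 q.2 (-q.1.2 q.2)) := fun q hq =>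
    ⟨(Finset.mem_product.1 (Finset.mem_filter.1 hq).1).1, (Finset.mem_filter.1 hq).2⟩
  refine Finset.card_le_mul_card_image_of_maps_to
    (f := fun q : Tu ι × ι => ((q.1.1, Function.update q.1.2 q.2 0) : Tu ι)) (fun q hq => ?_) _
    fun t ht => ?_
  · obtain ⟨h1, h2, h3⟩ := hm q hq
    obtain ⟨hR, hI, hs, hk, hg⟩ := mem_Tup.1 h1
    refine mem_Tup.2 ⟨hR, hI, ?_, ?_, good_both (hI.on hR) (hs (mem_supp.2 h2)) h2 hg h3⟩
    · rw [USlide_supp]
      exact (Finset.erase_subset _ _).trans hs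
    · rw [USlide_supp, Finset.card_erase_of_mem (mem_supp.2 h2), hk]
      rfl
  · have hc : (t.1 ×ˢ (Finset.univ.erase (0 : SignType))).card = 2 * c.d := by
      rw [Finset.card_product, (mem_Tup.1 ht).2.1.1, mul_comm]
      rfl
    rw [← hc]
    refine Finset.card_le_card_of_injOn (fun q => (q.2, q.1.2 q.2)) (fun q hq => ?_) ?_
    · obtain ⟨hq', rfl⟩ := Finset.mem_filter.1 hq
      obtain ⟨h1, h2, -⟩ := hm q hq'
      exact Finset.mem_coe.2 (Finset.mem_product.2 ⟨(mem_Tup.1 h1).2.2.1 (mem_supp.2 h2),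
        Finset.mem_erase.2 ⟨h2, Finset.mem_univ _⟩⟩)
    · rintro ⟨⟨D, s⟩, i⟩ hq ⟨⟨D', s'⟩, i'⟩ hq' e
      have e1 := (Finset.mem_filter.1 hq).2.trans (Finset.mem_filter.1 hq').2.symm
      obtain rfl : i = i' := (Prod.ext_iff.1 e).1
      obtain rfl : D = D' := (Prod.ext_iff.1 e1).1
      obtain rfl : s = s' := USlide_ext (Prod.ext_iff.1 e1).2 (Prod.ext_iff.1 e).2
      rfl

section

variable {R : Finset ι} {t t' : Tu ι} {i i' : ι}

theorem USlideA_near {D : Finset ι} {γ : ℝ → E} (hγ : Continuous γ) (hD : D ⊆ R)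
    (h0 : ∀ s, ∀ j ∈ D, c.g j (γ s) = 0) {s : ℝ} (h1 : ∀ j ∈ D, γ s ∈ c.rel j) :
    ∀ᶠ r in 𝓝 s, (∀ j ∈ R, j ∉ D → γ s ∈ c.P j → c.g j (γ r) ≠ 0) → c.On R D (γ r) := by
  obtain ⟨ρ, hρ⟩ := exists_loc (c := c) R (γ s)
  filter_upwards [hγ.continuousAt.eventually (ball_mem_nhds _ hρ.1)] with r hr h2
  refine ⟨hD, fun j hj => ⟨h0 r j hj, (hρ.2 _ hr j (hD hj)).2 (h1 j hj).2⟩, fun j hj hj' h3 => ?_⟩
  by_cases h4 : γ s ∈ c.P j
  · exact h2 j hj hj' h4 (c.Pz h3)
  · exact (hρ.2 _ hr j hj).1 h4 h3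

theorem exists_slide (hR : t.1 ⊆ R) (h : c.Inner t.1) (hs : t.2 i ≠ 0) (hi : i ∈ t.1) {w : E}
    (hw : w ∈ c.Lam (t.1.erase i)) (hsg : SignType.sign (c.g i w) = -t.2 i)
    (hn : ¬ c.On R (t.1.erase i) w) : ∃ v' ∈ segment ℝ (c.vtx t.1) w, c.Slide R t i v' := by
  set γ : ℝ → E := fun s => AffineMap.lineMap (c.vtx t.1) w s with hγ
  have hc : Continuous γ := AffineMap.lineMap_continuous
  have hD : t.1.erase i ⊆ R := (Finset.erase_subset _ _).trans hR
  have hv : ∀ s, ∀ j ∈ t.1, c.g j (γ s) = s * c.g j w := fun s j hj => by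
    rw [hγ, aff_line, h.lam j hj, mul_zero, zero_add]
  have h0 : ∀ s, ∀ j ∈ t.1.erase i, c.g j (γ s) = 0 := fun s j hj => by
    rw [hv s j (Finset.mem_of_mem_erase hj), hw j hj, mul_zero]
  have ha : c.g i w ≠ 0 := fun h1 => hs (by
    rw [h1, sign_zero] at hsg
    exact SignType.neg_eq_zero_iff.1 hsg.symm)
  have hγ0 : γ 0 = c.vtx t.1 := AffineMap.lineMap_apply_zero _ _
  have hγ1 : γ 1 = w := AffineMap.lineMap_apply_one _ _
  obtain ⟨ε₀, hε₀, h1⟩ := Metric.eventually_nhds_iff.1 (USlideA_near hc hD h0 (s := 0) fun j hj =>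
    hγ0 ▸ h.2 j (Finset.mem_of_mem_erase hj))
  obtain ⟨ε, hε, hε1, hε2⟩ : ∃ ε, 0 < ε ∧ ε ≤ ε₀ ∧ ε ≤ 1 :=
    ⟨min ε₀ 1, lt_min hε₀ one_pos, min_le_left _ _, min_le_right _ _⟩
  have h2 : IsClosed ({s | c.On R (t.1.erase i) (γ s)}ᶜ ∩ Ici ε) :=
    (isOpen_iff_eventually.2 fun s hs => (USlideA_near hc hD h0 hs.2.1).mono fun r hr =>
      hr fun j hj hj' h3 => absurd h3 (hs.2.2 j hj hj')).isClosed_compl.inter isClosed_Ici
  have h3 : (1 : ℝ) ∈ {s | c.On R (t.1.erase i) (γ s)}ᶜ ∩ Ici ε := ⟨fun f => hn (hγ1 ▸ f), hε2⟩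
  have h4 : BddBelow ({s | c.On R (t.1.erase i) (γ s)}ᶜ ∩ Ici ε) := bddBelow_Ici.mono inter_subset_right
  obtain ⟨h5, h6⟩ := h2.csInf_mem ⟨1, h3⟩ h4
  have h6' := csInf_le h4 h3
  set s₀ := sInf ({s | c.On R (t.1.erase i) (γ s)}ᶜ ∩ Ici ε)
  have h7 : 0 < s₀ := hε.trans_le h6
  have h8 : ∀ y ∈ openSegment ℝ (c.vtx t.1) (γ s₀), c.On R (t.1.erase i) y := by
    rintro _ ⟨a, b, ha0, hb, hab, rfl⟩
    have h9 : 0 < b * s₀ := mul_pos hb h7
    have e1 : a • c.vtx t.1 + b • γ s₀ = γ (b * s₀) := by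
      simp only [hγ, eq_sub_of_add_eq hab, AffineMap.lineMap_apply_module]
      module
    rw [e1]
    rcases lt_or_ge (b * s₀) ε with h10 | h10
    · refine h1 (by
        rw [dist_zero_right, Real.norm_of_nonneg h9.le]
        exact h10.trans_le hε1) fun j hj hj' h11 => ?_
      have h12 : j ∈ t.1 := by
        by_contra h12
        exact (h.on hR).2.2 j hj h12 (hγ0 ▸ h11)
      obtain rfl : j = i := by
        by_contra h13
        exact hj' (Finset.mem_erase.2 ⟨h13, h12⟩)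
      rw [hv _ j h12]
      exact mul_ne_zero h9.ne' ha
    · by_contra h11
      have h12 : s₀ ≤ b * s₀ := csInf_le h4 ⟨h11, h10⟩
      nlinarith [mul_pos ha0 h7]
  refine ⟨γ s₀, ?_, h8, h5, fun j hj => ?_, ?_⟩
  · rw [segment_eq_image_lineMap]
    exact ⟨s₀, ⟨h7.le, h6'⟩, rfl⟩
  · refine closure_minimal (fun y hy => rel_sub j ((h8 y hy).2.1 j hj)) (c.cl j) ?_
    rw [closure_openSegment]
    exact right_mem_segment _ _ _
  · rw [hv _ i hi, sign_mul, sign_pos h7, one_mul, hsg]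

theorem pb_key (hR : t.1 ⊆ R) (hI : c.Inner t.1) (hs : t.2 i ≠ 0) (hi : i ∈ t.1)
    (hR' : t'.1 ⊆ R) (hI' : c.Inner t'.1) (hi' : i' ∈ t'.1) (e : t.1.erase i = t'.1.erase i')
    (hne : t.1 ≠ t'.1)
    (hc : c.vtx t'.1 ∈ cc (c.Lam (t.1.erase i) ∩ c.OF (t.1.erase i)) (c.vtx t.1))
    (hu : c.Up t i ↔ c.z (c.vtx t'.1) < c.z (c.vtx t.1)) :
    ∃ j ∈ R, j ∉ t.1 ∧ c.Inner (insert j (t.1.erase i)) ∧
      c.Slide R t i (c.vtx (insert j (t.1.erase i))) := by
  have hd : (t.1.erase i).card + 1 = c.d := (Finset.card_erase_add_one hi).trans hI.1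
  have a1 : i ∉ t'.1 := fun f => hne (by
    have f' : i = i' := by_contra fun g =>
      Finset.notMem_erase i t.1 (e ▸ Finset.mem_erase.2 ⟨g, f⟩)
    rw [← Finset.insert_erase hi, e, f', Finset.insert_erase hi'])
  have hsub := connectedComponentIn_subset (c.Lam (t.1.erase i) ∩ c.OF (t.1.erase i)) (c.vtx t.1)
  have a2 : SignType.sign (c.g i (c.vtx t'.1)) = -t.2 i := by
    by_contra f
    have f1 : SignType.sign (c.g i (c.vtx t'.1)) = t.2 i := by
      have f2 := sign_ne_zero.2 (hI'.ne a1)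
      revert f f2 hs
      generalize SignType.sign (c.g i (c.vtx t'.1)) = a
      generalize t.2 i = b
      revert a b
      decide
    have f2 : c.Edge t i (c.vtx t'.1 - c.vtx t.1) := ⟨fun j hj g => by
      rw [aff_lin, (hsub hc).1 j (Finset.mem_erase.2 ⟨g, hj⟩), hI.lam j hj, sub_self], by
      rw [aff_lin, hI.lam i hi, sub_zero, f1]⟩
    rw [f2.up_iff hI hi hs, map_sub, sub_pos] at hu
    rcases lt_trichotomy (c.z (c.vtx t.1)) (c.z (c.vtx t'.1)) with g | g | g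
    exacts [g.not_gt (hu.1 g), hne (hI.height hI' g), g.not_gt (hu.2 g)]
  obtain ⟨w, ⟨a, b, ha, hb, hab, rfl⟩, h⟩ := exists_slide hR hI hs hi (hsub hc).1 a2 fun f =>
    f.2.2 i' (hR' hi') (e ▸ Finset.notMem_erase i' _) (rel_sub i' (hI'.2 i' hi'))
  have a3 := line_mem hd isPreconnected_connectedComponentIn (hsub.trans inter_subset_left)
    (mem_connectedComponentIn (cc_base hc)) hc (PF_sub _ h.mem) (by
      rw [← segment_eq_uIcc]
      exact ⟨a, b, ha, hb, hab, by simp⟩)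
  obtain ⟨j, hj, hj', a4⟩ : ∃ j ∈ R, j ∉ t.1.erase i ∧ a • c.vtx t.1 + b • c.vtx t'.1 ∈ c.P j := by
    by_contra f
    push Not at f
    exact h.stop ⟨(Finset.erase_subset _ _).trans hR,
      fun j hj => ⟨c.Pz (h.mem j hj), (hsub a3).2 j hj⟩, f⟩
  obtain ⟨a5, a6⟩ := inner_of_mem (D := insert j (t.1.erase i))
    (by rw [Finset.card_insert_of_notMem hj', hd]) fun l hl => by
      rcases Finset.mem_insert.1 hl with rfl | hl
      exacts [a4, h.mem l hl]
  refine ⟨j, hj, fun h3 => ?_, a5, a6.symm ▸ h⟩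
  obtain rfl : j = i := by
    by_contra h4
    exact hj' (Finset.mem_erase.2 ⟨h4, h3⟩)
  have h4 := h.sgn
  rw [c.Pz a4, sign_zero] at h4
  exact hs (SignType.neg_eq_zero_iff.1 h4.symm)

end

theorem PB_card (R : Finset ι) (k : ℕ) :
    (c.PB R k).card ≤ 2 * 3 ^ c.d * (c.β * R.card.choose (c.d - 1)) := by
  classical
  choose z hz using fun J : Finset ι => (c.b2 J J subset_rfl).reps
  have hm : ∀ q ∈ c.PB R k, (q.1.1 ⊆ R ∧ c.Inner q.1.1 ∧ supp q.1.2 ⊆ q.1.1) ∧ q.1.2 q.2 ≠ 0 ∧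
      ¬ ∃ j ∈ R, j ∉ q.1.1 ∧ c.Inner (insert j (q.1.1.erase q.2)) ∧
        c.Slide R q.1 q.2 (c.vtx (insert j (q.1.1.erase q.2))) := fun q hq => by
    obtain ⟨h1, h2, h3⟩ := Finset.mem_filter.1 hq
    obtain ⟨hR, hI, hs, -⟩ := mem_Tup.1 (Finset.mem_product.1 h1).1
    exact ⟨⟨hR, hI, hs⟩, h2, h3⟩
  refine (Finset.card_le_card_of_forall_subsingleton
    (t := (R.powersetCard (c.d - 1)).sigma fun J => (Finset.univ.filter
      fun s : ι → SignType => supp s ⊆ J) ×ˢ (Finset.univ : Finset (Fin c.β × Prop)))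
    (fun q b => q.1.1.erase q.2 = b.1 ∧ update q.1.2 q.2 0 = b.2.1 ∧
      c.vtx q.1.1 ∈ cc (c.Lam b.1 ∩ c.OF b.1) (z b.1 b.2.2.1) ∧ (c.Up q.1 q.2 ↔ b.2.2.2))
    (fun q hq => ?_) fun b _ q hq q' hq' => ?_).trans ?_
  · obtain ⟨⟨hR, hI, hs⟩, h2, -⟩ := hm q hq
    obtain ⟨u, hu⟩ := hz (q.1.1.erase q.2) (c.vtx q.1.1) ⟨Lam_mono (Finset.erase_subset _ _) hI.lam,
      fun j hj => (hI.2 j (Finset.mem_of_mem_erase hj)).2⟩
    refine ⟨⟨q.1.1.erase q.2, update q.1.2 q.2 0, u, c.Up q.1 q.2⟩, Finset.mem_sigma.2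
      ⟨Finset.mem_powersetCard.2 ⟨(Finset.erase_subset _ _).trans hR, ?_⟩, Finset.mem_product.2
        ⟨Finset.mem_filter.2 ⟨Finset.mem_univ _, ?_⟩, Finset.mem_univ _⟩⟩, rfl, rfl, hu, Iff.rfl⟩
    · rw [Finset.card_erase_of_mem (hs (mem_supp.2 h2)), hI.1]
    · rw [USlide_supp]
      exact Finset.erase_subset_erase _ hs
  · obtain ⟨hq, a1, a2, a3, a4⟩ := hq
    obtain ⟨hq', b1, b2, b3, b4⟩ := hq'
    obtain ⟨⟨hR, hI, hs⟩, h2, h3⟩ := hm q hq
    obtain ⟨⟨hR', hI', hs'⟩, h2', h3'⟩ := hm q' hq'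
    have hi := hs (mem_supp.2 h2)
    have hi' := hs' (mem_supp.2 h2')
    have eD := a1.trans b1.symm
    have e5 : q.1.1 = q'.1.1 := by
      by_contra f
      by_cases g : c.Up q.1 q.2 ↔ c.z (c.vtx q'.1.1) < c.z (c.vtx q.1.1)
      · exact h3 (pb_key hR hI h2 hi hR' hI' hi' eD f (a1 ▸ cc_trans (cc_symm a3) b3) g)
      · refine h3' (pb_key hR' hI' h2' hi' hR hI hi eD.symm (Ne.symm f)
          (b1 ▸ cc_trans (cc_symm b3) a3) ?_)
        rw [b4, ← a4]
        have g1 : c.z (c.vtx q.1.1) ≠ c.z (c.vtx q'.1.1) := fun g1 => f (hI.height hI' g1)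
        refine ⟨fun g2 => lt_of_le_of_ne (not_lt.1 fun g3 => g (iff_of_true g2 g3)) g1,
          fun g2 => by_contra fun g3 => g (iff_of_false g3 g2.not_gt)⟩
    rw [← e5] at eD
    have e6 : q.2 = q'.2 := (Finset.erase_inj _ hi).1 eD
    obtain ⟨⟨D, s⟩, i⟩ := q
    obtain ⟨⟨D', s'⟩, i'⟩ := q'
    obtain rfl : D = D' := e5
    obtain rfl : i = i' := e6
    have e7 : s i = s' i := by
      by_contra f
      have g : s' i = -s i := by
        dsimp only at h2 h2'
        revert f h2 h2'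
        generalize s i = a
        generalize s' i = b
        revert a b
        decide
      have g1 := UMin_flip (t := (D, s)) (t' := (D, s')) hI hi h2 rfl g
      exact iff_not_self ((a4.trans b4.symm).trans g1)
    obtain rfl : s = s' := USlide_ext (a2.trans b2.symm) e7
    rfl
  · rw [Finset.card_sigma]
    refine (Finset.sum_le_card_nsmul _ _ (3 ^ c.d * (c.β * 2)) fun J hJ => ?_).trans (le_of_eq ?_)
    · rw [Finset.card_product, Finset.card_univ, Fintype.card_prod, Fintype.card_fin,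
        Fintype.card_prop]
      exact Nat.mul_le_mul_right _ ((card_supp_le J).trans (Nat.pow_le_pow_right (by norm_num)
        ((Finset.mem_powersetCard.1 hJ).2.trans_le (Nat.sub_le _ _))))
    · rw [Finset.card_powersetCard, smul_eq_mul]
      ring

end Ctx

namespace Ctx

open Hy

variable (c : Ctx E ι)

/-- The side at the end of the slide. -/
noncomputable def recv (t : Tu ι) (i j : ι) : Tu ι :=
  (insert j (t.1.erase i),
    Function.update (Function.update t.2 i 0) j (SignType.sign (c.g j (c.vtx t.1))))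

/-- The edge `i` is the only one of its kind. -/
def Special (t : Tu ι) (i : ι) : Prop := ∀ j ∈ supp t.2, j ≠ i → ¬ (c.Up t j ↔ c.Up t i)

open Classical in
/-- The charge sent along the edge `i`. -/
noncomputable def wt (t : Tu ι) (i : ι) : ℕ := if c.Special t i then 1 else 2

open Classical in
/-- The capacity of a receiver. -/
noncomputable def cap (k : ℕ) (t : Tu ι) : ℕ := if c.Ext t then 2 * k else 2 * k - 2

open Classical in
/-- Slides that end at an inner vertex whose side becomes good when `i` is removed. -/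
noncomputable def PC (R : Finset ι) (k : ℕ) : Finset (Tu ι × ι × ι) :=
  (c.Tup R k ×ˢ Finset.univ).filter fun q => q.1.2 q.2.1 ≠ 0 ∧ q.2.2 ∉ q.1.1 ∧
    SignType.sign (c.g q.2.1 (c.vtx (c.recv q.1 q.2.1 q.2.2).1)) = -q.1.2 q.2.1 ∧
    c.recv q.1 q.2.1 q.2.2 ∈ c.Tup (R.erase q.2.1) k ∧ c.recv q.1 q.2.1 q.2.2 ∉ c.Tup R k

variable {c} {R : Finset ι} {t : Tu ι} {i j : ι} {v' : E} {k : ℕ}

theorem URecvA_near (x y : E) {ρ : ℝ} (hρ : 0 < ρ) : ∃ τ : ℝ, 0 < τ ∧ τ < 1 ∧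
    ∀ σ : ℝ, |σ| ≤ τ → AffineMap.lineMap x y σ ∈ ball x ρ := by
  have hc : Continuous fun σ : ℝ => AffineMap.lineMap x y σ := AffineMap.lineMap_continuous
  have h0 : ∀ᶠ σ in 𝓝 (0 : ℝ), AffineMap.lineMap x y σ ∈ ball x ρ :=
    hc.continuousAt.eventually_mem (by
      rw [AffineMap.lineMap_apply_zero]
      exact ball_mem_nhds x hρ)
  obtain ⟨ε, hε, h⟩ := Metric.eventually_nhds_iff.1 h0
  refine ⟨min (ε / 2) (1 / 2), lt_min (by linarith) (by norm_num),
    (min_le_right _ _).trans_lt (by norm_num), fun σ hσ => h ?_⟩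
  rw [Real.dist_eq, sub_zero]
  exact (hσ.trans (min_le_left _ _)).trans_lt (by linarith)

/-- The side of a point on an edge near a vertex. -/
theorem URecvA_local {D : Finset ι} {x y : E} {ρ : ℝ} {s : ι → SignType} {a : ι}
    (h : c.Loc R x ρ) (ho : c.On R D x) (hy : y ∈ ball x ρ) (ha : a ∈ D)
    (hs : supp s ⊆ D.erase a) (h0 : ∀ l ∈ D.erase a, c.g l y = 0) (h1 : c.g a y ≠ 0) :
    c.Good R y s ↔ c.Good R x (Function.update s a (SignType.sign (c.g a y))) := by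
  refine good_local h ho hy (hs.trans (Finset.erase_subset _ _)) (fun l hl => ?_)
    (fun l _ e => ?_) fun l hl e => ?_
  · by_cases hla : l = a
    · exact hla ▸ ha
    · rw [mem_supp, Function.update_of_ne hla] at hl
      exact Finset.mem_of_mem_erase (hs (mem_supp.2 hl))
  · exact Function.update_of_ne (fun hla : l = a => h1 (hla ▸ e)) _ _
  · have hla : l = a := by
      by_contra hla
      exact e (h0 l (Finset.mem_erase.2 ⟨hla, hl⟩))
    subst hla
    refine ⟨?_, Function.update_self _ _ _⟩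
    by_contra h'
    exact Finset.notMem_erase _ _ (hs (mem_supp.2 h'))

theorem recv_mem (ht : t ∈ c.Tup R k) (hs : t.2 i ≠ 0)
    (hn : ¬ c.Good R (c.vtx t.1) (Function.update t.2 i (-t.2 i))) (h : c.Slide R t i v')
    (hj : j ∈ R) (hj' : j ∉ t.1) (hI : c.Inner (insert j (t.1.erase i)))
    (hv : c.vtx (insert j (t.1.erase i)) = v') : (t, i, j) ∈ c.PC R k := by
  obtain ⟨hR, hI₀, hsup, hk, hg⟩ := mem_Tup.1 ht
  have hi : i ∈ t.1 := hsup (mem_supp.2 hs)
  have hji : j ≠ i := fun e => hj' (e ▸ hi)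
  have hj₀ : j ∉ t.1.erase i := fun e => hj' (Finset.mem_of_mem_erase e)
  set v := c.vtx t.1 with hvv
  have hs₀ : supp (Function.update t.2 i 0) ⊆ t.1.erase i := fun l hl => by
    have hli : l ≠ i := fun e => by
      rw [e, mem_supp, Function.update_self] at hl
      exact hl rfl
    rw [mem_supp, Function.update_of_ne hli] at hl
    exact Finset.mem_erase.2 ⟨hli, hsup (mem_supp.2 hl)⟩
  have hz : ∀ σ : ℝ, ∀ l ∈ t.1.erase i, c.g l (AffineMap.lineMap v v' σ) = 0 :=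
    fun σ l hl => by
      rw [aff_line, (hI₀.2 l (Finset.mem_of_mem_erase hl)).1, c.Pz (h.mem l hl), mul_zero, mul_zero,
        add_zero]
  have hgi : ∀ σ : ℝ, c.g i (AffineMap.lineMap v v' σ) = σ * c.g i v' := fun σ => by
    rw [aff_line, (hI₀.2 i hi).1, mul_zero, zero_add]
  have hi' : c.g i v' ≠ 0 := fun e => by
    have := h.sgn
    rw [e, sign_zero, eq_comm, SignType.neg_eq_zero_iff] at this
    exact hs this
  have hjv : c.g j v ≠ 0 := hI₀.ne hj'
  have hgj : ∀ σ : ℝ, c.g j (AffineMap.lineMap v v' σ) = (1 - σ) * c.g j v := fun σ => by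
    have := (hI.2 j (Finset.mem_insert_self _ _)).1
    rw [hv] at this
    rw [aff_line, this, mul_zero, add_zero]
  -- the end of the slide
  have hend : ∀ R' : Finset ι, insert j (t.1.erase i) ⊆ R' → ∃ τ : ℝ, 0 < τ ∧ τ < 1 ∧
      (c.Good R' (AffineMap.lineMap v v' τ) (Function.update t.2 i 0) ↔
        c.Good R' v' (c.recv t i j).2) := fun R' hR' => by
    obtain ⟨ρ, hρ⟩ := exists_loc (c := c) R' v'
    obtain ⟨τ, h0, h1, hb⟩ := URecvA_near v' v hρ.1
    have hb' := hb τ (abs_of_pos h0).le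
    rw [← AffineMap.lineMap_apply_one_sub] at hb'
    have ho := hI.on hR'
    rw [hv] at ho
    refine ⟨1 - τ, by linarith, by linarith, ?_⟩
    have e := URecvA_local (s := Function.update t.2 i 0) hρ ho hb' (Finset.mem_insert_self _ _)
      (by rwa [Finset.erase_insert hj₀]) (by
        rw [Finset.erase_insert hj₀]
        exact hz _) (by
        rw [hgj, sub_sub_cancel]
        exact mul_ne_zero h0.ne' hjv)
    rwa [hgj, sub_sub_cancel, sign_mul, sign_pos h0, one_mul] at e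
  -- the start of the slide
  obtain ⟨ρ, hρ⟩ := exists_loc (c := c) R v
  obtain ⟨τ, h0, h1, hb⟩ := URecvA_near v v' hρ.1
  have ho := hI₀.on hR
  have hst : ∀ σ : ℝ, σ ≠ 0 → |σ| ≤ τ →
      (c.Good R (AffineMap.lineMap v v' σ) (Function.update t.2 i 0) ↔
        c.Good R v (Function.update t.2 i (SignType.sign σ * -t.2 i))) := fun σ hσ hσ' => by
    have e := URecvA_local (s := Function.update t.2 i 0) hρ ho (hb σ hσ') hi hs₀ (hz _) (by
      rw [hgi]
      exact mul_ne_zero hσ hi')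
    rwa [hgi, sign_mul, h.sgn, Function.update_idem] at e
  have hseg : ∀ σ : ℝ, 0 < σ → σ < 1 → AffineMap.lineMap v v' σ ∈ openSegment ℝ v v' :=
    fun σ a b => by
      rw [openSegment_eq_image_lineMap]
      exact ⟨σ, ⟨a, b⟩, rfl⟩
  have hD' : insert j (t.1.erase i) ⊆ R.erase i :=
    Finset.insert_subset (Finset.mem_erase.2 ⟨hji, hj⟩) (Finset.erase_subset_erase i hR)
  have hv' : c.vtx (c.recv t i j).1 = v' := hv
  have hsup' : supp (c.recv t i j).2 = insert j ((supp t.2).erase i) := by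
    ext l
    rw [mem_supp, Finset.mem_insert, Finset.mem_erase, mem_supp]
    change Function.update (Function.update t.2 i 0) j (SignType.sign (c.g j v)) l ≠ 0 ↔ _
    by_cases hlj : l = j
    · subst hlj
      rw [Function.update_self]
      exact iff_of_true (sign_ne_zero.2 hjv) (Or.inl rfl)
    · rw [Function.update_of_ne hlj]
      by_cases hli : l = i
      · subst hli
        rw [Function.update_self]
        simp [hlj]
      · rw [Function.update_of_ne hli]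
        simp [hlj, hli]
  classical
  refine Finset.mem_filter.2 ⟨Finset.mem_product.2 ⟨ht, Finset.mem_univ _⟩, hs, hj', ?_, ?_, ?_⟩
  · change SignType.sign (c.g i (c.vtx (c.recv t i j).1)) = -t.2 i
    rw [hv']
    exact h.sgn
  · change c.recv t i j ∈ c.Tup (R.erase i) k
    refine mem_Tup.2 ⟨hD', hI, ?_, ?_, ?_⟩
    · rw [hsup']
      exact Finset.insert_subset_insert _ (Finset.erase_subset_erase i hsup)
    · rw [hsup', Finset.card_insert_of_notMem fun e => hj' (hsup (Finset.mem_of_mem_erase e)),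
        Finset.card_erase_add_one (mem_supp.2 hs), hk]
    · obtain ⟨τ', h0', h1', e⟩ := hend _ hD'
      rw [hv', ← e]
      have g1 : c.Good R (AffineMap.lineMap v v' (-τ)) (Function.update t.2 i 0) := by
        rw [hst _ (neg_ne_zero.2 h0.ne') (by rw [abs_neg, abs_of_pos h0]),
          sign_neg (neg_lt_zero.2 h0), neg_mul_neg, one_mul, Function.update_eq_self]
        exact hg
      refine good_slide (γ := (fun σ : ℝ => AffineMap.lineMap v v' σ) '' Icc (-τ) τ')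
        (D := t.1.erase i) (isPreconnected_Icc.image _ AffineMap.lineMap_continuous.continuousOn)
        ?_ hs₀ ⟨-τ, ⟨le_rfl, by linarith⟩, rfl⟩ ⟨τ', ⟨by linarith, le_rfl⟩, rfl⟩
        (g1.mono (Finset.erase_subset _ _))
      rintro _ ⟨σ, ⟨a, b⟩, rfl⟩
      refine ⟨Finset.erase_subset_erase i hR, ?_⟩
      rcases lt_or_ge 0 σ with hσ | hσ
      · have := h.seg _ (hseg σ hσ (b.trans_lt h1'))
        exact ⟨this.2.1, fun l hl => this.2.2 l (Finset.mem_of_mem_erase hl)⟩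
      · have hy := hρ.2 _ (hb σ (abs_le.2 ⟨a, hσ.trans h0.le⟩))
        refine ⟨fun l hl => ?_, fun l hl hl' => ?_⟩
        · have hl' := Finset.mem_of_mem_erase hl
          exact ⟨hz σ l hl, (hy l (hR hl')).2 (hI₀.2 l hl').2⟩
        · obtain ⟨hli, hlR⟩ := Finset.mem_erase.1 hl
          exact (hy l hlR).1 (ho.2.2 l hlR fun e => hl' (Finset.mem_erase.2 ⟨hli, e⟩))
  · change c.recv t i j ∉ c.Tup R k
    intro hm
    obtain ⟨τ', h0', h1', e⟩ := hend R (hD'.trans (Finset.erase_subset _ _))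
    have g1 := (mem_Tup.1 hm).2.2.2.2
    rw [hv', ← e] at g1
    have g2 := good_slide (convex_openSegment v v').isPreconnected h.seg hs₀ (hseg τ' h0' h1')
      (hseg τ h0 h1) g1
    rw [hst τ h0.ne' (abs_of_pos h0).le, sign_pos h0, one_mul] at g2
    exact hn g2

end Ctx

namespace Ctx

open Hy

variable {c : Ctx E ι} {t : Tu ι}

/-- At most one edge is special if there are at least three edges. -/
theorem wt_sum (hk : 3 ≤ (supp t.2).card) :
    2 * (supp t.2).card - 1 ≤ ∑ i ∈ supp t.2, c.wt t i := by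
  classical
  have h1 : ((supp t.2).filter (c.Special t)).card ≤ 1 := by
    refine Finset.card_le_one.2 fun a ha b hb => ?_
    by_contra hab
    obtain ⟨ha, ha'⟩ := Finset.mem_filter.1 ha
    obtain ⟨hb, hb'⟩ := Finset.mem_filter.1 hb
    have h2 : 0 < (((supp t.2).erase a).erase b).card := by
      rw [Finset.card_erase_of_mem (Finset.mem_erase.2 ⟨Ne.symm hab, hb⟩),
        Finset.card_erase_of_mem ha]
      omega
    obtain ⟨l, hl⟩ := Finset.card_pos.1 h2
    obtain ⟨hlb, hl⟩ := Finset.mem_erase.1 hl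
    obtain ⟨hla, hl⟩ := Finset.mem_erase.1 hl
    have e1 := ha' l hl hla
    have e2 := hb' l hl hlb
    have e3 := hb' a ha hab
    tauto
  have h2 : ∑ i ∈ supp t.2, c.wt t i + ((supp t.2).filter (c.Special t)).card =
      2 * (supp t.2).card := by
    rw [Finset.card_filter, ← Finset.sum_add_distrib, mul_comm, ← smul_eq_mul,
      ← Finset.sum_const]
    refine Finset.sum_congr rfl fun i _ => ?_
    unfold wt
    split_ifs <;> rfl
  omega

theorem URecv_wt_le (t : Tu ι) (i : ι) : c.wt t i ≤ 2 := by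
  unfold wt
  split_ifs <;> omega

/-- The sender that belongs to the edge `j` of the receiver `t'`. -/
noncomputable def URecvT (c : Ctx E ι) (t' : Tu ι) (S j : ι) : Tu ι :=
  (insert S (t'.1.erase j), Function.update (Function.update t'.2 j 0) S
    (-SignType.sign (c.g S (c.vtx t'.1))))

/-- What is known about a sender. -/
structure URecvOk (c : Ctx E ι) (k : ℕ) (t' : Tu ι) (S j : ι) : Prop where
  mem : t'.2 j ≠ 0
  inn : c.Inner (URecvT c t' S j).1
  sgn : SignType.sign (c.g j (c.vtx (URecvT c t' S j).1)) = t'.2 j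
  inn' : c.Inner t'.1
  sub : supp t'.2 ⊆ t'.1
  card : (supp t'.2).card = k
  out : S ∉ t'.1

theorem URecv_facts {R : Finset ι} {k : ℕ} {t' : Tu ι} {S : ι} {q : Tu ι × ι × ι}
    (hq : q ∈ c.PC R k) (h1 : q.2.1 = S) (h2 : c.recv q.1 q.2.1 q.2.2 = t') :
    q = (URecvT c t' S q.2.2, S, q.2.2) ∧ URecvOk c k t' S q.2.2 := by
  classical
  obtain ⟨t, S', j⟩ := q
  dsimp only at h1 h2 ⊢
  subst h1
  simp only [PC, Finset.mem_filter, Finset.mem_product] at hq
  obtain ⟨⟨ht, -⟩, hS, hj, hσ, ht', -⟩ := hq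
  rw [h2] at hσ ht'
  obtain ⟨-, hI, hsub, -, -⟩ := mem_Tup.1 ht
  obtain ⟨hR', hI', hsub', hcard', -⟩ := mem_Tup.1 ht'
  have hSt : S' ∈ t.1 := hsub (mem_supp.2 hS)
  have hjS : j ≠ S' := fun h => hj (h ▸ hSt)
  have hj0 : t.2 j = 0 := by
    by_contra h
    exact hj (hsub (mem_supp.2 h))
  have e1 : t'.1 = insert j (t.1.erase S') := by rw [← h2]; rfl
  have e2 : t'.2 = Function.update (Function.update t.2 S' 0) j
      (SignType.sign (c.g j (c.vtx t.1))) := by rw [← h2]; rfl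
  have e : t = URecvT c t' S' j := by
    refine Prod.ext ?_ ?_
    · change t.1 = insert S' (t'.1.erase j)
      rw [e1, Finset.erase_insert fun h => hj (Finset.mem_of_mem_erase h), Finset.insert_erase hSt]
    · change t.2 = Function.update (Function.update t'.2 j 0) S' _
      rw [hσ, neg_neg, e2]
      funext l
      by_cases h1 : l = S'
      · rw [h1, Function.update_self]
      rw [Function.update_of_ne h1]
      by_cases h2 : l = j
      · rw [h2, Function.update_self, hj0]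
      rw [Function.update_of_ne h2, Function.update_of_ne h2, Function.update_of_ne h1]
  have e3 : SignType.sign (c.g j (c.vtx t.1)) = t'.2 j := by
    rw [e2, Function.update_self]
  refine ⟨by rw [← e], ?_, e ▸ hI, e ▸ e3, hI', hsub', hcard', fun h => ?_⟩
  · rw [← e3]
    exact sign_ne_zero.2 (hI.ne hj)
  · exact (Finset.mem_erase.1 (hR' h)).1 rfl

section ok

variable {k : ℕ} {t' : Tu ι} {S j l : ι}

theorem URecvOk.memS : S ∈ (URecvT c t' S j).1 := Finset.mem_insert_self _ _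

theorem URecvOk.memT (hl : l ∈ t'.1) (hlj : l ≠ j) : l ∈ (URecvT c t' S j).1 :=
  Finset.mem_insert_of_mem (Finset.mem_erase.2 ⟨hlj, hl⟩)

theorem URecvOk.neS (h : URecvOk c k t' S j) : (URecvT c t' S j).2 S ≠ 0 := by
  change Function.update _ S _ S ≠ 0
  rw [Function.update_self, Ne, SignType.neg_eq_zero_iff]
  exact sign_ne_zero.2 (h.inn'.ne h.out)

theorem URecvOk.edge1 (h : URecvOk c k t' S j) :
    c.Edge t' j (c.vtx (URecvT c t' S j).1 - c.vtx t'.1) := by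
  refine ⟨fun m hm hmj => ?_, ?_⟩
  · rw [aff_lin, (h.inn.2 m (URecvOk.memT hm hmj)).1, (h.inn'.2 m hm).1, sub_zero]
  · rw [aff_lin, (h.inn'.2 j (h.sub (mem_supp.2 h.mem))).1, sub_zero, h.sgn]

theorem URecvOk.edge2 (h : URecvOk c k t' S j) :
    c.Edge (URecvT c t' S j) S (c.vtx (URecvT c t' S j).1 - c.vtx t'.1) := by
  refine ⟨fun m hm hmS => ?_, ?_⟩
  · have hm' : m ∈ t'.1 := Finset.mem_of_mem_erase ((Finset.mem_insert.1 hm).resolve_left hmS)
    rw [aff_lin, (h.inn.2 m hm).1, (h.inn'.2 m hm').1, sub_zero]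
  · rw [aff_lin, (h.inn.2 S URecvOk.memS).1, zero_sub, Left.sign_neg]
    simp only [URecvT, Function.update_self]

theorem URecvOk.up1 (h : URecvOk c k t' S j) :
    c.Up t' j ↔ c.z (c.vtx t'.1) < c.z (c.vtx (URecvT c t' S j).1) := by
  rw [h.edge1.up_iff h.inn' (h.sub (mem_supp.2 h.mem)) h.mem, map_sub, sub_pos]

theorem URecvOk.up2 (h : URecvOk c k t' S j) :
    c.Up (URecvT c t' S j) S ↔ c.z (c.vtx t'.1) < c.z (c.vtx (URecvT c t' S j).1) := by
  rw [h.edge2.up_iff h.inn URecvOk.memS h.neS, map_sub, sub_pos]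

theorem URecvOk.val (hl : (URecvT c t' S j).2 l ≠ 0) (hlS : l ≠ S) :
    l ≠ j ∧ (URecvT c t' S j).2 l = t'.2 l := by
  have e : (URecvT c t' S j).2 l = Function.update t'.2 j 0 l := Function.update_of_ne hlS _ _
  have hlj : l ≠ j := fun h => hl (by rw [e, h, Function.update_self])
  exact ⟨hlj, by rw [e, Function.update_of_ne hlj]⟩

theorem URecvOk.edge3 (h : URecvOk c k t' S j) (h' : URecvOk c k t' S l) (hlj : l ≠ j)
    (e : (URecvT c t' S j).2 l = t'.2 l) :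
    c.Edge (URecvT c t' S j) l (c.vtx (URecvT c t' S l).1 - c.vtx (URecvT c t' S j).1) := by
  refine ⟨fun m hm hml => ?_, ?_⟩
  · have hm' : m ∈ (URecvT c t' S l).1 := by
      rcases Finset.mem_insert.1 hm with rfl | hm'
      · exact URecvOk.memS
      · exact URecvOk.memT (Finset.mem_of_mem_erase hm') hml
    rw [aff_lin, (h.inn.2 m hm).1, (h'.inn.2 m hm').1, sub_zero]
  · rw [aff_lin, (h.inn.2 l (URecvOk.memT (h.sub (mem_supp.2 h'.mem)) hlj)).1, sub_zero,
      h'.sgn, e]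

theorem URecv_two (hall : ∀ j ∈ supp t'.2, URecvOk c k t' S j) (hE : ¬ c.Ext t') :
    ∃ a ∈ supp t'.2, ∃ b ∈ supp t'.2, a ≠ b ∧ c.Special (URecvT c t' S a) S ∧
      c.Special (URecvT c t' S b) S := by
  unfold Ext at hE
  push Not at hE
  obtain ⟨⟨b, hb, hb'⟩, a, ha, ha'⟩ := hE
  obtain ⟨j₁, h1, hmax⟩ := (supp t'.2).exists_max_image
    (fun j => c.z (c.vtx (URecvT c t' S j).1)) ⟨a, ha⟩
  obtain ⟨j₂, h2, hmin⟩ := (supp t'.2).exists_min_image
    (fun j => c.z (c.vtx (URecvT c t' S j).1)) ⟨a, ha⟩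
  have u1 : c.Up (URecvT c t' S j₁) S :=
    (hall j₁ h1).up2.2 (((hall a ha).up1.1 ha').trans_le (hmax a ha))
  have u2 : ¬ c.Up (URecvT c t' S j₂) S := fun h =>
    hb' ((hall b hb).up1.2 (((hall j₂ h2).up2.1 h).trans_le (hmin b hb)))
  refine ⟨j₁, h1, j₂, h2, fun h => u2 (h ▸ u1), fun l hl hlS h => ?_, fun l hl hlS h => ?_⟩
  · obtain ⟨hlj, e⟩ := URecvOk.val (mem_supp.1 hl) hlS
    have hl' : l ∈ supp t'.2 := mem_supp.2 (e ▸ mem_supp.1 hl)
    have h3 := (((hall j₁ h1).edge3 (hall l hl') hlj e).up_iff (hall j₁ h1).inn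
      (URecvOk.memT ((hall j₁ h1).sub hl') hlj) (mem_supp.1 hl)).1 (h.2 u1)
    rw [map_sub, sub_pos] at h3
    exact absurd (hmax l hl') (not_le.2 h3)
  · obtain ⟨hlj, e⟩ := URecvOk.val (mem_supp.1 hl) hlS
    have hl' : l ∈ supp t'.2 := mem_supp.2 (e ▸ mem_supp.1 hl)
    have hE := (hall j₂ h2).edge3 (hall l hl') hlj e
    have hm := URecvOk.memT (c := c) (S := S) ((hall j₂ h2).sub hl') hlj
    refine u2 (h.1 ((hE.up_iff (hall j₂ h2).inn hm (mem_supp.1 hl)).2 ?_))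
    refine lt_of_le_of_ne ?_ (hE.z_ne (hall j₂ h2).inn hm (mem_supp.1 hl)).symm
    rw [map_sub, sub_nonneg]
    exact hmin l hl'

end ok

open Classical in
theorem recv_weight (R : Finset ι) (k : ℕ) (t' : Tu ι) (S : ι) :
    ∑ q ∈ (c.PC R k).filter fun q => q.2.1 = S ∧ c.recv q.1 q.2.1 q.2.2 = t', c.wt q.1 q.2.1 ≤
      c.cap k t' := by
  set F := (c.PC R k).filter fun q => q.2.1 = S ∧ c.recv q.1 q.2.1 q.2.2 = t' with hF
  have hq : ∀ q ∈ F, q = (URecvT c t' S q.2.2, S, q.2.2) ∧ URecvOk c k t' S q.2.2 := fun q hq => by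
    obtain ⟨h1, h2, h3⟩ := Finset.mem_filter.1 hq
    exact URecv_facts h1 h2 h3
  rcases F.eq_empty_or_nonempty with h0 | ⟨q₀, hq₀⟩
  · rw [h0, Finset.sum_empty]
    exact Nat.zero_le _
  have hk := (hq q₀ hq₀).2.card
  set J := F.image fun q => q.2.2 with hJ
  have hJ' : ∀ j ∈ J, URecvOk c k t' S j := fun j hj => by
    obtain ⟨q, hq', rfl⟩ := Finset.mem_image.1 hj
    exact (hq q hq').2
  have hsub : J ⊆ supp t'.2 := fun j hj => mem_supp.2 (hJ' j hj).mem
  have e : ∑ q ∈ F, c.wt q.1 q.2.1 = ∑ j ∈ J, c.wt (URecvT c t' S j) S := by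
    rw [hJ, Finset.sum_image fun q h q' h' hqq => by
      rw [(hq q h).1, (hq q' h').1, show q.2.2 = q'.2.2 from hqq]]
    refine Finset.sum_congr rfl fun q h => ?_
    conv_lhs => rw [(hq q h).1]
  have hle : ∀ K : Finset ι, ∑ j ∈ K, c.wt (URecvT c t' S j) S ≤ 2 * K.card := fun K => by
    rw [mul_comm, ← smul_eq_mul]
    exact Finset.sum_le_card_nsmul _ _ _ fun j _ => URecv_wt_le _ _
  have h1 := hle J
  have h2 := Finset.card_le_card hsub
  rw [e]
  unfold cap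
  split_ifs with hE
  · omega
  rcases hsub.eq_or_ssubset with h3 | h3
  swap
  · have := Finset.card_lt_card h3
    omega
  rw [h3] at hJ' ⊢
  obtain ⟨a, ha, b, hb, hab, sa, sb⟩ := URecv_two hJ' hE
  have hb' : b ∈ (supp t'.2).erase a := Finset.mem_erase.2 ⟨hab.symm, hb⟩
  rw [← Finset.add_sum_erase _ _ ha, ← Finset.add_sum_erase _ _ hb']
  have h4 := hle (((supp t'.2).erase a).erase b)
  have h5 := Finset.card_erase_add_one hb'
  have h6 := Finset.card_erase_add_one ha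
  have h7 : c.wt (URecvT c t' S a) S = 1 := if_pos sa
  have h8 : c.wt (URecvT c t' S b) S = 1 := if_pos sb
  omega

end Ctx

theorem solve_rec {d : ℕ} (hd : 1 ≤ d) (f : Finset ι → ℝ) {δ K : ℝ} (hδ : 0 < δ) (hK : 0 ≤ K)
    (h0 : ∀ R, R.card < d → f R = 0)
    (h : ∀ R, d ≤ R.card → ((R.card : ℝ) - d + 1 + δ) * f R ≤
      ∑ S ∈ R, f (R.erase S) + K * R.card.choose (d - 1)) (R : Finset ι) :
    f R ≤ K / δ * R.card.choose (d - 1) := by
  have hnn : ∀ R : Finset ι, 0 ≤ K / δ * R.card.choose (d - 1) := fun R => by positivity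
  induction hr : R.card generalizing R with
  | zero => rw [← hr, h0 R (by omega)]; exact hnn R
  | succ r ih =>
    rw [← hr]
    by_cases hlt : R.card < d
    · rw [h0 R hlt]
      exact hnn R
    have hle : d ≤ R.card := not_lt.1 hlt
    have h1 : ∑ S ∈ R, f (R.erase S) ≤ R.card • (K / δ * r.choose (d - 1)) :=
      Finset.sum_le_card_nsmul _ _ _ fun S hS => ih _ (by rw [Finset.card_erase_of_mem hS, hr]; rfl)
    have h2 : (r.choose (d - 1) : ℝ) * R.card = R.card.choose (d - 1) * ((R.card : ℝ) - d + 1) := by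
      have h3 := congrArg (Nat.cast : ℕ → ℝ) (Nat.choose_mul_succ_eq r (d - 1))
      rw [← hr, Nat.cast_mul, Nat.cast_mul, Nat.cast_sub (by omega), Nat.cast_sub hd] at h3
      rw [h3]
      push_cast
      ring
    have h4 : (0 : ℝ) < (R.card : ℝ) - d + 1 + δ := by
      have : (d : ℝ) ≤ R.card := Nat.cast_le.2 hle
      linarith
    refine le_of_mul_le_mul_left ((h R hle).trans ?_) h4
    have h5 : ((R.card : ℝ) - d + 1 + δ) * (K / δ * R.card.choose (d - 1)) =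
        K / δ * (r.choose (d - 1) * R.card) + K * R.card.choose (d - 1) := by
      rw [h2]
      field_simp
    rw [h5]
    rw [nsmul_eq_mul] at h1
    linarith

/-- The loss in one step. -/
def kstep (d β : ℕ) : ℕ := 4 * d + 4 * 3 ^ d * β + 4 * kext d β

namespace Ctx

open Hy

variable (c : Ctx E ι)

/-- The potential. -/
noncomputable def Phi (R : Finset ι) (k : ℕ) : ℕ := ∑ t ∈ c.Tup R k, c.cap k t

theorem PC_weight (R : Finset ι) (k : ℕ) : ∑ q ∈ c.PC R k, c.wt q.1 q.2.1 ≤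
    ∑ S ∈ R, ∑ t ∈ c.Tup (R.erase S) k \ c.Tup R k, c.cap k t := by
  classical
  have h1 : ∀ q ∈ c.PC R k, q.2.1 ∈ R := fun q hq => by
    obtain ⟨h2, h3, -⟩ := Finset.mem_filter.1 hq
    obtain ⟨h4, -, h5, -⟩ := mem_Tup.1 (Finset.mem_product.1 h2).1
    exact h4 (h5 (mem_supp.2 h3))
  rw [← Finset.sum_fiberwise_of_maps_to h1]
  refine Finset.sum_le_sum fun S _ => ?_
  have h2 : ∀ q ∈ (c.PC R k).filter fun q => q.2.1 = S,
      c.recv q.1 q.2.1 q.2.2 ∈ c.Tup (R.erase S) k \ c.Tup R k := fun q hq => by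
    obtain ⟨h3, rfl⟩ := Finset.mem_filter.1 hq
    obtain ⟨-, -, -, -, h4⟩ := Finset.mem_filter.1 h3
    exact Finset.mem_sdiff.2 h4
  rw [← Finset.sum_fiberwise_of_maps_to h2]
  refine Finset.sum_le_sum fun t _ => ?_
  rw [Finset.filter_filter]
  convert recv_weight (c := c) R k t S

theorem recur (R : Finset ι) {k : ℕ} (hk : 2 ≤ k) :
    (2 * k + 1) * (c.Tup R (k + 1)).card + (R.card - c.d) * c.Phi R (k + 1) ≤
      ∑ S ∈ R, c.Phi (R.erase S) (k + 1) + 4 * c.d * (c.Tup R k).card +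
        4 * 3 ^ c.d * (c.β * R.card.choose (c.d - 1)) := by
  classical
  have hw : ∀ (t : Tu ι) (i : ι), c.wt t i ≤ 2 := fun t i => by
    unfold wt
    split_ifs <;> omega
  have h1 : (2 * k + 1) * (c.Tup R (k + 1)).card ≤
      ∑ q ∈ (c.Tup R (k + 1) ×ˢ Finset.univ).filter fun q : Tu ι × ι => q.1.2 q.2 ≠ 0,
        c.wt q.1 q.2 := by
    rw [Finset.sum_filter, Finset.sum_product, mul_comm, ← smul_eq_mul]
    refine Finset.card_nsmul_le_sum _ _ _ fun t ht => ?_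
    have h2 := (mem_Tup.1 ht).2.2.2.1
    have h3 := wt_sum (c := c) (t := t) (by omega)
    rw [h2, supp, Finset.sum_filter] at h3
    exact le_trans (by omega) h3
  have h2 : ((c.Tup R (k + 1) ×ˢ Finset.univ).filter fun q : Tu ι × ι => q.1.2 q.2 ≠ 0) ⊆
      c.PA R (k + 1) ∪ c.PB R (k + 1) ∪ (c.PC R (k + 1)).image fun q => (q.1, q.2.1) := by
    rintro ⟨t, i⟩ hq
    obtain ⟨h3, h4⟩ := Finset.mem_filter.1 hq
    have ht := (Finset.mem_product.1 h3).1
    obtain ⟨h5, h6, h7, -⟩ := mem_Tup.1 ht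
    by_cases hg : c.Good R (c.vtx t.1) (Function.update t.2 i (-t.2 i))
    · exact Finset.mem_union_left _ (Finset.mem_union_left _ (Finset.mem_filter.2 ⟨h3, h4, hg⟩))
    by_cases h8 : ∃ j ∈ R, j ∉ t.1 ∧ c.Inner (insert j (t.1.erase i)) ∧
        c.Slide R t i (c.vtx (insert j (t.1.erase i)))
    · obtain ⟨j, hj, hj', hI, hv⟩ := h8
      exact Finset.mem_union_right _
        (Finset.mem_image.2 ⟨(t, i, j), recv_mem ht h4 hg hv hj hj' hI rfl, rfl⟩)
    · exact Finset.mem_union_left _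
        (Finset.mem_union_right _ (Finset.mem_filter.2 ⟨h3, h4, h8⟩))
  have h3 := Finset.sum_le_sum_of_subset (f := fun q : Tu ι × ι => c.wt q.1 q.2) h2
  have h4 := Finset.sum_union_inter (s₁ := c.PA R (k + 1) ∪ c.PB R (k + 1))
    (s₂ := (c.PC R (k + 1)).image fun q => (q.1, q.2.1)) (f := fun q : Tu ι × ι => c.wt q.1 q.2)
  have h5 : ∑ q ∈ c.PA R (k + 1) ∪ c.PB R (k + 1), c.wt q.1 q.2 ≤
      ((c.PA R (k + 1)).card + (c.PB R (k + 1)).card) * 2 :=
    (Finset.sum_le_card_nsmul _ _ 2 fun q _ => hw q.1 q.2).trans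
      (Nat.mul_le_mul_right 2 (Finset.card_union_le _ _))
  have h6 : ∑ q ∈ (c.PC R (k + 1)).image fun q => (q.1, q.2.1), c.wt q.1 q.2 ≤
      ∑ q ∈ c.PC R (k + 1), c.wt q.1 q.2.1 :=
    Finset.sum_image_le_of_nonneg fun _ _ => Nat.zero_le _
  have h7 := c.PC_weight R (k + 1)
  have h8 : (R.card - c.d) * c.Phi R (k + 1) ≤
      ∑ S ∈ R, ∑ t ∈ c.Tup (R.erase S) (k + 1) ∩ c.Tup R (k + 1), c.cap (k + 1) t := by
    calc _ = ∑ t ∈ c.Tup R (k + 1), ∑ S ∈ R, if S ∉ t.1 then c.cap (k + 1) t else 0 := by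
          rw [Phi, Finset.mul_sum]
          refine Finset.sum_congr rfl fun t ht => ?_
          obtain ⟨h9, h10, -⟩ := mem_Tup.1 ht
          rw [← Finset.sum_filter, Finset.sum_const, smul_eq_mul, ← Finset.sdiff_eq_filter,
            Finset.card_sdiff_of_subset h9, h10.1]
      _ = ∑ S ∈ R, ∑ t ∈ (c.Tup R (k + 1)).filter fun t => S ∉ t.1, c.cap (k + 1) t := by
          rw [Finset.sum_comm]
          exact Finset.sum_congr rfl fun S _ => (Finset.sum_filter _ _).symm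
      _ ≤ _ := by
          refine Finset.sum_le_sum fun S _ => Finset.sum_le_sum_of_subset fun t ht => ?_
          obtain ⟨h9, h10⟩ := Finset.mem_filter.1 ht
          obtain ⟨a1, a2, a3, a4, a5⟩ := mem_Tup.1 h9
          exact Finset.mem_inter.2 ⟨mem_Tup.2 ⟨Finset.subset_erase.2 ⟨a1, h10⟩, a2, a3, a4,
            a5.mono (Finset.erase_subset _ _)⟩, h9⟩
  have h9 : ∑ S ∈ R, c.Phi (R.erase S) (k + 1) =
      ∑ S ∈ R, ∑ t ∈ c.Tup (R.erase S) (k + 1) ∩ c.Tup R (k + 1), c.cap (k + 1) t +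
        ∑ S ∈ R, ∑ t ∈ c.Tup (R.erase S) (k + 1) \ c.Tup R (k + 1), c.cap (k + 1) t := by
    rw [← Finset.sum_add_distrib]
    exact Finset.sum_congr rfl fun S _ => (Finset.sum_inter_add_sum_sdiff _ _ _).symm
  have h10 := PA_card (c := c) R k
  have h11 := PB_card (c := c) R (k + 1)
  have e1 : 4 * c.d * (c.Tup R k).card = 2 * c.d * (c.Tup R k).card * 2 := by ring
  have e2 : 4 * 3 ^ c.d * (c.β * R.card.choose (c.d - 1)) = 2 * 3 ^ c.d * (c.β * R.card.choose (c.d - 1)) * 2 := by ring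
  omega

theorem URec_Phi (R : Finset ι) (k : ℕ) :
    c.Phi R (k + 1) = 2 * k * (c.Tup R (k + 1)).card + 2 * (c.TExt R (k + 1)).card := by
  classical
  rw [Phi, TExt, Finset.card_filter, Finset.mul_sum, mul_comm (2 * k), ← smul_eq_mul,
    ← Finset.sum_const, ← Finset.sum_add_distrib]
  refine Finset.sum_congr rfl fun t _ => ?_
  unfold cap
  split_ifs <;> omega

theorem step {k K : ℕ} (hk : 2 ≤ k) (hK : 1 ≤ K)
    (h : ∀ R : Finset ι, (c.Tup R k).card ≤ K * R.card.choose (c.d - 1)) (R : Finset ι) :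
    (c.Tup R (k + 1)).card ≤
      kstep c.d c.β * K * R.card.choose (c.d - 1) := by
  have hk0 : (0 : ℝ) < 2 * k := by
    have : (2 : ℝ) ≤ k := Nat.cast_le.2 hk
    linarith
  have hk1 : (1 : ℝ) / (2 * k) ≤ 1 := by
    have : (2 : ℝ) ≤ k := Nat.cast_le.2 hk
    rw [div_le_one hk0]
    linarith
  have key := solve_rec (d := c.d) (by have := c.d3; omega) (fun R => (c.Phi R (k + 1) : ℝ))
    (δ := 1 / (2 * k)) (K := (kstep c.d c.β * K : ℕ)) (by positivity)
    (Nat.cast_nonneg _) (fun R hR => by simp [Phi, tup_empty hR]) (fun R hR => by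
      have h1 := c.recur R hk
      have h2 := h R
      have h4 := c.ext_le R (k + 1)
      have h5 : (2 * k + 1) * (c.Tup R (k + 1)).card + 4 * (c.TExt R (k + 1)).card +
          (R.card - c.d) * c.Phi R (k + 1) ≤ ∑ S ∈ R, c.Phi (R.erase S) (k + 1) +
            kstep c.d c.β * K * R.card.choose (c.d - 1) := by
        have a1 := Nat.mul_le_mul_left (4 * c.d) h2
        have a3 := Nat.mul_le_mul_right ((4 * 3 ^ c.d * c.β +
          4 * kext c.d c.β) * R.card.choose (c.d - 1)) hK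
        unfold kstep
        nlinarith
      have h6 := (Nat.cast_le (α := ℝ)).2 h5
      have h7 := congrArg (Nat.cast : ℕ → ℝ) (c.URec_Phi R k)
      rw [Nat.cast_add, Nat.cast_add, Nat.cast_add, Nat.cast_mul (R.card - c.d), Nat.cast_sub hR,
        Nat.cast_sum, Nat.cast_mul _ (R.card.choose (c.d - 1))] at h6
      refine le_trans ?_ h6
      have h8 : (1 / (2 * k) : ℝ) * c.Phi R (k + 1) ≤
          (c.Tup R (k + 1)).card + 2 * (c.TExt R (k + 1)).card := by
        rw [h7]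
        push_cast
        rw [mul_add, ← mul_assoc, one_div_mul_cancel hk0.ne', one_mul]
        have : (0 : ℝ) ≤ 2 * (c.TExt R (k + 1)).card := by positivity
        nlinarith
      push_cast at h7 ⊢
      nlinarith) R
  have h1 := congrArg (Nat.cast : ℕ → ℝ) (c.URec_Phi R k)
  have h2 : (2 * k : ℝ) * (c.Tup R (k + 1)).card ≤ c.Phi R (k + 1) := by
    rw [h1]
    push_cast
    have : (0 : ℝ) ≤ 2 * (c.TExt R (k + 1)).card := by positivity
    linarith
  have h3 := h2.trans key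
  rw [div_div_eq_mul_div, div_one, mul_comm _ (2 * k : ℝ), mul_assoc (2 * k : ℝ)] at h3
  exact_mod_cast le_of_mul_le_mul_left h3 hk0

theorem steps {K : ℕ} (hK : 1 ≤ K)
    (h : ∀ R : Finset ι, (c.Tup R 2).card ≤ K * R.card.choose (c.d - 1)) (R : Finset ι) :
    (c.Tup R c.d).card ≤ kstep c.d c.β ^ (c.d - 2) * K * R.card.choose (c.d - 1) := by
  have hs : 1 ≤ kstep c.d c.β := by
    have := c.d3
    unfold kstep
    omega
  have key : ∀ j (R : Finset ι), (c.Tup R (2 + j)).card ≤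
      kstep c.d c.β ^ j * K * R.card.choose (c.d - 1) := by
    intro j
    induction j with
    | zero => simpa using h
    | succ j ih =>
      intro R
      have h1 := c.step (k := 2 + j) (by omega) (Nat.mul_pos (Nat.one_le_pow _ _ hs) hK) ih R
      rwa [← mul_assoc, ← pow_succ'] at h1
  have h1 := key (c.d - 2) R
  rwa [show 2 + (c.d - 2) = c.d by have := c.d3; omega] at h1

end Ctx

end FP
end

-- merged part: Pool.Agent.Work.MP_8a5de9_co.Fl.Topo
section
/-!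
# Cells with popular points: the topological lemma and the recurrence
-/

open Set Filter Topology SA Function

namespace FP

set_option linter.unusedSectionVars false
set_option linter.unusedVariables false

/-- An additive choice of a filling. -/
theorem exists_fl {ι : Type} [DecidableEq ι] (𝓡 : Set (ι → SignType)) (T : Finset ι) :
    ∃ fl : (ι → (ι → SignType) → ZMod 2) →+ ((ι → SignType) → ZMod 2),
      (∀ k k', (∀ h ∈ T, k h = k' h) → fl k = fl k') ∧
        ∀ k, (∃ χ, Jump 𝓡 T k χ) → Jump 𝓡 T k (fl k) := by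
  classical
  let j : ((ι → SignType) → ZMod 2) →ₗ[ZMod 2] (ι → (ι → SignType) → ZMod 2) :=
    { toFun := fun χ h σ => if σ ∈ 𝓡 ∧ Fac T h σ then χ (update σ h 1) + χ (update σ h (-1)) else 0
      map_add' := fun χ χ' => by
        funext h σ
        simp only [Pi.add_apply]
        split_ifs
        · ring
        · simp
      map_smul' := fun r χ => by
        funext h σ
        simp only [Pi.smul_apply, smul_eq_mul, RingHom.id_apply]
        split_ifs
        · ring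
        · simp }
  let m : (ι → (ι → SignType) → ZMod 2) →+ (ι → (ι → SignType) → ZMod 2) :=
    AddMonoidHom.mk' (fun k h σ => if σ ∈ 𝓡 ∧ Fac T h σ then k h σ else 0) fun k k' => by
      funext h σ
      simp only [Pi.add_apply]
      split_ifs <;> simp
  obtain ⟨g₀, h₀⟩ := j.rangeRestrict.exists_rightInverse_of_surjective j.range_rangeRestrict
  obtain ⟨g, hg⟩ := g₀.exists_extend
  refine ⟨g.toAddMonoidHom.comp m, fun k k' h => congrArg g (funext fun i => funext fun σ => ?_),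
    fun k ⟨χ, hχ⟩ h σ a b => ?_⟩
  · exact if_ctx_congr Iff.rfl (fun f => by rw [h i f.2.1]) fun _ => rfl
  · have e1 : m k = j χ := funext fun i => funext fun τ =>
      if_ctx_congr Iff.rfl (fun f => (hχ i τ f.1 f.2).symm) fun _ => rfl
    have e2 : g (j χ) = g₀ (j.rangeRestrict χ) := LinearMap.congr_fun hg (j.rangeRestrict χ)
    have e3 : j (g₀ (j.rangeRestrict χ)) = j χ :=
      congrArg Subtype.val (LinearMap.congr_fun h₀ (j.rangeRestrict χ))
    have e4 : j (g (m k)) = m k := by rw [e1, e2, e3]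
    exact (if_pos ⟨a, b⟩).symm.trans ((congrFun (congrFun e4 h) σ).trans (if_pos ⟨a, b⟩))

variable {E ι : Type} [NormedAddCommGroup E] [NormedSpace ℝ E] [FiniteDimensional ℝ E]
  [Fintype ι] [DecidableEq ι]

namespace Ctx

open Hy

variable (c : Ctx E ι)

/-- The flat of `F` without the traces of the patches of `R`. -/
def XF (F R : Finset ι) : Set E := {x | x ∈ c.Lam F ∧ ∀ a ∈ R, ¬ (x ∈ c.P a ∧ x ∈ c.PF F)}

/-- Popular points. -/
def Pop (R₀ F : Finset ι) : Set E := {x | c.On R₀ F x ∧ c.Good R₀ x 0}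

/-- Cells inside the patches with a popular point. -/
def Cells (R₀ F R : Finset ι) : Set (Set E) :=
  {κ | κ ⊆ c.PF F ∧ ∃ x ∈ c.Pop R₀ F, κ = cc (c.XF F R) x}

/-- Their number. -/
noncomputable def NB (R₀ F R : Finset ι) : ℕ := if F = ∅ then 0 else (c.Cells R₀ F R).ncard

/-- The data of the topological lemma. -/
structure Cfg where
  R₀ : Finset ι
  F : Finset ι
  R : Finset ι
  B : Finset ι
  Kf : ι → Finset (Set E)
  hF : F ⊆ R₀
  hR : R ⊆ R₀
  hB : B ⊆ R₀
  dFR : Disjoint F R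
  dFB : Disjoint F B
  dRB : Disjoint R B
  card : F.card + 3 ≤ c.d
  hK : ∀ b ∈ B, ∀ κ, κ ∈ Kf b ↔ κ ∈ c.Cells R₀ (insert b F) R

variable {c}

namespace Cfg

variable (G : c.Cfg)

/-- All hyperplanes. -/
def H : Finset ι := G.R ∪ G.B

open Classical in
/-- The chain of the chosen cells. -/
noncomputable def Y0 (S : ι → Set E → ZMod 2) (b : ι) (τ : ι → SignType) : ZMod 2 :=
  ∑ κ ∈ G.Kf b, if ∃ x ∈ κ, c.sv G.H x = τ then S b κ else 0

/-- The corner chains. -/
noncomputable def Y (S : ι → Set E → ZMod 2) (J : Finset ι) (b : ι) (σ : ι → SignType) : ZMod 2 :=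
  cor (G.Y0 S b) J σ

/-- The prescribed jumps. -/
noncomputable def cj (S : ι → Set E → ZMod 2) (D : Finset ι → (ι → SignType) → ZMod 2)
    (J : Finset ι) (h : ι) (σ : ι → SignType) : ZMod 2 :=
  if h ∈ G.B then G.Y S J h σ else D (insert h J) σ

/-- `χ` fills the flat of `F ∪ J` with the jumps `k` and vanishes off the patches. -/
def Fil (J : Finset ι) (k : ι → (ι → SignType) → ZMod 2) (χ : (ι → SignType) → ZMod 2) : Prop :=
  Jump (c.Rz G.F G.H J univ) (G.H \ J) k χ ∧ ∀ x ∈ c.Lam (G.F ∪ J), x ∉ c.PF (G.F ∪ J) →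
    Cham (G.H \ J) (c.sv G.H x) → χ (c.sv G.H x) = 0

theorem dFH : Disjoint G.F G.H := Finset.disjoint_union_right.2 ⟨G.dFR, G.dFB⟩

end Cfg

variable {F F' R R' H Z : Finset ι} {x : E} {i : ι}

theorem XF_mono (h : R ⊆ R') : c.XF F R' ⊆ c.XF F R := fun _ hx => ⟨hx.1, fun a ha => hx.2 a (h ha)⟩

theorem diff_sub_XF (F R : Finset ι) : c.Lam F \ c.PF F ⊆ c.XF F R :=
  fun _ hx => ⟨hx.1, fun _ _ h => hx.2 h.2⟩

theorem pop_sub {R₀ : Finset ι} (hR : R ⊆ R₀) (h : Disjoint F R) : c.Pop R₀ F ⊆ c.XF F R :=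
  fun _ hx => ⟨fun i hi => (hx.1.2.1 i hi).1,
    fun a ha h' => hx.1.2.2 a (hR ha) (Finset.disjoint_right.1 h ha) h'.1⟩

end Ctx

namespace Ctx

open Hy

variable {c : Ctx E ι} {R₀ F R H J : Finset ι} {x x' : E}

/-- Points near a popular point are popular for their own flat. -/
theorem pop_near {F' : Finset ι} (hx : x ∈ c.Pop R₀ F) (hF : F' ⊆ F) :
    ∀ᶠ y in 𝓝 x, y ∈ c.Lam F' → (∀ i ∈ F, i ∉ F' → c.g i y ≠ 0) → y ∈ c.Pop R₀ F' := by
  obtain ⟨ρ, hρ⟩ := exists_loc (c := c) R₀ x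
  filter_upwards [Metric.ball_mem_nhds x hρ.1, hx.2.eventually_nhds] with y hy hg hL hne
  refine ⟨⟨hF.trans hx.1.1, fun i hi => ⟨hL i hi, ?_⟩, fun i hi hi' hp => ?_⟩, hg⟩
  · exact (hρ.2 y hy i (hx.1.1 (hF hi))).2 (hx.1.2.1 i (hF hi)).2
  · by_cases h1 : i ∈ F
    · exact hne i h1 hi' (c.Pz hp)
    · exact (hρ.2 y hy i hi).1 (hx.1.2.2 i hi h1) hp

theorem cc_near (hx : x ∈ c.XF F R) : ∀ᶠ y in 𝓝 x, y ∈ c.Lam F → y ∈ cc (c.XF F R) x := by
  have h1 : ∀ᶠ y in 𝓝 x, ∀ a ∈ R, ¬ (y ∈ c.P a ∧ y ∈ c.PF F) :=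
    (eventually_all_finset R).2 fun a ha =>
      ((c.cl a).inter (isClosed_PF F)).isOpen_compl.mem_nhds (hx.2 a ha)
  obtain ⟨ε, hε, h2⟩ := Metric.eventually_nhds_iff_ball.1 h1
  filter_upwards [Metric.ball_mem_nhds x hε] with y hy hL
  have h3 : Metric.ball x ε ∩ c.Lam F ⊆ c.XF F R := fun w hw => ⟨hw.2, h2 w hw.1⟩
  exact ((convex_ball x ε).inter (convex_Lam (c := c.toHy) F)).isPreconnected.subset_connectedComponentIn
    ⟨Metric.mem_ball_self hε, hx.1⟩ h3 ⟨hy, hL⟩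

theorem gen_pop (hR : R ⊆ R₀) (h : Disjoint F R) (h' : Disjoint F H) {κ : Set E}
    (hκ : κ ∈ c.Cells R₀ F R) :
    ∃ x ∈ c.Pop R₀ F, κ = cc (c.XF F R) x ∧ ∀ i ∈ H, c.g i x ≠ 0 := by
  obtain ⟨-, x, hx, rfl⟩ := hκ
  have hX := pop_sub hR h hx
  have h1 := lift (c := c.toHy) h' hX.1 (τ := chm H (c.sv H x))
    (fun i hi => if_neg fun h2 => hi h2.2)
    (fun i hi => (if_neg fun h2 => hi h2.1).trans (sv_of_notMem hi x))
  obtain ⟨y, ⟨y1, y2⟩, y3, y4⟩ :=
    (h1.and_eventually ((pop_near hx (Finset.Subset.refl F)).and (cc_near hX))).exists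
  refine ⟨y, y3 y1 fun i hi hi' => absurd hi hi', connectedComponentIn_eq (y4 y1), fun i hi h0 => ?_⟩
  exact cham_chm H (c.sv H x) i hi (y2 ▸ (sv_eq_zero hi).2 h0)

theorem finite_Cells (hR : R ⊆ R₀) (h : Disjoint F R) : (c.Cells R₀ F R).Finite := by
  refine (Set.finite_iUnion (f := fun σ : ι → SignType => {κ | ∃ x ∈ c.Lam F, c.sv R x = σ ∧
    (∀ i ∈ R, c.g i x ≠ 0) ∧ κ = cc (c.XF F R) x}) fun σ => Set.Subsingleton.finite ?_).subset
    fun κ hκ => ?_
  · rintro _ ⟨x, x1, x2, x3, rfl⟩ _ ⟨y, y1, y2, -, rfl⟩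
    have h1 : {w | w ∈ c.Lam F ∧ c.sv R w = σ} ⊆ c.XF F R := fun w hw => by
      refine ⟨hw.1, fun a ha hp => x3 a ha ?_⟩
      rw [← sv_eq_zero ha, x2, ← hw.2, sv_eq_zero ha]
      exact c.Pz hp.1
    exact connectedComponentIn_eq
      ((convex_face (c := c.toHy) F R σ).isPreconnected.subset_connectedComponentIn ⟨x1, x2⟩ h1 ⟨y1, y2⟩)
  · obtain ⟨x, x1, x2, x3⟩ := gen_pop hR h h hκ
    exact mem_iUnion.2 ⟨_, x, (pop_sub hR h x1).1, rfl, x3, x2⟩

namespace Cfg

variable (G : c.Cfg) (S S' : ι → Set E → ZMod 2) {J : Finset ι} {a b b' h : ι}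
  {u u' y : E} {κ : Set E}

theorem Y_add (J : Finset ι) (b : ι) (σ : ι → SignType) :
    G.Y (S + S') J b σ = G.Y S J b σ + G.Y S' J b σ := by
  unfold Y cor Y0
  rw [← Finset.sum_add_distrib]
  refine Finset.sum_congr rfl fun J₁ _ => ?_
  rw [← Finset.sum_add_distrib]
  refine Finset.sum_congr rfl fun κ _ => ?_
  split_ifs
  · rfl
  · exact (add_zero _).symm

theorem Y_empty (b : ι) (σ : ι → SignType) : G.Y S ∅ b σ = G.Y0 S b σ := cor_empty _ _

theorem Y_insert (ha : a ∉ J) (b : ι) (σ : ι → SignType) :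
    G.Y S (insert a J) b σ = G.Y S J b (update σ a 1) + G.Y S J b (update σ a (-1)) :=
  cor_insert _ ha σ

theorem CY_memR (ha : a ∈ G.R) : a ∈ G.H := Finset.mem_union_left _ ha

theorem CY_memB (hb : b ∈ G.B) : b ∈ G.H := Finset.mem_union_right _ hb

theorem CY_cell (hb : b ∈ G.B) (hκ : κ ∈ G.Kf b) (hu : u ∈ κ) :
    κ = cc (c.XF (insert b G.F) G.R) u := by
  obtain ⟨-, x, -, rfl⟩ := (G.hK b hb κ).1 hκ
  exact connectedComponentIn_eq hu

theorem CY_lam (hb : b ∈ G.B) (hκ : κ ∈ G.Kf b) (hu : u ∈ κ) : u ∈ c.XF (insert b G.F) G.R := by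
  obtain ⟨-, x, -, rfl⟩ := (G.hK b hb κ).1 hκ
  exact connectedComponentIn_subset _ _ hu

theorem Y0_iff (hb : b ∈ G.B) (hu : u ∈ c.Lam (insert b G.F)) (h0 : ∀ a ∈ G.R, c.g a u ≠ 0)
    (hκ : κ ∈ G.Kf b) : (∃ x ∈ κ, c.sv G.H x = c.sv G.H u) ↔ u ∈ κ := by
  refine ⟨?_, fun h => ⟨u, h, rfl⟩⟩
  rintro ⟨x, hx, e⟩
  rw [G.CY_cell hb hκ hx]
  refine (convex_face (insert b G.F) G.H (c.sv G.H u)).isPreconnected.subset_connectedComponentIn
    ⟨(G.CY_lam hb hκ hx).1, e⟩ ?_ ⟨hu, rfl⟩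
  intro w hw
  refine ⟨hw.1, fun a ha h' => h0 a ha ?_⟩
  rw [← sv_eq_zero (G.CY_memR ha), ← hw.2, sv_eq_zero (G.CY_memR ha)]
  exact c.Pz h'.1

theorem Y0_eq (hb : b ∈ G.B) (hu : u ∈ c.Lam (insert b G.F)) (h0 : ∀ a ∈ G.R, c.g a u ≠ 0)
    (h0' : ∀ a ∈ G.R, c.g a u' ≠ 0) (h : u' ∈ cc (c.XF (insert b G.F) G.R) u) :
    G.Y0 S b (c.sv G.H u) = G.Y0 S b (c.sv G.H u') := by
  classical
  have hu' : u' ∈ c.Lam (insert b G.F) := (connectedComponentIn_subset _ _ h).1
  have hx : u ∈ c.XF (insert b G.F) G.R := ⟨hu, fun a ha h' => h0 a ha (c.Pz h'.1)⟩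
  unfold Y0
  refine Finset.sum_congr rfl fun κ hκ => if_congr ?_ rfl rfl
  rw [G.Y0_iff hb hu h0 hκ, G.Y0_iff hb hu' h0' hκ]
  refine ⟨fun h1 => ?_, fun h1 => ?_⟩
  · rwa [G.CY_cell hb hκ h1]
  · rw [G.CY_cell hb hκ h1]
    have e : cc (c.XF (insert b G.F) G.R) u = cc (c.XF (insert b G.F) G.R) u' :=
      connectedComponentIn_eq h
    rw [← e]
    exact mem_connectedComponentIn hx

theorem Y0_edge (hb : b ∈ G.B) (hκ : κ ∈ G.Kf b) (hu : u ∈ κ) (h0 : ∀ a ∈ G.R, c.g a u ≠ 0) :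
    G.Y0 S b (c.sv G.H u) = S b κ := by
  have hl := (G.CY_lam hb hκ hu).1
  unfold Y0
  rw [Finset.sum_eq_single_of_mem κ hκ, if_pos ⟨u, hu, rfl⟩]
  intro κ' hκ' hne
  refine if_neg fun h => hne ?_
  rw [G.CY_cell hb hκ hu, G.CY_cell hb hκ' ((G.Y0_iff hb hl h0 hκ').1 h)]

theorem Y0_pair (hb : b ∈ G.B) (hy : y ∈ c.Lam (insert b G.F)) (hh : h ∈ G.H) (hne : h ≠ b)
    (h0 : c.g h y = 0) (h1 : h ∈ G.R → ¬ (y ∈ c.P h ∧ y ∈ c.PF (insert b G.F)))
    {τ : ι → SignType} (t1 : ∀ i, c.sv G.H y i ≠ 0 → τ i = c.sv G.H y i) (t2 : ∀ i ∉ G.H, τ i = 0)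
    (t3 : τ b = 0) (t4 : ∀ a ∈ G.R, a ≠ h → τ a ≠ 0) :
    G.Y0 S b (update τ h 1) = G.Y0 S b (update τ h (-1)) := by
  obtain ⟨ε, hε, hball⟩ : ∃ ε > 0, ∀ w ∈ Metric.ball y ε, h ∈ G.R →
      ¬ (w ∈ c.P h ∧ w ∈ c.PF (insert b G.F)) := by
    by_cases hR : h ∈ G.R
    · obtain ⟨ε, hε, h2⟩ := Metric.isOpen_iff.1
        ((c.cl h).inter (isClosed_PF (c := c) (insert b G.F))).isOpen_compl y (h1 hR)
      exact ⟨ε, hε, fun w hw _ => h2 hw⟩
    · exact ⟨1, one_pos, fun _ _ h2 => absurd h2 hR⟩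
  have key : ∀ s : SignType, ∃ w ∈ Metric.ball y ε, w ∈ c.Lam (insert b G.F) ∧
      c.sv G.H w = update τ h s := by
    intro s
    have h2 := lift (τ := update τ h s) G.dFH (Lam_mono (Finset.subset_insert b G.F) hy)
      (fun i hi => by
        have : i ≠ h := fun e => hi (by rw [e, sv_eq_zero hh]; exact h0)
        rw [update_of_ne this]
        exact t1 i hi)
      (fun i hi => by
        have : i ≠ h := fun e => hi (e ▸ hh)
        rw [update_of_ne this]
        exact t2 i hi)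
    obtain ⟨w, ⟨w1, w2⟩, w3⟩ := (h2.and_eventually (Metric.ball_mem_nhds y hε)).exists
    refine ⟨w, w3, fun i hi => ?_, w2⟩
    rcases Finset.mem_insert.1 hi with rfl | hi
    · rw [← sv_eq_zero (G.CY_memB hb), w2, update_of_ne hne.symm, t3]
    · exact w1 i hi
  have nz : ∀ s : SignType, s ≠ 0 → ∀ w, c.sv G.H w = update τ h s →
      ∀ a ∈ G.R, c.g a w ≠ 0 := by
    intro s hs w hw a ha
    rw [Ne, ← sv_eq_zero (G.CY_memR ha), hw]
    by_cases e : a = h
    · rwa [e, update_self]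
    · rw [update_of_ne e]
      exact t4 a ha e
  obtain ⟨u₁, b1, l1, s1⟩ := key 1
  obtain ⟨u₂, b2, l2, s2⟩ := key (-1)
  have n1 := nz 1 (by decide) u₁ s1
  rw [← s1, ← s2]
  refine G.Y0_eq S hb l1 n1 (nz (-1) (by decide) u₂ s2) ?_
  refine ((convex_ball y ε).inter (convex_face (insert b G.F) (G.R.erase h)
    (c.sv (G.R.erase h) u₁))).isPreconnected.subset_connectedComponentIn ⟨b1, l1, rfl⟩ ?_
    ⟨b2, l2, funext fun i => ?_⟩
  · intro w hw
    refine ⟨hw.2.1, fun a ha h' => ?_⟩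
    by_cases e : a = h
    · exact hball w hw.1 (e ▸ ha) (e ▸ h')
    · have h3 : a ∈ G.R.erase h := Finset.mem_erase.2 ⟨e, ha⟩
      refine n1 a ha ?_
      rw [← sv_eq_zero h3, ← hw.2.2, sv_eq_zero h3]
      exact c.Pz h'.1
  · by_cases hi : i ∈ G.R.erase h
    · have h3 := Finset.mem_erase.1 hi
      rw [sv_of_mem hi, sv_of_mem hi, ← sv_of_mem (G.CY_memR h3.2), ← sv_of_mem (G.CY_memR h3.2),
        s1, s2, update_of_ne h3.1, update_of_ne h3.1]
    · rw [sv_of_notMem hi, sv_of_notMem hi]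

theorem CY_pair (hb : b ∈ G.B) (hy : y ∈ c.Lam (insert b G.F)) (hh : h ∈ G.H) (hne : h ≠ b)
    (h0 : c.g h y = 0) (h1 : h ∈ G.R → ¬ (y ∈ c.P h ∧ y ∈ c.PF (insert b G.F)))
    (hJ : J ⊆ G.R) (hn : h ∉ J) (h2 : ∀ i ∈ J, c.g i y = 0)
    (h3 : ∀ a ∈ G.R, a ≠ h → a ∉ J → c.sv G.H y a ≠ 0) :
    G.Y S J b (update (c.sv G.H y) h 1) + G.Y S J b (update (c.sv G.H y) h (-1)) = 0 := by
  have e : G.Y S J b (update (c.sv G.H y) h 1) = G.Y S J b (update (c.sv G.H y) h (-1)) := by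
    unfold Y cor
    refine Finset.sum_congr rfl fun J₁ hJ₁ => ?_
    replace hJ₁ := Finset.mem_powerset.1 hJ₁
    have e1 : ∀ s, asg J J₁ (update (c.sv G.H y) h s) = update (asg J J₁ (c.sv G.H y)) h s := by
      intro s
      funext i
      by_cases hi : i = h
      · subst hi
        have : i ∉ J₁ := fun h' => hn (hJ₁ h')
        simp [asg, hn, this]
      · simp [asg, hi]
    have e2 : ∀ i ∉ J, asg J J₁ (c.sv G.H y) i = c.sv G.H y i := fun i hi => by
      have : i ∉ J₁ := fun h' => hi (hJ₁ h')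
      simp [asg, hi, this]
    rw [e1, e1]
    refine G.Y0_pair S hb hy hh hne h0 h1 (fun i hi => e2 i fun h' => hi ?_) (fun i hi => ?_) ?_
      fun a ha hah => ?_
    · rw [sv_eq_zero (G.CY_memR (hJ h'))]
      exact h2 i h'
    · rw [e2 i fun h' => hi (G.CY_memR (hJ h')), sv_of_notMem hi]
    · rw [e2 b fun h' => Finset.disjoint_left.1 G.dRB (hJ h') hb, sv_eq_zero (G.CY_memB hb)]
      exact hy b (Finset.mem_insert_self _ _)
    · by_cases h4 : a ∈ J
      · by_cases h5 : a ∈ J₁ <;> simp [asg, h4, h5]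
      · rw [e2 a h4]
        exact h3 a ha hah h4
  rw [e]
  exact CharTwo.add_self_eq_zero _

theorem CY_ins (hb : b ∈ G.B) (hy : y ∈ c.Lam (G.F ∪ J)) (h : c.sv G.H y b = 0) :
    y ∈ c.Lam (insert b G.F) := by
  intro i hi
  rcases Finset.mem_insert.1 hi with rfl | hi
  · exact (sv_eq_zero (G.CY_memB hb)).1 h
  · exact hy i (Finset.mem_union_left _ hi)

theorem Y_BB (hJ : J ⊆ G.R) (hb : b ∈ G.B) (hb' : b' ∈ G.B) (hy : y ∈ c.Lam (G.F ∪ J))
    (hr : Rid (G.H \ J) b b' (c.sv G.H y)) :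
    G.Y S J b (update (c.sv G.H y) b' 1) + G.Y S J b (update (c.sv G.H y) b' (-1)) = 0 := by
  obtain ⟨-, r2, r3, r4, r5, r6⟩ := hr
  exact G.CY_pair S hb (G.CY_ins hb hy r4) (G.CY_memB hb') r3.symm
    ((sv_eq_zero (G.CY_memB hb')).1 r5)
    (fun h => absurd hb' (Finset.disjoint_left.1 G.dRB h)) hJ (Finset.mem_sdiff.1 r2).2
    (fun i hi => hy i (Finset.mem_union_right _ hi))
    fun a ha h1 h2 => r6 a (Finset.mem_sdiff.2 ⟨G.CY_memR ha, h2⟩)
      (fun e => Finset.disjoint_left.1 G.dRB ha (e ▸ hb)) h1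

theorem Y_supp (hJ : J ⊆ G.R) (hb : b ∈ G.B) (hy : y ∈ c.Lam (G.F ∪ J))
    (hf : Fac (G.H \ J) b (c.sv G.H y)) (hn : y ∉ c.PF (insert b (G.F ∪ J))) :
    G.Y S J b (c.sv G.H y) = 0 := by
  obtain ⟨-, f2, f3⟩ := hf
  have hl := G.CY_ins hb hy f2
  have hne : ∀ a ∈ G.R, a ≠ b := fun a ha e => Finset.disjoint_left.1 G.dRB ha (e ▸ hb)
  rcases J.eq_empty_or_nonempty with rfl | ⟨a₀, ha₀⟩
  · rw [Y_empty]
    refine Finset.sum_eq_zero fun κ hκ => if_neg fun h => hn ?_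
    rw [Finset.union_empty]
    refine ((G.hK b hb κ).1 hκ).1 ((G.Y0_iff hb hl (fun a ha h' => ?_) hκ).1 h)
    exact f3 a (Finset.mem_sdiff.2 ⟨G.CY_memR ha, Finset.notMem_empty _⟩) (hne a ha)
      ((sv_eq_zero (G.CY_memR ha)).2 h')
  · obtain ⟨a, ha, h1⟩ : ∃ a ∈ J, ¬ (y ∈ c.P a ∧ y ∈ c.PF (insert b G.F)) := by
      by_contra h2
      have h3 : ∀ a ∈ J, y ∈ c.P a ∧ y ∈ c.PF (insert b G.F) := fun a ha => by
        by_contra h4
        exact h2 ⟨a, ha, h4⟩
      refine hn fun i hi => ?_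
      rcases Finset.mem_insert.1 hi with rfl | hi
      · exact (h3 a₀ ha₀).2 _ (Finset.mem_insert_self _ _)
      · rcases Finset.mem_union.1 hi with hi | hi
        · exact (h3 a₀ ha₀).2 _ (Finset.mem_insert_of_mem hi)
        · exact (h3 i hi).1
    rw [← Finset.insert_erase ha, G.Y_insert S (Finset.notMem_erase a J)]
    refine G.CY_pair S hb hl (G.CY_memR (hJ ha)) (hne a (hJ ha))
      (hy a (Finset.mem_union_right _ ha)) (fun _ => h1) ((J.erase_subset a).trans hJ)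
      (Finset.notMem_erase a J)
      (fun i hi => hy i (Finset.mem_union_right _ (Finset.mem_of_mem_erase hi)))
      fun a' ha' h2 h3 => f3 a' (Finset.mem_sdiff.2 ⟨G.CY_memR ha', fun h4 => ?_⟩) (hne a' ha')
    exact h3 (Finset.mem_erase.2 ⟨h2, h4⟩)

end Cfg

namespace Cfg

variable (G : c.Cfg)

theorem CBuild_lam {J : Finset ι} {y : E} {h : ι} (hy : y ∈ c.Lam (G.F ∪ J)) (hh : h ∈ G.H)
    (h0 : c.sv G.H y h = 0) : y ∈ c.Lam (G.F ∪ insert h J) := by
  intro i hi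
  rw [Finset.union_insert, Finset.mem_insert] at hi
  rcases hi with rfl | hi
  · exact (sv_eq_zero hh).1 h0
  · exact hy i hi

theorem CBuild_symm {T : Finset ι} {h h' : ι} {σ : ι → SignType} (r : Rid T h h' σ) :
    Rid T h' h σ :=
  ⟨r.2.1, r.1, r.2.2.1.symm, r.2.2.2.2.1, r.2.2.2.1, fun i hi a b => r.2.2.2.2.2 i hi b a⟩

/-- A ridge of `J` is a facet of `insert h J`. -/
theorem CBuild_rid (S : ι → Set E → ZMod 2) {D : Finset ι → (ι → SignType) → ZMod 2}
    {J : Finset ι} {h h' : ι} {σ : ι → SignType} (hσ : σ ∈ c.Rz G.F G.H J univ)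
    (r : Rid (G.H \ J) h h' σ) (hB : h ∉ G.B)
    (hF : G.Fil (insert h J) (G.cj S D (insert h J)) (D (insert h J))) :
    G.cj S D J h (update σ h' 1) + G.cj S D J h (update σ h' (-1)) = G.cj S D (insert h J) h' σ := by
  obtain ⟨y, -, hy, rfl⟩ := hσ
  have h1 := Finset.mem_sdiff.1 r.1
  have h2 := Finset.mem_sdiff.1 r.2.1
  have e : ∀ τ, G.cj S D J h τ = D (insert h J) τ := fun τ => if_neg hB
  rw [e, e]
  refine hF.1 h' _ ⟨y, mem_univ _, G.CBuild_lam hy h1.1 r.2.2.2.1, rfl⟩ ⟨?_, r.2.2.2.2.1, ?_⟩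
  · rw [Finset.mem_sdiff, Finset.mem_insert, not_or]
    exact ⟨h2.1, r.2.2.1.symm, h2.2⟩
  · intro i hi hne
    rw [Finset.mem_sdiff, Finset.mem_insert, not_or] at hi
    exact r.2.2.2.2.2 i (Finset.mem_sdiff.2 ⟨hi.1, hi.2.2⟩) hi.2.1 hne

theorem CBuild_evn (S : ι → Set E → ZMod 2) {D : Finset ι → (ι → SignType) → ZMod 2}
    {J : Finset ι} (hJ : J ⊆ G.R)
    (hF : ∀ h ∈ G.R, h ∉ J → G.Fil (insert h J) (G.cj S D (insert h J)) (D (insert h J))) :
    Evn (c.Rz G.F G.H J univ) (G.H \ J) (G.cj S D J) := by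
  have hR : ∀ h ∈ G.H \ J, h ∉ G.B → G.Fil (insert h J) (G.cj S D (insert h J)) (D (insert h J)) := by
    intro h hh hB
    have h1 := Finset.mem_sdiff.1 hh
    exact hF h ((Finset.mem_union.1 h1.1).resolve_right hB) h1.2
  have mixed : ∀ h h', ∀ σ ∈ c.Rz G.F G.H J univ, Rid (G.H \ J) h h' σ → h ∉ G.B → h' ∈ G.B →
      G.cj S D J h (update σ h' 1) + G.cj S D J h (update σ h' (-1)) =
        G.cj S D J h' (update σ h 1) + G.cj S D J h' (update σ h (-1)) := by
    intro h h' σ hσ r hB hB'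
    rw [G.CBuild_rid S hσ r hB (hR h r.1 hB)]
    unfold cj
    rw [if_pos hB', if_pos hB', if_pos hB', G.Y_insert S (Finset.mem_sdiff.1 r.1).2]
  intro h h' σ hσ r
  by_cases hB : h ∈ G.B
  · by_cases hB' : h' ∈ G.B
    · obtain ⟨y, -, hy, rfl⟩ := hσ
      unfold cj
      rw [if_pos hB, if_pos hB, if_pos hB', if_pos hB', G.Y_BB S hJ hB hB' hy r,
        G.Y_BB S hJ hB' hB hy (CBuild_symm r), add_zero]
    · rw [mixed h' h σ hσ (CBuild_symm r) hB' hB]
      exact CharTwo.add_self_eq_zero _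
  · by_cases hB' : h' ∈ G.B
    · rw [mixed h h' σ hσ r hB hB']
      exact CharTwo.add_self_eq_zero _
    · rw [G.CBuild_rid S hσ r hB (hR h r.1 hB),
        G.CBuild_rid S hσ (CBuild_symm r) hB' (hR h' r.2.1 hB')]
      unfold cj
      rw [if_neg hB, if_neg hB', Finset.insert_comm]
      exact CharTwo.add_self_eq_zero _

theorem build : ∃ Dd : (ι → Set E → ZMod 2) →+ (Finset ι → (ι → SignType) → ZMod 2), ∀ S J,
    (c.d ≤ G.F.card + J.card → Dd S J = 0) ∧ (G.F.card + J.card < c.d →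
      (∃ χ, Jump (c.Rz G.F G.H J univ) (G.H \ J) (G.cj S (Dd S) J) χ) →
        Jump (c.Rz G.F G.H J univ) (G.H \ J) (G.cj S (Dd S) J) (Dd S J)) := by
  choose fl h1 h2 using fun J => exists_fl (c.Rz G.F G.H J univ) (G.H \ J)
  have key : ∀ m : ℕ, ∃ Dd : (ι → Set E → ZMod 2) →+ (Finset ι → (ι → SignType) → ZMod 2), ∀ S J,
      c.d ≤ G.F.card + J.card + m →
        Dd S J = if G.F.card + J.card < c.d then fl J (G.cj S (Dd S) J) else 0 := by
    intro m
    induction m with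
    | zero => exact ⟨0, fun S J h => (if_neg (by omega)).symm⟩
    | succ m ih =>
      obtain ⟨D, hD⟩ := ih
      refine ⟨AddMonoidHom.mk' (fun S J => if G.F.card + J.card < c.d then fl J (G.cj S (D S) J)
        else 0) fun S S' => funext fun J => ?_, fun S J h => if_congr Iff.rfl (h1 J _ _ fun i hi =>
          funext fun σ => if_congr Iff.rfl rfl (congrFun (hD S _ ?_) σ)) rfl⟩
      · simp only [Pi.add_apply]
        split_ifs
        · rw [← map_add]
          refine congrArg _ (funext fun i => funext fun σ => ?_)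
          simp only [cj, Pi.add_apply, map_add]
          split_ifs
          exacts [G.Y_add S S' J i σ, rfl]
        · simp
      · rw [Finset.card_insert_of_notMem (Finset.mem_sdiff.1 hi).2]
        omega
  obtain ⟨D, hD⟩ := key c.d
  refine ⟨D, fun S J => ⟨fun h => ?_, fun h h' => ?_⟩⟩
  · rw [hD S J (by omega), if_neg (by omega)]
  · have h3 := h2 J _ h'
    rwa [← (hD S J (by omega)).trans (if_pos h)] at h3

theorem fil (S : ι → Set E → ZMod 2) {D : Finset ι → (ι → SignType) → ZMod 2}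
    (hD : ∀ J, (c.d ≤ G.F.card + J.card → D J = 0) ∧ (G.F.card + J.card < c.d →
      (∃ χ, Jump (c.Rz G.F G.H J univ) (G.H \ J) (G.cj S D J) χ) →
        Jump (c.Rz G.F G.H J univ) (G.H \ J) (G.cj S D J) (D J)))
    (h0 : ∀ J ⊆ G.R, G.F.card + J.card < c.d → ∀ x ∈ c.Lam (G.F ∪ J) \ c.PF (G.F ∪ J), ∃ z,
      x ∈ cc (c.Lam (G.F ∪ J) \ c.PF (G.F ∪ J)) z ∧ D J (chm (G.H \ J) (c.sv G.H z)) = 0)
    (m : ℕ) : ∀ J ⊆ G.R, c.d ≤ G.F.card + J.card + m → G.Fil J (G.cj S D J) (D J) := by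
  induction m with
  | zero =>
    intro J hJ hc
    rw [(hD J).1 hc]
    refine ⟨?_, fun _ _ _ _ => rfl⟩
    rintro i _ ⟨y, -, hy, rfl⟩ hf
    obtain ⟨a1, a2⟩ := Finset.mem_sdiff.1 hf.1
    refine absurd ((sv_eq_zero a1).1 hf.2.1) (ne_of_full hy ?_ fun e => (Finset.mem_union.1 e).elim
      (fun e' => Finset.disjoint_left.1 G.dFH e' a1) a2)
    rw [Finset.card_union_of_disjoint (G.dFR.mono_right hJ)]
    exact hc
  | succ m ih =>
    intro J hJ hc
    by_cases b1 : c.d ≤ G.F.card + J.card + m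
    · exact ih J hJ b1
    have hF : ∀ h ∈ G.R, h ∉ J → G.Fil (insert h J) (G.cj S D (insert h J)) (D (insert h J)) :=
      fun h a b => ih _ (Finset.insert_subset a hJ) (by
        rw [Finset.card_insert_of_notMem b]
        omega)
    have hJH : J ⊆ G.H := hJ.trans Finset.subset_union_left
    have hχ := (hD J).2 (by omega)
      ((sys G.dFH hJH isOpen_univ convex_univ).fill (G.CBuild_evn S hJ hF))
    refine ⟨hχ, fun x hx hx' hch => ?_⟩
    obtain ⟨z, a1, a2⟩ := h0 J hJ (by omega) x ⟨hx, hx'⟩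
    rw [← chm_eq hch, ← a2]
    refine val_const G.dFH hJH hχ isPreconnected_connectedComponentIn
      ((connectedComponentIn_subset _ _).trans sdiff_subset) (fun v hv => ?_) a1
      (mem_connectedComponentIn (cc_base a1))
    filter_upwards [(isClosed_PF (c := c) (G.F ∪ J)).isOpen_compl.mem_nhds
      (connectedComponentIn_subset _ _ hv).2] with y hy hl i hf
    have h1 := Finset.mem_sdiff.1 hf.1
    unfold cj
    by_cases hB : i ∈ G.B
    · rw [if_pos hB]
      exact G.Y_supp S hJ hB hl hf fun hp => hy (PF_mono (Finset.subset_insert _ _) hp)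
    · rw [if_neg hB]
      exact (hF i ((Finset.mem_union.1 h1.1).resolve_right hB) h1.2).2 y
        (G.CBuild_lam hl h1.1 hf.2.1) (fun hp => hy (PF_mono
          (Finset.union_subset_union_right (Finset.subset_insert _ _)) hp)) (fac_cham hf)

/-- Two popular points on the two sides of the cell `κ`. -/
def EdgePt (b : ι) (κ : Set E) (x₁ x₂ : E) : Prop :=
  x₁ ∈ c.Pop G.R₀ G.F ∧ x₂ ∈ c.Pop G.R₀ G.F ∧ ∃ x ∈ κ, Fac G.H b (c.sv G.H x) ∧
    c.sv G.H x₁ = update (c.sv G.H x) b 1 ∧ c.sv G.H x₂ = update (c.sv G.H x) b (-1)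

theorem CD_memB {b : ι} (hb : b ∈ G.B) : b ∈ G.H := Finset.mem_union_right _ hb

theorem CD_disj {b : ι} (hb : b ∈ G.B) : Disjoint (insert b G.F) G.R :=
  Finset.disjoint_insert_left.2 ⟨Finset.disjoint_right.1 G.dRB hb, G.dFR⟩

theorem CD_side {b : ι} (hb : b ∈ G.B) {x : E} (hx : x ∈ c.Pop G.R₀ (insert b G.F))
    {s : SignType} (hs : s ≠ 0) :
    ∃ y ∈ c.Pop G.R₀ G.F, c.sv G.H y = update (c.sv G.H x) b s := by
  have hbH := G.CD_memB hb
  have hL : x ∈ c.Lam (insert b G.F) := (pop_sub G.hR (G.CD_disj hb) hx).1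
  have h0 : c.sv G.H x b = 0 := (sv_eq_zero hbH).2 (hL b (Finset.mem_insert_self _ _))
  have h1 := lift (τ := update (c.sv G.H x) b s) G.dFH
    (Lam_mono (Finset.subset_insert b G.F) hL)
    (fun i hi => update_of_ne (fun e => hi (by rw [e]; exact h0)) _ _)
    (fun i hi => by
      rw [update_of_ne (fun e => hi (by rw [e]; exact hbH))]
      exact sv_of_notMem hi x)
  obtain ⟨y, ⟨hy, hy'⟩, hy''⟩ :=
    (h1.and_eventually (pop_near hx (Finset.subset_insert b G.F))).exists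
  refine ⟨y, hy'' hy fun i hi hi' e => ?_, hy'⟩
  have hib : i = b := (Finset.mem_insert.1 hi).resolve_right hi'
  subst hib
  have := (sv_eq_zero (c := c.toHy) (x := y) hbH).2 e
  rw [hy', update_self] at this
  exact hs this

theorem exists_edgePt {b : ι} (hb : b ∈ G.B) {κ : Set E} (hκ : κ ∈ G.Kf b) :
    ∃ x₁ x₂, G.EdgePt b κ x₁ x₂ := by
  have hbH := G.CD_memB hb
  have hd : Disjoint (insert b G.F) (G.H.erase b) :=
    Finset.disjoint_insert_left.2 ⟨Finset.notMem_erase _ _,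
      G.dFH.mono_right (Finset.erase_subset _ _)⟩
  obtain ⟨x, hx, rfl, hx'⟩ := gen_pop G.hR (G.CD_disj hb) hd ((G.hK b hb κ).1 hκ)
  have hX := pop_sub G.hR (G.CD_disj hb) hx
  obtain ⟨x₁, p₁, e₁⟩ := G.CD_side hb hx (s := 1) (by decide)
  obtain ⟨x₂, p₂, e₂⟩ := G.CD_side hb hx (s := -1) (by decide)
  refine ⟨x₁, x₂, p₁, p₂, x, mem_connectedComponentIn hX, ⟨hbH, ?_, fun i hi hne e => ?_⟩, e₁, e₂⟩
  · exact (sv_eq_zero hbH).2 (hX.1 b (Finset.mem_insert_self _ _))
  · exact hx' i (Finset.mem_erase.2 ⟨hne, hi⟩) ((sv_eq_zero hi).1 e)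

theorem CD_off {z : E} (hz : z ∈ c.XF G.F G.H) :
    ∀ᶠ y in 𝓝 z, ∀ a ∈ G.H, ¬ (y ∈ c.P a ∧ y ∈ c.PF G.F) := by
  rw [Filter.eventually_all_finset]
  intro a ha
  exact ((c.cl a).inter (isClosed_PF G.F)).isOpen_compl.mem_nhds (hz.2 a ha)

theorem CD_jump0 (S : ι → Set E → ZMod 2) {Dd : Finset ι → (ι → SignType) → ZMod 2}
    (h : ∀ J ⊆ G.R, J.card < c.d - G.F.card → G.Fil J (G.cj S Dd J) (Dd J)) {y : E}
    (hy : ∀ a ∈ G.H, ¬ (y ∈ c.P a ∧ y ∈ c.PF G.F)) (hL : y ∈ c.Lam (G.F ∪ ∅)) {i : ι}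
    (hi : Fac (G.H \ ∅) i (c.sv G.H y)) : G.cj S Dd ∅ i (c.sv G.H y) = 0 := by
  have hiH : i ∈ G.H := (Finset.mem_sdiff.1 hi.1).1
  unfold cj
  split_ifs with hB
  · refine G.Y_supp S (Finset.empty_subset _) hB hL hi fun hP => hy i hiH ⟨?_, ?_⟩
    · exact hP i (Finset.mem_insert_self _ _)
    · exact PF_mono (Finset.subset_union_left.trans (Finset.subset_insert _ _)) hP
  · have hR : i ∈ G.R := (Finset.mem_union.1 hiH).resolve_right hB
    have hc := G.card
    refine (h (insert i ∅) (by simpa using hR) (by simp; omega)).2 y (fun j hj => ?_)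
      (fun hP => hy i hiH ⟨?_, ?_⟩) (fun j hj => ?_)
    · rcases Finset.mem_union.1 hj with hj | hj
      · exact hL j (Finset.mem_union_left _ hj)
      · have : j = i := by simpa using hj
        rw [this]
        exact (sv_eq_zero hiH).1 hi.2.1
    · exact hP i (Finset.mem_union_right _ (Finset.mem_insert_self _ _))
    · exact PF_mono Finset.subset_union_left hP
    · have hj' := Finset.mem_sdiff.1 hj
      exact hi.2.2 j (Finset.mem_sdiff.2 ⟨hj'.1, Finset.notMem_empty _⟩) (by simpa using hj'.2)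

theorem exists_f (S : ι → Set E → ZMod 2) {Dd : Finset ι → (ι → SignType) → ZMod 2}
    (h : ∀ J ⊆ G.R, J.card < c.d - G.F.card → G.Fil J (G.cj S Dd J) (Dd J)) :
    ∃ f : E → ZMod 2, (∀ x, ∀ x' ∈ cc (c.XF G.F G.H) x, f x' = f x) ∧
      (∀ x ∈ c.Lam G.F \ c.PF G.F, f x = 0) ∧
      ∀ b ∈ G.B, ∀ κ ∈ G.Kf b, ∀ x₁ x₂, G.EdgePt b κ x₁ x₂ → S b κ = f x₁ + f x₂ := by
  have hc := G.card
  obtain ⟨hJ, hV⟩ := h ∅ (Finset.empty_subset _) (by simp; omega)
  have hU : G.F ∪ ∅ ⊆ G.F := by simp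
  refine ⟨fun x => Dd ∅ (chm (G.H \ ∅) (c.sv G.H x)), fun x x' hx' => ?_, fun x hx => ?_,
    fun b hb κ hκ x₁ x₂ he => ?_⟩
  · have hx : x ∈ c.XF G.F G.H := connectedComponentIn_nonempty_iff.1 ⟨x', hx'⟩
    refine val_const G.dFH (Finset.empty_subset _) hJ isPreconnected_connectedComponentIn
      (fun z hz => Lam_mono hU (connectedComponentIn_subset _ _ hz).1) (fun z hz => ?_) hx'
      (mem_connectedComponentIn hx)
    filter_upwards [G.CD_off (connectedComponentIn_subset _ _ hz)] with y hy hL i hi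
    exact G.CD_jump0 S h hy hL hi
  · have h1 := lift (τ := chm (G.H \ ∅) (c.sv G.H x)) G.dFH hx.1
      (fun i hi => if_neg fun e => hi e.2)
      (fun i hi => (if_neg fun e => hi (Finset.mem_sdiff.1 e.1).1).trans (sv_of_notMem hi x))
    obtain ⟨y, ⟨hy, hy'⟩, hy''⟩ :=
      (h1.and_eventually ((isClosed_PF G.F).isOpen_compl.mem_nhds hx.2)).exists
    have := hV y (Lam_mono hU hy) (fun hP => hy'' (PF_mono Finset.subset_union_left hP))
      (by rw [hy']; exact cham_chm _ _)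
    rw [hy'] at this
    exact this
  · obtain ⟨-, -, x, hx, hf, e₁, e₂⟩ := he
    have hch : ∀ s : SignType, s ≠ 0 → Cham (G.H \ ∅) (update (c.sv G.H x) b s) := by
      intro s hs i hi
      by_cases hib : i = b
      · rw [hib, update_self]; exact hs
      · rw [update_of_ne hib]; exact hf.2.2 i (Finset.mem_sdiff.1 hi).1 hib
    obtain ⟨-, x₀, -, hκ'⟩ := (G.hK b hb κ).1 hκ
    have hL : x ∈ c.Lam (insert b G.F) := by
      rw [hκ'] at hx
      exact (connectedComponentIn_subset _ _ hx).1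
    have h1 := hJ b (c.sv G.H x)
      ⟨x, mem_univ _, Lam_mono (hU.trans (Finset.subset_insert _ _)) hL, rfl⟩
      (by rw [Finset.sdiff_empty]; exact hf)
    have h2 : G.Y0 S b (c.sv G.H x) = S b κ := G.Y0_edge S hb hκ hx fun a ha e => by
      have haH : a ∈ G.H := Finset.mem_union_left _ ha
      exact hf.2.2 a haH (fun e' => Finset.disjoint_left.1 G.dRB ha (by rw [e']; exact hb))
        ((sv_eq_zero haH).2 e)
    show S b κ = Dd ∅ (chm (G.H \ ∅) (c.sv G.H x₁)) + Dd ∅ (chm (G.H \ ∅) (c.sv G.H x₂))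
    rw [e₁, e₂, chm_eq (hch 1 (by decide)), chm_eq (hch (-1) (by decide)), h1, cj, if_pos hb,
      G.Y_empty, h2]

end Cfg

end Ctx

namespace Ctx

open Hy

variable (c : Ctx E ι)

theorem CMain_empty {R₀ H : Finset ι} (hH : H ⊆ R₀) {x x' : E} (hx : x ∈ c.Pop R₀ ∅)
    (hx' : x' ∈ c.Pop R₀ ∅) : x' ∈ cc (c.XF ∅ H) x := by
  have key : ∀ y ∈ c.Pop R₀ ∅, y ∈ c.C R₀ := fun y hy =>
    hy.2.self_of_nhds (fun i hi => absurd rfl hi)
      fun i hi => hy.1.2.2 i hi (Finset.notMem_empty i)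
  have hs : c.C R₀ ⊆ c.XF ∅ H := fun y hy =>
    ⟨fun i hi => absurd hi (Finset.notMem_empty i),
      fun a ha h => connectedComponentIn_subset _ _ hy a (hH ha) h.1⟩
  exact (isPreconnected_connectedComponentIn (F := c.U R₀) (x := c.p)).subset_connectedComponentIn
    (key x hx) hs (key x' hx')

theorem CMain_cfg (G : c.Cfg) : ∑ b ∈ G.B, (G.Kf b).card ≤
    (low G.R (c.d - G.F.card)).card * c.β + c.NB G.R₀ G.F G.H := by
  classical
  have hH : G.H ⊆ G.R₀ := Finset.union_subset G.hR G.hB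
  obtain ⟨Dd, hD⟩ := G.build
  choose z hz using fun J : Finset ι => (c.b1 (G.F ∪ J)).reps
  let A : Finset (Σ _ : ι, Set E) := G.B.sigma G.Kf
  let ex : (A → ZMod 2) →+ (ι → Set E → ZMod 2) :=
    { toFun := fun S b κ => if h : (⟨b, κ⟩ : Σ _ : ι, Set E) ∈ A then S ⟨_, h⟩ else 0
      map_zero' := by
        funext b κ
        simp
      map_add' := fun S S' => by
        funext b κ
        by_cases h : (⟨b, κ⟩ : Σ _ : ι, Set E) ∈ A <;> simp [h] }
  have hex : ∀ (S : A → ZMod 2) (a : A), ex S a.1.1 a.1.2 = S a := fun S a => dif_pos a.2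
  let o' : (A → ZMod 2) →+ (low G.R (c.d - G.F.card) × Fin c.β → ZMod 2) :=
    AddMonoidHom.mk' (fun S k => Dd (ex S) k.1.1 (chm (G.H \ k.1.1) (c.sv G.H (z k.1.1 k.2))))
      fun S S' => funext fun k => by simp
  have hf : ∀ S : A → ZMod 2, ∃ f : E → ZMod 2, o' S = 0 →
      (∀ x, ∀ x' ∈ cc (c.XF G.F G.H) x, f x' = f x) ∧ (∀ x ∈ c.Lam G.F \ c.PF G.F, f x = 0) ∧
      ∀ b ∈ G.B, ∀ κ ∈ G.Kf b, ∀ x₁ x₂, G.EdgePt b κ x₁ x₂ → ex S b κ = f x₁ + f x₂ := by
    intro S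
    by_cases h : o' S = 0
    · obtain ⟨f, hf⟩ := G.exists_f (ex S) fun J hJ _ => G.fil (ex S) (hD (ex S))
        (fun J hJ hc x hx => (hz J x hx).elim fun k hk =>
          ⟨_, hk, congrFun h (⟨J, mem_low.2 ⟨hJ, by omega⟩⟩, k)⟩) c.d J hJ (by omega)
      exact ⟨f, fun _ => hf⟩
    · exact ⟨0, fun h' => absurd h' h⟩
  choose f hf using hf
  have hfin := finite_Cells (c := c) hH G.dFH
  let Γ : Finset (Set E) := if G.F = ∅ then ∅ else hfin.toFinset
  have hΓ : Γ.card = c.NB G.R₀ G.F G.H := by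
    by_cases h : G.F = ∅
    · simp [Γ, NB, h]
    · simp only [Γ, NB, if_neg h]
      exact (Set.ncard_eq_toFinset_card _ hfin).symm
  have hpt : ∀ κ : Γ, ∃ x, x ∈ κ.1 := by
    rintro ⟨κ, hκ⟩
    by_cases h : G.F = ∅
    · simp [Γ, h] at hκ
    · simp only [Γ, if_neg h, Set.Finite.mem_toFinset] at hκ
      obtain ⟨-, x, hx, rfl⟩ := hκ
      exact ⟨x, mem_connectedComponentIn (pop_sub hH G.dFH hx)⟩
  choose pt hpt using hpt
  have key := count_ker o' (fun S (κ : Γ) => f S (pt κ)) ?_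
  · rw [Fintype.card_prod, Fintype.card_coe, Fintype.card_coe, Fintype.card_coe, hΓ,
      Fintype.card_fin, Finset.card_sigma] at key
    exact key
  intro S S' hS hS' hψ
  obtain ⟨a1, a2, a3⟩ := hf S hS
  obtain ⟨b1, b2, b3⟩ := hf S' hS'
  funext a
  obtain ⟨hb, hκ⟩ := Finset.mem_sigma.1 a.2
  obtain ⟨x₁, x₂, he⟩ := G.exists_edgePt hb hκ
  rw [← hex S a, ← hex S' a, a3 _ hb _ hκ _ _ he, b3 _ hb _ hκ _ _ he]
  by_cases h : G.F = ∅
  · have h12 : x₂ ∈ cc (c.XF G.F G.H) x₁ := by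
      have h1 := he.1
      have h2 := he.2.1
      rw [h] at h1 h2 ⊢
      exact c.CMain_empty hH h1 h2
    rw [a1 _ _ h12, b1 _ _ h12, CharTwo.add_self_eq_zero, CharTwo.add_self_eq_zero]
  · have hx : ∀ x ∈ c.Pop G.R₀ G.F, f S x = f S' x := by
      intro x hx
      by_cases hb : cc (c.XF G.F G.H) x ⊆ c.PF G.F
      · have hm : cc (c.XF G.F G.H) x ∈ Γ := by
          simp only [Γ, if_neg h, Set.Finite.mem_toFinset]
          exact ⟨hb, x, hx, rfl⟩
        have h1 := hpt ⟨_, hm⟩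
        rw [← a1 _ _ h1, ← b1 _ _ h1]
        exact congrFun hψ ⟨_, hm⟩
      · obtain ⟨y, hy, hy₀⟩ := not_subset.1 hb
        have hy' : y ∈ c.Lam G.F \ c.PF G.F := ⟨(connectedComponentIn_subset _ _ hy).1, hy₀⟩
        rw [← a1 _ _ hy, ← b1 _ _ hy, a2 y hy', b2 y hy']
    rw [hx _ he.1, hx _ he.2.1]

theorem topo {R₀ F R B : Finset ι} (hF : F ⊆ R₀) (hR : R ⊆ R₀) (hB : B ⊆ R₀) (dFR : Disjoint F R)
    (dFB : Disjoint F B) (dRB : Disjoint R B) (hc : F.card + 3 ≤ c.d) :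
    ∑ b ∈ B, c.NB R₀ (insert b F) R ≤ (low R (c.d - F.card)).card * c.β + c.NB R₀ F (R ∪ B) := by
  classical
  have hd : ∀ b ∈ B, Disjoint (insert b F) R := fun b hb =>
    Finset.disjoint_insert_left.2 ⟨Finset.disjoint_right.1 dRB hb, dFR⟩
  let Kf : ι → Finset (Set E) := fun b =>
    if hb : b ∈ B then (finite_Cells (c := c) hR (hd b hb)).toFinset else ∅
  have hK : ∀ b ∈ B, ∀ κ, κ ∈ Kf b ↔ κ ∈ c.Cells R₀ (insert b F) R := fun b hb κ => by
    simp only [Kf, dif_pos hb, Set.Finite.mem_toFinset]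
  have h := c.CMain_cfg ⟨R₀, F, R, B, Kf, hF, hR, hB, dFR, dFB, dRB, hc, hK⟩
  refine le_of_eq_of_le (Finset.sum_congr rfl fun b hb => ?_) h
  simp only [Kf, dif_pos hb, NB, if_neg (Finset.insert_ne_empty b F)]
  exact Set.ncard_eq_toFinset_card _ _

/-- The expected number of popular bounded cells in all flats of codimension `j`. -/
noncomputable def nu (R₀ : Finset ι) (j : ℕ) (p : ℝ) : ℝ :=
  ∑ F ∈ R₀.powersetCard j, Ex (R₀ \ F) p fun R => (c.NB R₀ F R : ℝ)

theorem nu_zero (R₀ : Finset ι) (p : ℝ) : c.nu R₀ 0 p = 0 := by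
  simp [nu, NB, Ex_const]

theorem CNu_one {R₀ F : Finset ι} (hF : F ⊆ R₀) (hj : F.card + 3 ≤ c.d) {p r : ℝ} (hp : 0 < p)
    (hr : 0 < r) (h : p + r ≤ 1) :
    r * ∑ b ∈ R₀ \ F, Ex (R₀ \ insert b F) p (fun R => (c.NB R₀ (insert b F) R : ℝ)) ≤
      c.β * ∑ t ∈ Finset.range (c.d - F.card), (R₀.card * p) ^ t +
        Ex (R₀ \ F) (p + r) fun R => (c.NB R₀ F R : ℝ) := by
  set A := R₀ \ F with hA
  set e := c.d - F.card with he
  have hq : 0 < p + r := add_pos hp hr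
  set s := p / (p + r) with hs
  have s0 : 0 ≤ s := by positivity
  have s1 : s ≤ 1 := (div_le_one hq).2 (by linarith)
  have qs : (p + r) * s = p := by rw [hs]; field_simp
  have key : Ex A (p + r) (fun U => Ex U s fun R => ∑ b ∈ U \ R, (c.NB R₀ (insert b F) R : ℝ)) ≤
      Ex A (p + r) fun U => Ex U s fun R =>
        c.β * ∑ t ∈ Finset.range e, (R.card.choose t : ℝ) + c.NB R₀ F U := by
    refine Ex_mono hq.le h fun U hU => Ex_mono s0 s1 fun R hR => ?_
    have d1 : Disjoint F U := Finset.disjoint_of_subset_right hU Finset.disjoint_sdiff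
    have u1 : U ⊆ R₀ := hU.trans Finset.sdiff_subset
    have := c.topo hF (hR.trans u1) (Finset.sdiff_subset.trans u1 : U \ R ⊆ R₀)
      (Finset.disjoint_of_subset_right hR d1)
      (Finset.disjoint_of_subset_right Finset.sdiff_subset d1) Finset.disjoint_sdiff hj
    rw [Finset.union_sdiff_of_subset hR, mul_comm] at this
    exact_mod_cast this.trans (Nat.add_le_add_right (Nat.mul_le_mul_left _ (low_sum R e)) _)
  simp only [Ex_add, Ex_const, Ex_sum_notMem, Ex_mul] at key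
  rw [Ex_Ex, qs, Ex_sum, Ex_sum_mem] at key
  have e1 : ∀ b ∈ A, Ex (A.erase b) (p + r) (fun U => Ex ((insert b U).erase b) s
      fun R => (c.NB R₀ (insert b F) R : ℝ)) =
      Ex (R₀ \ insert b F) p fun R => (c.NB R₀ (insert b F) R : ℝ) := fun b _ => by
    have e2 := Ex_Ex (A.erase b) (p + r) s fun R => (c.NB R₀ (insert b F) R : ℝ)
    rw [qs] at e2
    rw [Finset.sdiff_insert, ← e2]
    refine Ex_congr fun U hU => ?_
    rw [Finset.erase_insert fun h' => Finset.notMem_erase b A (hU h')]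
  rw [Finset.sum_congr rfl e1, ← mul_assoc, show (1 - s) * (p + r) = r by linarith] at key
  refine key.trans (add_le_add_left (mul_le_mul_of_nonneg_left
    (Finset.sum_le_sum fun t _ => ?_) (Nat.cast_nonneg _)) _)
  rw [Ex_choose, mul_comm, mul_pow]
  refine mul_le_mul_of_nonneg_right ?_ (by positivity)
  exact_mod_cast (Nat.choose_le_pow _ _).trans
    (Nat.pow_le_pow_left (Finset.card_le_card Finset.sdiff_subset) _)

theorem CNu_sum (R₀ : Finset ι) (j : ℕ) (G : Finset ι → ℝ) (hG : ∀ F, 0 ≤ G F) :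
    ∑ F ∈ R₀.powersetCard (j + 1), G F ≤
      ∑ F ∈ R₀.powersetCard j, ∑ b ∈ R₀ \ F, G (insert b F) := by
  rw [Finset.sum_sigma']
  refine le_trans ?_ (Finset.sum_image_le_of_nonneg
    (s := (R₀.powersetCard j).sigma fun F => R₀ \ F) (g := fun a => insert a.2 a.1) (f := G)
    fun F _ => hG F)
  refine Finset.sum_le_sum_of_subset_of_nonneg (fun F hF => ?_) fun F _ _ => hG F
  obtain ⟨h1, h2⟩ := Finset.mem_powersetCard.1 hF
  obtain ⟨b, hb⟩ := Finset.card_pos.1 (show 0 < F.card by omega)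
  refine Finset.mem_image.2 ⟨⟨F.erase b, b⟩, Finset.mem_sigma.2 ⟨Finset.mem_powersetCard.2
    ⟨(Finset.erase_subset b F).trans h1, by rw [Finset.card_erase_of_mem hb, h2]; rfl⟩,
    Finset.mem_sdiff.2 ⟨h1 hb, Finset.notMem_erase b F⟩⟩, Finset.insert_erase hb⟩

theorem nu_nonneg (R₀ : Finset ι) (j : ℕ) {p : ℝ} (h0 : 0 ≤ p) (h1 : p ≤ 1) : 0 ≤ c.nu R₀ j p :=
  Finset.sum_nonneg fun _ _ => Ex_nonneg h0 h1 fun _ _ => Nat.cast_nonneg _

theorem nu_step (R₀ : Finset ι) {j : ℕ} (hj : j + 3 ≤ c.d) {p r ρ : ℝ} (hp : 0 < p) (hr : 0 < r)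
    (h : p + r ≤ 1) (h0 : 0 < ρ) (h1 : ρ ≤ 1) (h2 : ρ ≤ R₀.card * p) : r * c.nu R₀ (j + 1) p ≤
      c.β * c.d / ρ ^ c.d * (R₀.card : ℝ) ^ (c.d - 1) * p ^ (c.d - j - 1) + c.nu R₀ j (p + r) := by
  have a1 := CNu_sum R₀ j (fun F => Ex (R₀ \ F) p fun R => (c.NB R₀ F R : ℝ))
    fun F => Ex_nonneg hp.le (by linarith) fun _ _ => Nat.cast_nonneg _
  have a2 : ∑ t ∈ Finset.range (c.d - j), (R₀.card * p) ^ t ≤
      c.d / ρ ^ c.d * (R₀.card * p) ^ (c.d - j - 1) := by
    refine (Finset.sum_le_card_nsmul _ _ ((R₀.card * p) ^ (c.d - j - 1) / ρ ^ c.d)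
      fun t ht => ?_).trans ?_
    · have a3 := Finset.mem_range.1 ht
      rw [le_div_iff₀ (by positivity), show c.d - j - 1 = t + (c.d - j - 1 - t) by omega, pow_add]
      exact mul_le_mul_of_nonneg_left ((pow_le_pow_of_le_one h0.le h1 (by omega)).trans
        (pow_le_pow_left₀ h0.le h2 _)) (by positivity)
    · rw [Finset.card_range, nsmul_eq_mul, div_mul_eq_mul_div, mul_div_assoc]
      exact mul_le_mul_of_nonneg_right (Nat.cast_le.2 (Nat.sub_le _ _)) (by positivity)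
  refine (mul_le_mul_of_nonneg_left a1 hr.le).trans ?_
  rw [Finset.mul_sum]
  refine (Finset.sum_le_sum (g := fun F => c.β * (c.d / ρ ^ c.d * (R₀.card * p) ^ (c.d - j - 1)) +
    Ex (R₀ \ F) (p + r) fun R => (c.NB R₀ F R : ℝ)) fun F hF => ?_).trans ?_
  · obtain ⟨h1, h2⟩ := Finset.mem_powersetCard.1 hF
    subst h2
    exact (c.CNu_one h1 hj hp hr h).trans
      (add_le_add_left (mul_le_mul_of_nonneg_left a2 (Nat.cast_nonneg _)) _)
  rw [Finset.sum_add_distrib, Finset.sum_const, Finset.card_powersetCard, nsmul_eq_mul]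
  refine add_le_add_left ((mul_le_mul_of_nonneg_right (show (R₀.card.choose j : ℝ) ≤ R₀.card ^ j by
    exact_mod_cast Nat.choose_le_pow _ _) (by positivity)).trans (le_of_eq ?_)) _
  rw [show c.d - 1 = j + (c.d - j - 1) by omega, pow_add, mul_pow]
  ring

end Ctx

end FP
end

-- merged part: Pool.Agent.Work.MP_8a5de9_co.Fl.Pln
section
/-!
# The two-dimensional flats and the bound for the good sides of vertices
-/

open Set Filter Topology Metric SA Function

namespace FP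

set_option linter.unusedSectionVars false
set_option linter.unusedVariables false

theorem planar' {J : Type} [DecidableEq J] (L : Ln J) {A : Finset J} (hA : L.Ok A) {G : Pt → Prop}
    (hG : ∀ q, G q → q ∈ L.Fr A) (N : Finset J → ℕ)
    (hN : ∀ R ⊆ A, ∀ T : Finset Pt, (∀ q ∈ T, G q) →
      (∀ q ∈ T, ∀ q' ∈ T, q' ∈ cc (L.Fr R) q → q = q') → T.card ≤ N R + 1)
    (W : Finset (J × J)) (hW : ∀ w ∈ W, w.1 ∈ A ∧ w.2 ∈ A ∧ L.UW G w.1 w.2) {k n₀ : ℕ}
    (hk : A.card ≤ ack k k) (hK2 : Nat.log 2 A.card ≤ n₀) :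
    (W.card : ℝ) ≤ 2 ^ 40 * (k + 1) * (A.card + N A +
      ∑ i ∈ Finset.range n₀, 2 ^ i * Ex A ((i + 1) / 2 ^ i) fun R => (N R : ℝ)) := by
  have hE : ∀ i : ℕ, 0 ≤ Ex A (((i : ℝ) + 1) / 2 ^ i) fun R => (N R : ℝ) := fun i =>
    Ex_nonneg (Plan_rate i).1 (Plan_rate i).2 fun R _ => Nat.cast_nonneg _
  have hS : 0 ≤ (A.card : ℝ) + N A +
      ∑ i ∈ Finset.range n₀, 2 ^ i * Ex A ((i + 1) / 2 ^ i) fun R => (N R : ℝ) :=
    add_nonneg (by positivity) (Finset.sum_nonneg fun i _ => mul_nonneg (by positivity) (hE i))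
  rcases W.eq_empty_or_nonempty with rfl | ⟨w₀, hw₀⟩
  · rw [Finset.card_empty, Nat.cast_zero]
    exact mul_nonneg (by positivity) hS
  have hn1 : 1 ≤ A.card := Finset.card_pos.2 ⟨_, (hW w₀ hw₀).1⟩
  obtain ⟨π, A', M, hA', nm, hFr, hMG, hMi, hMc, hWd⟩ := trim L hA hG W hW
  have hA'c : A'.card ≤ A.card := Finset.card_le_card hA'
  have hM1 : M.card ≤ N A + 1 := hN A subset_rfl M hMG hMi
  have hWc : W.card ≤ A.card ^ 2 := by
    rw [sq, ← Finset.card_product]
    exact Finset.card_le_card fun w hw => Finset.mem_product.2 ⟨(hW w hw).1, (hW w hw).2.1⟩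
  have hcl : ∀ R ⊆ A, π.cl M (R ∩ A') ≤ N R + 1 := fun R hR =>
    Plan_cl (hFr R) fun T hT h => hN R hR T (fun q hq => hMG q (hT hq)) h
  have hK : 2 ^ Nat.log 2 A.card ≤ A.card := Nat.pow_log_le_self 2 (by omega)
  have hK1 : A.card < 2 ^ (Nat.log 2 A.card + 1) := Nat.lt_pow_succ_log_self (by norm_num) _
  generalize Nat.log 2 A.card = K at hK hK1 hK2
  obtain ⟨An, gp, hsub, hall, hc⟩ := Sg.merge_all nm.gp (fun i => 2 ^ (13 + i)) K
    (hA'c.trans (hK1.le.trans (Nat.pow_le_pow_right (by norm_num) (by omega))))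
  have hEM := Sg.card_EM (π := π) A' M
  have hcr : An.card ≤ 2 ^ 20 * A.card ^ 3 := by
    refine Plan_crude hn1 hK ?_ (fun i => ?_) hc
    · have : A.card ≤ A.card ^ 2 := Nat.le_self_pow (by norm_num) _
      omega
    · classical
      unfold Sg.nc
      exact Finset.card_image_le
  obtain ⟨-, -, m₀, hm₀, -⟩ := hWd w₀ hw₀
  have h0 : m₀ ∈ An := hsub (Sg.mem_EM.2 (Or.inr hm₀))
  have hW' : W.card ≤ 22008 * (k + 4 + 1) * An.card := by
    refine Sg.one_cell gp h0 (hall m₀ h0) W (fun w hw => ?_) ?_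
    · obtain ⟨h1, h2, m, hm, h3, x, h4, h5, h6, h7, h8, h9⟩ := hWd w hw
      refine ⟨h1, h2, h3, x, h4, h5, h6, h7, h8, h9.mono fun q hq h10 h11 => ?_⟩
      rw [show cc (π.XA A' An) m₀ = cc (π.XA A' An) m from
        connectedComponentIn_eq (hall m₀ h0 m (hsub (Sg.mem_EM.2 (Or.inr hm))))]
      exact connectedComponentIn_mono m subset_union_left (hq h10 h11)
    · have := ack_cube hk
      omega
  have hfine := Plan_fine (b := N A) (n₀ := n₀)
    (E := fun i => Ex A (((i : ℝ) + 1) / 2 ^ i) fun R => (N R : ℝ)) hn1 hK hK2 (by omega) hE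
    (fun i => by
      refine (Sg.few_colours nm i).trans (add_le_add (mul_le_mul_of_nonneg_left ?_ zero_le_two) ?_)
      · rw [← Ex_inter hA']
        refine (Ex_mono (g := fun R => (N R : ℝ) + 1) (Plan_rate i).1 (Plan_rate i).2
          fun R hR => ?_).trans ((Ex_add A _ _ fun _ => 1).trans ?_).le
        · exact_mod_cast hcl R hR
        · rw [Ex_const]
      · have : (A'.card : ℝ) ≤ A.card := by exact_mod_cast hA'c
        gcongr) hc
  have h1 : (W.card : ℝ) ≤ 22008 * (k + 4 + 1) * An.card := by exact_mod_cast hW'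
  have h2 : (22008 : ℝ) * (k + 4 + 1) ≤ 2 ^ 22 * (k + 1) := by
    have : (0 : ℝ) ≤ k := Nat.cast_nonneg _
    norm_num
    linarith
  refine h1.trans ((mul_le_mul h2 hfine (Nat.cast_nonneg _) (by positivity)).trans (le_of_eq ?_))
  ring

theorem split_four {ι κ : Type} [DecidableEq ι] [Fintype κ] {A : Finset ι} (W : Finset (ι × ι))
    (hW : ∀ w ∈ W, w.1 ∈ A ∧ w.2 ∈ A ∧ w.1 ≠ w.2) (r : ι × ι → κ → Prop) (hr : ∀ w ∈ W, ∃ k, r w k)
    {B : ℝ} (h : ∀ k, ∀ Y : Finset ι, ∀ W' ⊆ W, (∀ w ∈ W', r w k ∧ w.1 ∈ Y ∧ w.2 ∉ Y) →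
      (W'.card : ℝ) ≤ B) : (W.card : ℝ) ≤ 4 * Fintype.card κ * B := by
  classical
  have h1 : W.card ≤ ∑ k, (W.filter (r · k)).card :=
    (Finset.card_le_card fun w hw => (hr w hw).elim fun k hk => Finset.mem_biUnion.2
      ⟨k, Finset.mem_univ _, Finset.mem_filter.2 ⟨hw, hk⟩⟩).trans Finset.card_biUnion_le
  have h2 : ∀ k, ((W.filter (r · k)).card : ℝ) ≤ 4 * B := fun k => by
    have e2 : ∀ Y : Finset ι, (((W.filter (r · k)).filter fun w => w.1 ∈ Y ∧ w.2 ∉ Y).card : ℝ) =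
        ∑ w ∈ W.filter (r · k), if ({w.1} : Finset ι) ⊆ Y ∧ Disjoint {w.2} Y then 1 else 0 :=
      fun Y => by
        rw [Finset.card_filter]
        push_cast
        exact Finset.sum_congr rfl fun w _ => by
          simp only [Finset.singleton_subset_iff, Finset.disjoint_singleton_left]
    have e3 := Ex_mono (A := A) (ρ := 1 / 2) (g := fun _ => B) (by norm_num) (by norm_num)
      fun Y _ => h k Y ((W.filter (r · k)).filter fun w => w.1 ∈ Y ∧ w.2 ∉ Y)
        ((Finset.filter_subset _ _).trans (Finset.filter_subset _ _)) fun w hw =>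
          ⟨(Finset.mem_filter.1 (Finset.mem_filter.1 hw).1).2, (Finset.mem_filter.1 hw).2⟩
    simp only [e2] at e3
    rw [Ex_const, Ex_sum, Finset.sum_congr rfl (g := fun _ => 1 / 4) fun w hw => ?_] at e3
    · rw [Finset.sum_const, nsmul_eq_mul] at e3
      linarith
    · obtain ⟨a1, a2, a3⟩ := hW w (Finset.mem_filter.1 hw).1
      rw [Ex_ind (Finset.singleton_subset_iff.2 a1) (Finset.singleton_subset_iff.2 a2)
        (Finset.disjoint_singleton.2 a3)]
      norm_num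
  calc (W.card : ℝ) ≤ ∑ k, ((W.filter (r · k)).card : ℝ) := by exact_mod_cast h1
    _ ≤ ∑ _k : κ, 4 * B := Finset.sum_le_sum fun k _ => h2 k
    _ = _ := by
      rw [Finset.sum_const, Finset.card_univ, nsmul_eq_mul]
      ring

variable {E ι : Type} [NormedAddCommGroup E] [NormedSpace ℝ E] [FiniteDimensional ℝ E]
  [Fintype ι] [DecidableEq ι]

namespace Ctx

open Hy

/-- Coordinates in the flat of `F`. -/
structure Par (c : Ctx E ι) (F : Finset ι) where
  o : E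
  b1 : E
  b2 : E
  card : F.card + 2 = c.d
  ho : ∀ i ∈ F, c.g i o = 0
  h1 : ∀ i ∈ F, (c.g i).linear b1 = 0
  h2 : ∀ i ∈ F, (c.g i).linear b2 = 0
  z1 : c.z b1 = 1
  z2 : c.z b2 = 0
  ne : b2 ≠ 0

variable {c : Ctx E ι} {F : Finset ι}

theorem exists_par (hF : F.card + 2 = c.d) {x : E} (hx : x ∈ c.Lam F) : Nonempty (c.Par F) := by
  obtain ⟨u, hu, hu'⟩ := c.zgen _ x hx (by omega)
  obtain ⟨b, hb, hz, hb', -⟩ := c.ker2 hx hF
  exact ⟨⟨x, u, b, hF, hx, hu', hb', hu, hz, hb⟩⟩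

namespace Par

variable (P : c.Par F)

/-- The reflected coordinates. -/
def flip : c.Par F :=
  { P with
    b2 := -P.b2
    h2 := fun i hi => by simp [P.h2 i hi]
    z2 := by simp [P.z2]
    ne := neg_ne_zero.2 P.ne }

/-- The parametrisation. -/
def φ (q : ℝ × ℝ) : E := P.o + q.1 • P.b1 + q.2 • P.b2

/-- The vertical derivative of an equation. -/
def γ (j : ι) : ℝ := (c.g j).linear P.b2

/-- The slope. -/
noncomputable def sl (j : ι) : ℝ := -(c.g j).linear P.b1 / P.γ j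

/-- The intercept. -/
noncomputable def ic (j : ι) : ℝ := -c.g j P.o / P.γ j

/-- The point of the line number `j` over `x`. -/
noncomputable def pt (j : ι) (x : ℝ) : E := P.φ (x, P.sl j * x + P.ic j)

theorem UParA_aff (f : E →ᵃ[ℝ] ℝ) (q : ℝ × ℝ) :
    f (P.φ q) = f P.o + q.1 * f.linear P.b1 + q.2 * f.linear P.b2 := by
  have : P.φ q = (q.1 • P.b1 + q.2 • P.b2) +ᵥ P.o := by
    rw [φ, vadd_eq_add]
    abel
  rw [this, AffineMap.map_vadd, map_add, map_smul, map_smul, vadd_eq_add, smul_eq_mul, smul_eq_mul]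
  ring

theorem cont_φ : Continuous P.φ := by
  unfold φ
  fun_prop

theorem z_φ (q : ℝ × ℝ) : c.z (P.φ q) = c.z P.o + q.1 := by
  simp [φ, P.z1, P.z2]

theorem φ_mem (q : ℝ × ℝ) {i : ι} (hi : i ∈ F) : c.g i (P.φ q) = 0 := by
  rw [P.UParA_aff, P.ho i hi, P.h1 i hi, P.h2 i hi]
  ring

theorem inj : Function.Injective P.φ := by
  intro p q h
  have h1 : p.1 = q.1 := by
    have := congrArg c.z h
    rw [z_φ, z_φ] at this
    linarith
  have h2 : p.2 • P.b2 = q.2 • P.b2 := by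
    rw [φ, φ, h1] at h
    exact add_left_cancel h
  exact Prod.ext h1 (smul_left_injective ℝ P.ne h2)

theorem surj {x : E} (hx : x ∈ c.Lam F) : ∃ q, P.φ q = x := by
  obtain ⟨b, -, -, -, hb⟩ := c.ker2 hx P.card
  obtain ⟨s, hs⟩ := hb P.b2 P.ne P.z2 P.h2 (x - P.o - (c.z x - c.z P.o) • P.b1) (by simp [P.z1])
    fun i hi => by
      rw [map_sub, map_smul, aff_lin, hx i hi, P.ho i hi, P.h1 i hi]
      simp
  refine ⟨(c.z x - c.z P.o, s), ?_⟩
  rw [φ, ← hs]
  abel

theorem eval {j : ι} (h : P.γ j ≠ 0) (q : ℝ × ℝ) :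
    c.g j (P.φ q) = P.γ j * (q.2 - (P.sl j * q.1 + P.ic j)) := by
  rw [P.UParA_aff, sl, ic]
  have e : (c.g j).linear P.b2 = P.γ j := rfl
  rw [e]
  field_simp
  ring

theorem gam_ne {j : ι} (hj : j ∉ F) {q : ℝ × ℝ} (h : c.g j (P.φ q) = 0) : P.γ j ≠ 0 := fun h0 =>
  P.ne (c.kerz (Lam_insert (fun i hi => P.φ_mem q hi) h)
    (by rw [Finset.card_insert_of_notMem hj, ← P.card]) (fun l hl => by
      rcases Finset.mem_insert.1 hl with rfl | hl
      exacts [h0, P.h2 l hl]) P.z2)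

theorem cont_pt (j : ι) : Continuous (P.pt j) := P.cont_φ.comp (by fun_prop)

theorem pt_zero {j : ι} (h : P.γ j ≠ 0) (x : ℝ) : c.g j (P.pt j x) = 0 := by
  rw [pt, P.eval h, sub_self, mul_zero]

theorem pt_mem {j : ι} (h : P.γ j ≠ 0) (x : ℝ) : P.pt j x ∈ c.Lam (insert j F) :=
  Lam_insert (fun _ hi => P.φ_mem _ hi) (P.pt_zero h x)

/-- Good points of the flat. -/
def Gp (R : Finset ι) (q : ℝ × ℝ) : Prop :=
  (∀ i ∈ F, P.φ q ∈ c.rel i) ∧ (∀ T ∈ R, P.φ q ∉ c.P T) ∧ c.Good (F ∪ R) (P.φ q) 0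

/-- The side given by two patches and two signs. -/
def side (F : Finset ι) (T T' : ι) (σ σ' : SignType) : Tu ι :=
  (insert T (insert T' F), Function.update (Function.update 0 T' σ') T σ)

/-- `T` and `T'` cross in an inner vertex, and the wedge above the crossing is good. -/
def WW (R : Finset ι) (T T' : ι) : Prop :=
  P.sl T' < P.sl T ∧ P.γ T ≠ 0 ∧ P.γ T' ≠ 0 ∧ ∃ x, P.sl T * x + P.ic T = P.sl T' * x + P.ic T' ∧
    P.pt T x ∈ c.OF (insert T (insert T' F)) ∧ ∀ᶠ q : Pt in 𝓝 (x, P.sl T * x + P.ic T),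
      P.sl T * q.1 + P.ic T < q.2 → P.sl T' * q.1 + P.ic T' < q.2 → P.Gp R q

theorem UWedge_lin {j : ι} (h : P.γ j ≠ 0) (s : ℝ) :
    (c.g j).linear (P.b1 + s • P.b2) = P.γ j * (s - P.sl j) := by
  rw [map_add, map_smul, smul_eq_mul, sl]
  change _ + s * P.γ j = _
  field_simp
  ring

theorem UWedge_aux {R : Finset ι} (hR : Disjoint F R) {t : Tu ι} (ht : t ∈ c.Tup (F ∪ R) 2)
    {T T' : ι} (hT : T ∉ F) (hT' : T' ∉ F) (hne : T ≠ T') (hD : t.1 = insert T (insert T' F))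
    (hsupp : supp t.2 = {T, T'}) (hd : ¬ c.Up t T) (hu : c.Up t T')
    (hγ : SignType.sign (P.γ T') = t.2 T') :
    P.WW R T T' ∧
      t = side F T T' (SignType.sign (P.γ T)) (SignType.sign (P.γ T')) := by
  obtain ⟨hsub, hI, hs, -, hg⟩ := mem_Tup.1 ht
  have mT : T ∈ t.1 := by simp [hD]
  have mT' : T' ∈ t.1 := by simp [hD]
  have sT : t.2 T ≠ 0 := mem_supp.1 (by simp [hsupp])
  have sT' : t.2 T' ≠ 0 := mem_supp.1 (by simp [hsupp])
  have s0 : ∀ i, i ≠ T → i ≠ T' → t.2 i = 0 := fun i h1 h2 => by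
    by_contra h
    have := mem_supp.2 h
    simp [hsupp, h1, h2] at this
  have mF : ∀ i ∈ F, i ∈ t.1 := fun i hi => by simp [hD, hi]
  obtain ⟨u, hv⟩ := P.surj fun i hi => (hI.2 i (mF i hi)).1
  have g1 : P.γ T ≠ 0 := P.gam_ne hT (q := u) (hv ▸ (hI.2 T mT).1)
  have g2 : P.γ T' ≠ 0 := P.gam_ne hT' (q := u) (hv ▸ (hI.2 T' mT').1)
  have kF : ∀ s : ℝ, ∀ i ∈ F, (c.g i).linear (P.b1 + s • P.b2) = 0 := fun s i hi => by
    simp [P.h1 i hi, P.h2 i hi]
  have zz : ∀ s : ℝ, c.z (P.b1 + s • P.b2) = 1 := fun s => by simp [P.z1, P.z2]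
  have l1 : ∀ s : ℝ, (c.g T).linear (P.b1 + s • P.b2) = P.γ T * (s - P.sl T) :=
    P.UWedge_lin g1
  have l2 : ∀ s : ℝ, (c.g T').linear (P.b1 + s • P.b2) = P.γ T' * (s - P.sl T') :=
    P.UWedge_lin g2
  have k1 : ∀ j ∈ t.1, j ≠ T' → (c.g j).linear (P.b1 + P.sl T • P.b2) = 0 := by
    intro j hj h
    simp only [hD, Finset.mem_insert] at hj
    rcases hj with rfl | rfl | hj
    · rw [l1, sub_self, mul_zero]
    · exact absurd rfl h
    · exact kF _ j hj
  have k2 : ∀ j ∈ t.1, j ≠ T → (c.g j).linear (P.b1 + P.sl T' • P.b2) = 0 := by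
    intro j hj h
    simp only [hD, Finset.mem_insert] at hj
    rcases hj with rfl | rfl | hj
    · exact absurd rfl h
    · rw [l2, sub_self, mul_zero]
    · exact kF _ j hj
  have hsl : P.sl T' < P.sl T := by
    by_contra hc
    rcases (not_lt.1 hc).lt_or_eq with h | h
    · have e : c.Edge t T' (-(P.b1 + P.sl T • P.b2)) :=
        ⟨fun j hj h' => by rw [map_neg, k1 j hj h', neg_zero], by
          rw [map_neg, l2, ← mul_neg, neg_sub, sign_mul, sign_pos (sub_pos.2 h), mul_one, hγ]⟩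
      have := (e.up_iff hI mT' sT').1 hu
      rw [map_neg, zz] at this
      linarith
    · obtain ⟨e', he, hz⟩ := id hu
      have e : c.Edge t T' (e' - (2 * c.z e') • (P.b1 + P.sl T • P.b2)) :=
        ⟨fun j hj h' => by rw [map_sub, map_smul, k1 j hj h', he.1 j hj h', smul_zero, sub_zero], by
          rw [map_sub, map_smul, l2, h, sub_self, mul_zero, smul_zero, sub_zero, he.2]⟩
      have := (e.up_iff hI mT' sT').1 hu
      rw [map_sub, map_smul, zz, smul_eq_mul] at this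
      linarith
  have hγ' : SignType.sign (P.γ T) = t.2 T := by
    by_contra hc
    refine hd ⟨_, ⟨k2, ?_⟩, by rw [zz]; exact one_pos⟩
    rw [l1, sign_mul, sign_neg (sub_neg.2 hsl)]
    have := sign_ne_zero.2 g1
    revert hc sT this
    cases SignType.sign (P.γ T) <;> cases t.2 T <;> simp
  refine ⟨⟨hsl, g1, g2, u.1, ?_⟩, Prod.ext hD (funext fun i => ?_)⟩
  · have m : ∀ j ∈ t.1, P.γ j ≠ 0 → u.2 = P.sl j * u.1 + P.ic j := fun j hj g =>
      sub_eq_zero.1 ((mul_eq_zero.1 ((P.eval g u).symm.trans (hv ▸ hI.lam j hj))).resolve_left g)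
    have e : (u.1, P.sl T * u.1 + P.ic T) = u := Prod.ext rfl (m T mT g1).symm
    refine ⟨(m T mT g1).symm.trans (m T' mT' g2), ?_, ?_⟩
    · rw [pt, e, hv, ← hD]
      exact fun i hi => (hI.2 i hi).2
    rw [e]
    obtain ⟨ρ, hρ⟩ := exists_loc (c := c) (F ∪ R) (c.vtx t.1)
    have ho := hI.on hsub
    have hb : ∀ᶠ q in 𝓝 u, P.φ q ∈ ball (c.vtx t.1) ρ :=
      P.cont_φ.continuousAt.eventually (by rw [hv]; exact ball_mem_nhds _ hρ.1)
    filter_upwards [hb] with q hq a1 a2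
    have b1 : SignType.sign (c.g T (P.φ q)) = t.2 T := by
      rw [show c.g T (P.φ q) = _ from P.eval g1 q, sign_mul, sign_pos (sub_pos.2 a1), mul_one,
        hγ']
    have b2 : SignType.sign (c.g T' (P.φ q)) = t.2 T' := by
      rw [show c.g T' (P.φ q) = _ from P.eval g2 q, sign_mul, sign_pos (sub_pos.2 a2), mul_one,
        hγ]
    have n1 : c.g T (P.φ q) ≠ 0 := sign_ne_zero.1 (b1 ▸ sT)
    have n2 : c.g T' (P.φ q) ≠ 0 := sign_ne_zero.1 (b2 ▸ sT')
    refine ⟨fun i hi => ⟨P.φ_mem q hi, (hρ.2 _ hq i (Finset.mem_union_left _ hi)).2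
      (hI.2 i (mF i hi)).2⟩, fun S hS => ?_, ?_⟩
    · by_cases h : S ∈ t.1
      · simp only [hD, Finset.mem_insert] at h
        rcases h with rfl | rfl | h
        · exact fun h => n1 (c.Pz h)
        · exact fun h => n2 (c.Pz h)
        · exact absurd hS (Finset.disjoint_left.1 hR h)
      · exact (hρ.2 _ hq S (Finset.mem_union_right _ hS)).1
          (ho.2.2 S (Finset.mem_union_right _ hS) h)
    · refine (good_local (s := 0) hρ ho hq (fun i hi => (mem_supp.1 hi rfl).elim) hs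
        (fun i _ h => s0 i (by rintro rfl; exact n1 h) (by rintro rfl; exact n2 h))
        fun i hi h => ⟨rfl, ?_⟩).2 hg
      simp only [hD, Finset.mem_insert] at hi
      rcases hi with rfl | rfl | hi
      · exact b1.symm
      · exact b2.symm
      · exact absurd (P.φ_mem q hi) h
  · dsimp only [side]
    by_cases h1 : i = T
    · rw [h1, Function.update_self, hγ']
    · rw [Function.update_of_ne h1]
      by_cases h2 : i = T'
      · rw [h2, Function.update_self, hγ]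
      · rw [Function.update_of_ne h2, s0 i h1 h2]
        rfl

theorem uw_of_mem {R : Finset ι} (hR : Disjoint F R) {t : Tu ι} (ht : t ∈ c.Tup (F ∪ R) 2)
    (hF : t.1 \ supp t.2 = F) (hE : ¬ c.Ext t) :
    ∃ T ∈ R, ∃ T' ∈ R, ∃ Q : c.Par F, (Q = P ∨ Q = P.flip) ∧
      Q.WW R T T' ∧
      t = side F T T' (SignType.sign (Q.γ T)) (SignType.sign (Q.γ T')) := by
  obtain ⟨hsub, hI, hs, hc, -⟩ := mem_Tup.1 ht
  simp only [Ext, not_or, not_forall, not_not] at hE
  obtain ⟨⟨T, mT, hd⟩, T', mT', hu⟩ := hE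
  have hne : T ≠ T' := by
    rintro rfl
    exact hd hu
  have hsupp : supp t.2 = {T, T'} := (Finset.eq_of_subset_of_card_le
    (Finset.insert_subset mT (Finset.singleton_subset_iff.2 mT'))
    (by rw [hc, Finset.card_pair hne])).symm
  have nF : ∀ i ∈ supp t.2, i ∉ F := fun i hi h => by
    rw [← hF] at h
    exact (Finset.mem_sdiff.1 h).2 hi
  have mR : ∀ i ∈ supp t.2, i ∈ R := fun i hi =>
    (Finset.mem_union.1 (hsub (hs hi))).resolve_left (nF i hi)
  have hD : t.1 = insert T (insert T' F) := by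
    rw [← Finset.union_sdiff_of_subset hs, hF, hsupp, Finset.insert_union, Finset.singleton_union]
  obtain ⟨u, hv⟩ := P.surj fun i hi => (hI.2 i (by simp [hD, hi])).1
  have g2 : P.γ T' ≠ 0 :=
    P.gam_ne (nF T' mT') (q := u) (hv ▸ (hI.2 T' (hs mT')).1)
  by_cases hγ : SignType.sign (P.γ T') = t.2 T'
  · exact ⟨T, mR T mT, T', mR T' mT', P, Or.inl rfl,
      P.UWedge_aux hR ht (nF T mT) (nF T' mT') hne hD hsupp hd hu hγ⟩
  · refine ⟨T, mR T mT, T', mR T' mT', P.flip, Or.inr rfl,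
      P.flip.UWedge_aux hR ht (nF T mT) (nF T' mT') hne hD hsupp hd hu ?_⟩
    have e : P.flip.γ T' = -P.γ T' := map_neg _ _
    have h1 := sign_ne_zero.2 g2
    have h2 := mem_supp.1 mT'
    rw [e, Left.sign_neg]
    revert hγ h1 h2
    cases SignType.sign (P.γ T') <;> cases t.2 T' <;> simp

/-- The part of the line number `T` in one component of the trace. -/
def tr (w : E) (T : ι) : Set ℝ := {x | P.pt T x ∈ cc (c.Lam (insert T F) ∩ c.OF (insert T F)) w}

/-- One interval in each line. -/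
noncomputable def ln (w : ι → E) : Ln ι where
  sl := P.sl
  ic := P.ic
  I T := {x | P.γ T ≠ 0 ∧ x ∈ closure (P.tr (w T) T)}

variable {R₀ R A : Finset ι} {q q' : Pt} {w : ι → E}

theorem ln_ok (hA : Disjoint F A) : (P.ln w).Ok A := by
  have nF : ∀ j ∈ A, j ∉ F := fun j hj => Finset.disjoint_right.1 hA hj
  refine ⟨fun j _ => isClosed_const.and isClosed_closure, fun j hj => ?_,
    fun j hj j' hj' hne ⟨x, hx⟩ ⟨y, hy⟩ hs hi => ?_, fun j hj j' hj' k hk x h1 h2 h3 e e' => ?_⟩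
  · refine ⟨fun x hx y hy u hu => ⟨hx.1, (IsPreconnected.closure (isPreconnected_iff_ordConnected.2
      ⟨fun a ha b hb v hv => ?_⟩)).ordConnected.out hx.2 hy.2 hu⟩⟩
    refine line_mem (c := c) (A := insert j F) (x := P.pt j v) (a := P.pt j a) (b := P.pt j b)
      (by rw [Finset.card_insert_of_notMem (nF j hj), ← P.card]) isPreconnected_connectedComponentIn
      ((connectedComponentIn_subset _ _).trans inter_subset_left)
      ha hb (P.pt_mem hx.1 v) (Icc_subset_uIcc ?_)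
    simp only [pt, z_φ]
    exact ⟨add_le_add_right hv.1 _, add_le_add_right hv.2 _⟩
  · have e : P.pt j' 0 = P.pt j 0 := by
      rw [pt, pt, show P.sl j' = P.sl j from hs.symm, show P.ic j' = P.ic j from hi.symm]
    have h0 := ker (Lam_insert (e ▸ P.pt_mem hy.1 0) (P.pt_zero hx.1 0)) (by
      rw [Finset.card_insert_of_notMem fun f => (Finset.mem_insert.1 f).elim hne (nF j hj),
        Finset.card_insert_of_notMem (nF j' hj'), ← P.card]) (e := P.b1 + P.sl j • P.b2) fun k hk => by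
      rcases Finset.mem_insert.1 hk with rfl | hk
      · rw [P.UWedge_lin hx.1, sub_self, mul_zero]
      rcases Finset.mem_insert.1 hk with rfl | hk
      · rw [P.UWedge_lin hy.1, show P.sl j = P.sl k from hs, sub_self, mul_zero]
      · rw [map_add, map_smul, P.h1 k hk, P.h2 k hk, smul_zero, add_zero]
    have h1 := congrArg c.z h0
    rw [map_add, map_smul, P.z1, P.z2, smul_zero, add_zero, map_zero] at h1
    exact one_ne_zero h1
  · by_contra hn
    push Not at hn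
    have e1 : P.pt j' x = P.pt j x := congrArg (fun y => P.φ (x, y)) e.symm
    have e2 : P.pt k x = P.pt j x := congrArg (fun y => P.φ (x, y)) e'.symm
    have h4 := card_le (Lam_insert (Lam_insert (e2 ▸ P.pt_mem h3.1 x) (e1 ▸ P.pt_zero h2.1 x))
      (P.pt_zero h1.1 x))
    rw [Finset.card_insert_of_notMem (by simp [hn.1, hn.2.1, nF j hj]),
      Finset.card_insert_of_notMem (by simp [hn.2.2, nF j' hj']),
      Finset.card_insert_of_notMem (nF k hk), ← P.card] at h4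
    omega

theorem ln_fr (h : P.φ q ∈ c.XF F R) : q ∈ (P.ln w).Fr R := by
  rintro a ha ⟨⟨-, h1⟩, h2⟩
  have h3 : P.pt a q.1 ∈ c.PF (insert a F) :=
    closure_minimal (t := P.pt a ⁻¹' c.PF (insert a F)) (fun x hx i hi =>
      c.rs ((connectedComponentIn_subset _ _ hx).1 i hi) ((connectedComponentIn_subset _ _ hx).2 i hi))
      ((isClosed_PF _).preimage (P.cont_pt a)) h1
  rw [show P.pt a q.1 = P.φ q from congrArg P.φ (Prod.ext rfl h2.symm)] at h3
  exact h.2 a ha ⟨h3 a (Finset.mem_insert_self _ _), PF_mono (Finset.subset_insert _ _) h3⟩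

theorem FlatA_ind : IsInducing P.φ := by
  let L : ℝ × ℝ →ₗ[ℝ] E :=
    (LinearMap.toSpanSingleton ℝ E P.b1).coprod (LinearMap.toSpanSingleton ℝ E P.b2)
  have e : P.φ = (fun x => P.o + x) ∘ L := funext fun q => by
    simp only [φ, L, Function.comp, LinearMap.coprod_apply, LinearMap.toSpanSingleton_apply,
      add_assoc]
  have hL : Function.Injective L := Function.Injective.of_comp (f := fun x => P.o + x) (e ▸ P.inj)
  rw [e]
  exact (Homeomorph.addLeft P.o).isInducing.comp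
    (LinearMap.isClosedEmbedding_of_injective (LinearMap.ker_eq_bot.2 hL)).isInducing

theorem ln_cc (h : P.φ q' ∈ cc (c.XF F R) (P.φ q)) :
    q' ∈ cc ((P.ln w).Fr R) q := by
  have hs : cc (c.XF F R) (P.φ q) ⊆ c.XF F R := connectedComponentIn_subset _ _
  have hr : cc (c.XF F R) (P.φ q) ⊆ range P.φ := fun x hx => P.surj (hs hx).1
  have hc : IsPreconnected (P.φ ⁻¹' cc (c.XF F R) (P.φ q)) := by
    rw [← P.FlatA_ind.isPreconnected_image, image_preimage_eq_of_subset hr]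
    exact isPreconnected_connectedComponentIn
  exact hc.subset_connectedComponentIn
    (mem_connectedComponentIn (connectedComponentIn_nonempty_iff.1 ⟨_, h⟩))
    (fun u hu => P.ln_fr (hs hu)) h

theorem gp_pop (hF : F ⊆ R₀) (h : P.Gp (R₀ \ F) q) : P.φ q ∈ c.Pop R₀ F := by
  refine ⟨⟨hF, h.1, fun i hi hi' => h.2.1 i (Finset.mem_sdiff.2 ⟨hi, hi'⟩)⟩, ?_⟩
  have h1 := h.2.2
  rwa [Finset.union_sdiff_of_subset hF] at h1

theorem tr_nhds {T : ι} (hγ : P.γ T ≠ 0) {x : ℝ} {v : E} (h : x ∈ P.tr v T) : P.tr v T ∈ 𝓝 x := by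
  obtain ⟨ε, hε, h1⟩ := Metric.mem_nhds_iff.1 ((P.cont_pt T).continuousAt
    ((isOpen_OF _).mem_nhds (connectedComponentIn_subset _ _ h).2))
  refine mem_of_superset (ball_mem_nhds x hε) fun y hy => cc_trans h
    (((convex_ball x ε).isPreconnected.image _ (P.cont_pt T).continuousOn).subset_connectedComponentIn
      (mem_image_of_mem _ (mem_ball_self hε)) ?_ (mem_image_of_mem _ hy))
  rintro _ ⟨u, hu, rfl⟩
  exact ⟨P.pt_mem hγ u, h1 hu⟩

theorem ln_N (hF : F ⊆ R₀) (hR : R ⊆ R₀ \ F) (T : Finset Pt) (hT : ∀ q ∈ T, P.Gp (R₀ \ F) q)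
    (h : ∀ q ∈ T, ∀ q' ∈ T, q' ∈ cc ((P.ln w).Fr R) q → q = q') :
    T.card ≤ c.NB R₀ F R + c.β + 1 := by
  classical
  have hFn : F.Nonempty := Finset.card_pos.1 (by have := P.card; have := c.d3; omega)
  have hR0 : R ⊆ R₀ := hR.trans Finset.sdiff_subset
  have hd : Disjoint F R := Finset.disjoint_of_subset_right hR Finset.disjoint_sdiff
  have inj : ∀ q ∈ T, ∀ q' ∈ T, cc (c.XF F R) (P.φ q) = cc (c.XF F R) (P.φ q') → q = q' := by
    intro q hq q' hq' e
    refine h q hq q' hq' (P.ln_cc ?_)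
    rw [e]
    exact mem_connectedComponentIn (pop_sub hR0 hd (P.gp_pop hF (hT q' hq')))
  rw [NB, if_neg hFn.ne_empty,
    ← Finset.card_filter_add_card_filter_not (s := T) fun q => cc (c.XF F R) (P.φ q) ⊆ c.PF F]
  refine Nat.le_succ_of_le (add_le_add ?_ ?_)
  · rw [← Set.ncard_coe_finset]
    refine Set.ncard_le_ncard_of_injOn (fun q => cc (c.XF F R) (P.φ q)) (fun q hq => ?_)
      (fun q hq q' hq' e => ?_) (finite_Cells hR0 hd)
    · obtain ⟨h1, h2⟩ := Finset.mem_filter.1 (Finset.mem_coe.1 hq)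
      exact ⟨h2, _, P.gp_pop hF (hT q h1), rfl⟩
    · exact inj q (Finset.mem_filter.1 (Finset.mem_coe.1 hq)).1 q'
        (Finset.mem_filter.1 (Finset.mem_coe.1 hq')).1 e
  · obtain ⟨z, hz⟩ := (c.b1 F).reps
    refine (Finset.card_le_card_of_forall_subsingleton (t := Finset.univ)
      (fun q k => z k ∈ cc (c.XF F R) (P.φ q)) (fun q hq => ?_) fun k _ q hq q' hq' => ?_).trans
        (by simp)
    · obtain ⟨y, a1, a2⟩ := not_subset.1 (Finset.mem_filter.1 hq).2
      obtain ⟨k, hk⟩ := hz y ⟨(connectedComponentIn_subset _ _ a1).1, a2⟩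
      exact ⟨k, Finset.mem_univ _,
        cc_trans a1 (connectedComponentIn_mono _ (diff_sub_XF F R) (cc_symm hk))⟩
    · exact inj q (Finset.mem_filter.1 hq.1).1 q' (Finset.mem_filter.1 hq'.1).1
        ((connectedComponentIn_eq hq.2).trans (connectedComponentIn_eq hq'.2).symm)

theorem one_sample (hF : F ⊆ R₀) (hA : A ⊆ R₀ \ F) (W : Finset (ι × ι))
    (hW : ∀ a ∈ W, a.1 ∈ A ∧ a.2 ∈ A ∧ P.WW (R₀ \ F) a.1 a.2) {k n₀ : ℕ} (hk : A.card ≤ ack k k)
    (hn : Nat.log 2 A.card ≤ n₀) :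
    (W.card : ℝ) ≤ 4 * (c.β * c.β) * (2 ^ 40 * (k + 1) * (A.card + (c.NB R₀ F A + c.β) +
      ∑ i ∈ Finset.range n₀, 2 ^ i * Ex A ((i + 1) / 2 ^ i) fun R => (c.NB R₀ F R + c.β : ℝ))) := by
  have hd : Disjoint F A := Finset.disjoint_of_subset_right hA Finset.disjoint_sdiff
  choose z hz using fun T : ι => (c.b2 (insert T F) _ subset_rfl).reps
  have h := split_four (κ := Fin c.β × Fin c.β) W
    (fun a ha => ⟨(hW a ha).1, (hW a ha).2.1, fun e => (hW a ha).2.2.1.ne (by rw [e])⟩)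
    (fun a u => ∀ w : ι → E, w a.1 = z a.1 u.1 → w a.2 = z a.2 u.2 →
      (P.ln w).UW (P.Gp (R₀ \ F)) a.1 a.2) (fun a ha => ?_) fun u Y W' h1 h2 =>
    planar' (P.ln fun T => if T ∈ Y then z T u.1 else z T u.2) (P.ln_ok hd) (G := P.Gp (R₀ \ F))
      (fun q hq => P.ln_fr (pop_sub (hA.trans Finset.sdiff_subset) hd (P.gp_pop hF hq)))
      (fun R => c.NB R₀ F R + c.β) (fun R hR => P.ln_N hF (hR.trans hA)) W' (fun a ha =>
        ⟨(hW a (h1 ha)).1, (hW a (h1 ha)).2.1,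
          (h2 a ha).1 _ (if_pos (h2 a ha).2.1) (if_neg (h2 a ha).2.2)⟩) hk hn
  · simpa only [Fintype.card_prod, Fintype.card_fin, Nat.cast_mul, Nat.cast_add] using h
  obtain ⟨-, -, a1, a2, a3, x, a4, a5, a6⟩ := hW a ha
  have e : P.pt a.2 x = P.pt a.1 x := congrArg (fun y => P.φ (x, y)) a4.symm
  obtain ⟨u, hu⟩ := hz a.1 _ ⟨P.pt_mem a2 x, fun i hi =>
    a5 i (Finset.insert_subset_insert _ (Finset.subset_insert _ _) hi)⟩
  obtain ⟨u', hu'⟩ := hz a.2 _ ⟨P.pt_mem a3 x, fun i hi => e ▸ a5 i (Finset.mem_insert_of_mem hi)⟩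
  exact ⟨(u, u'), fun w b1 b2 => ⟨a1, x,
    mem_of_superset (P.tr_nhds a2 (v := w a.1) (b1 ▸ hu)) fun y hy => ⟨a2, subset_closure hy⟩,
    mem_of_superset (P.tr_nhds a3 (v := w a.2) (b2 ▸ hu')) fun y hy => ⟨a3, subset_closure hy⟩,
    a4, a6⟩⟩

open Classical in
/-- The number of good upper wedges in a flat. -/
noncomputable def nw (R : Finset ι) : ℕ := ((R ×ˢ R).filter fun a => P.WW R a.1 a.2).card

theorem par_bound (hF : F ⊆ R₀) {ρ : ℝ} (h0 : 0 ≤ ρ) (h1 : ρ ≤ 1) {k : ℕ}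
    (hk : R₀.card ≤ ack k k) (hn : 1 ≤ R₀.card) :
    ρ ^ 2 * P.nw (R₀ \ F) ≤ 4 * (c.β * c.β) * 2 ^ 40 * (k + 1) * ((1 + 2 * c.β) * R₀.card +
      Ex (R₀ \ F) ρ (fun R => (c.NB R₀ F R : ℝ)) + ∑ i ∈ Finset.range (Nat.log 2 R₀.card), 2 ^ i *
          Ex (R₀ \ F) (ρ * (((i : ℝ) + 1) / 2 ^ i)) fun R => (c.NB R₀ F R : ℝ)) := by
  classical
  unfold nw
  set A₀ := R₀ \ F with hA₀
  set W := (A₀ ×ˢ A₀).filter fun a => P.WW A₀ a.1 a.2 with hW
  have hWm : ∀ w ∈ W, w.1 ∈ A₀ ∧ w.2 ∈ A₀ ∧ P.WW A₀ w.1 w.2 := fun w hw => by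
    obtain ⟨h2, h3⟩ := Finset.mem_filter.1 hw
    exact ⟨(Finset.mem_product.1 h2).1, (Finset.mem_product.1 h2).2, h3⟩
  have hc : A₀.card ≤ R₀.card := Finset.card_le_card Finset.sdiff_subset
  have e1 : ρ ^ 2 * (W.card : ℝ) =
      Ex A₀ ρ fun A => ((W.filter fun w => w.1 ∈ A ∧ w.2 ∈ A).card : ℝ) := by
    have e2 : ∀ A : Finset ι, ((W.filter fun w => w.1 ∈ A ∧ w.2 ∈ A).card : ℝ) =
        ∑ w ∈ W, if ({w.1, w.2} : Finset ι) ⊆ A ∧ Disjoint ∅ A then 1 else 0 := fun A => by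
      rw [Finset.card_filter]
      push_cast
      exact Finset.sum_congr rfl fun w _ => by
        simp only [Finset.insert_subset_iff, Finset.singleton_subset_iff,
          Finset.disjoint_empty_left, and_true]
    simp only [e2]
    rw [Ex_sum, Finset.sum_congr rfl (g := fun _ => ρ ^ 2) fun w hw => ?_]
    · rw [Finset.sum_const, nsmul_eq_mul, mul_comm]
    · obtain ⟨h2, h3, h4⟩ := hWm w hw
      have h5 : w.1 ≠ w.2 := fun e => by
        have := h4.1
        rw [e] at this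
        exact lt_irrefl _ this
      rw [Ex_ind (Finset.insert_subset h2 (Finset.singleton_subset_iff.2 h3)) (Finset.empty_subset _)
        (Finset.disjoint_empty_right _), Finset.card_pair h5]
      simp
  rw [e1]
  refine (Ex_mono h0 h1 fun A hA => P.one_sample hF hA _ (fun w hw => ?_)
    ((Finset.card_le_card hA).trans (hc.trans hk))
    (Nat.log_mono_right ((Finset.card_le_card hA).trans hc))).trans ?_
  · obtain ⟨h2, h3⟩ := Finset.mem_filter.1 hw
    exact ⟨h3.1, h3.2, (hWm w h2).2.2⟩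
  rw [Ex_mul, Ex_mul, Ex_add, Ex_add, Ex_add, Ex_card, Ex_sum, Ex_const]
  simp only [Ex_mul, Ex_Ex, Ex_add, Ex_const, mul_add (2 ^ _ : ℝ), Finset.sum_add_distrib,
    ← Finset.sum_mul]
  rw [← mul_add (2 ^ 40 : ℝ), ← mul_assoc (4 * _), ← mul_assoc (4 * _)]
  refine mul_le_mul_of_nonneg_left ?_ (by positivity)
  have a1 : ρ * A₀.card ≤ R₀.card :=
    (mul_le_of_le_one_left (Nat.cast_nonneg _) h1).trans (Nat.cast_le.2 hc)
  have a2 : ∑ i ∈ Finset.range (Nat.log 2 R₀.card), (2 : ℝ) ^ i ≤ R₀.card := by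
    exact_mod_cast (Plan_geom _).trans (Nat.pow_log_le_self 2 (by omega))
  have a3 := mul_le_mul_of_nonneg_right a2 (Nat.cast_nonneg (α := ℝ) c.β)
  have a4 : (c.β : ℝ) * 1 ≤ c.β * R₀.card :=
    mul_le_mul_of_nonneg_left (by exact_mod_cast hn) (Nat.cast_nonneg _)
  linarith

end Par

end Ctx

theorem Main_pow {n e : ℕ} (h : e + 1 ≤ n) : n ^ e ≤ (e + 1) ^ e * e.factorial * n.choose e := by
  have h1 := Nat.pow_sub_le_descFactorial n e
  rw [Nat.descFactorial_eq_factorial_mul_choose] at h1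
  have h2 : n ≤ (e + 1) * (n + 1 - e) := by
    obtain ⟨t, rfl⟩ := Nat.exists_eq_add_of_le h
    rw [show e + 1 + t + 1 - e = t + 2 by omega]
    nlinarith [Nat.zero_le (e * t)]
  calc n ^ e ≤ ((e + 1) * (n + 1 - e)) ^ e := Nat.pow_le_pow_left h2 e
    _ = (e + 1) ^ e * (n + 1 - e) ^ e := mul_pow _ _ _
    _ ≤ (e + 1) ^ e * (e.factorial * n.choose e) := Nat.mul_le_mul_left _ h1
    _ = _ := by ring

theorem Main_split (c : Ctx E ι) (R₀ : Finset ι) :
    ∃ 𝓕₀ ⊆ R₀.powersetCard (c.d - 2), ∃ P : ∀ F ∈ 𝓕₀, c.Par F,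
      (c.Tup R₀ 2).card ≤ (c.TExt R₀ 2).card + ∑ F ∈ 𝓕₀.attach,
        ((P F.1 F.2).nw (R₀ \ F.1) + (P F.1 F.2).flip.nw (R₀ \ F.1)) := by
  classical
  obtain ⟨𝓕₀, h𝓕₀⟩ : ∃ 𝓕₀ : Finset (Finset ι),
      ∀ F, F ∈ 𝓕₀ ↔ F ∈ R₀.powersetCard (c.d - 2) ∧ Nonempty (c.Par F) :=
    ⟨(R₀.powersetCard (c.d - 2)).filter fun F => Nonempty (c.Par F), fun F => Finset.mem_filter⟩
  let P : ∀ F ∈ 𝓕₀, c.Par F := fun F hF => Classical.choice ((h𝓕₀ F).1 hF).2
  refine ⟨𝓕₀, fun F hF => ((h𝓕₀ F).1 hF).1, P, ?_⟩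
  let im : ∀ {F : Finset ι}, c.Par F → Finset (Tu ι) := fun {F} Q =>
    (((R₀ \ F) ×ˢ (R₀ \ F)).filter fun a =>
      Q.WW (R₀ \ F) a.1 a.2).image fun a =>
        Ctx.Par.side F a.1 a.2 (SignType.sign (Q.γ a.1))
          (SignType.sign (Q.γ a.2))
  have hs : c.Tup R₀ 2 ⊆ c.TExt R₀ 2 ∪ 𝓕₀.attach.biUnion fun F =>
      im (P F.1 F.2) ∪ im (P F.1 F.2).flip := by
    intro t ht
    by_cases hE : c.Ext t
    · refine Finset.mem_union_left _ ?_
      unfold Ctx.TExt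
      exact Finset.mem_filter.2 ⟨ht, hE⟩
    refine Finset.mem_union_right _ ?_
    obtain ⟨h1, h2, h3, h4, -⟩ := Ctx.mem_Tup.1 ht
    have hFs : t.1 \ supp t.2 ⊆ R₀ := Finset.sdiff_subset.trans h1
    have hFc : (t.1 \ supp t.2).card = c.d - 2 := by
      rw [Finset.card_sdiff_of_subset h3, h2.1, h4]
    have hF : t.1 \ supp t.2 ∈ 𝓕₀ := by
      refine (h𝓕₀ _).2 ⟨Finset.mem_powersetCard.2 ⟨hFs, hFc⟩, ?_⟩
      exact Ctx.exists_par (x := c.vtx t.1) (by have := c.d3; omega)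
        fun i hi => (h2.2 i (Finset.mem_sdiff.1 hi).1).1
    have ht' : t ∈ c.Tup ((t.1 \ supp t.2) ∪ (R₀ \ (t.1 \ supp t.2))) 2 := by
      rwa [Finset.union_sdiff_of_subset hFs]
    obtain ⟨T, hT, T', hT', Q', hQ', hU, hside⟩ :=
      (P _ hF).uw_of_mem Finset.disjoint_sdiff ht' rfl hE
    refine Finset.mem_biUnion.2 ⟨⟨_, hF⟩, Finset.mem_attach _ _, ?_⟩
    rcases hQ' with rfl | rfl
    · refine Finset.mem_union_left _ (Finset.mem_image.2 ⟨(T, T'), ?_, hside.symm⟩)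
      exact Finset.mem_filter.2 ⟨Finset.mem_product.2 ⟨hT, hT'⟩, hU⟩
    · refine Finset.mem_union_right _ (Finset.mem_image.2 ⟨(T, T'), ?_, hside.symm⟩)
      exact Finset.mem_filter.2 ⟨Finset.mem_product.2 ⟨hT, hT'⟩, hU⟩
  refine (Finset.card_le_card hs).trans ((Finset.card_union_le _ _).trans ?_)
  refine Nat.add_le_add_left (Finset.card_biUnion_le.trans ?_) _
  exact Finset.sum_le_sum fun F _ => (Finset.card_union_le _ _).trans
    (add_le_add Finset.card_image_le Finset.card_image_le)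

theorem Main_sum (c : Ctx E ι) (R₀ : Finset ι) {𝓕₀ : Finset (Finset ι)}
    (h : 𝓕₀ ⊆ R₀.powersetCard (c.d - 2)) (P : ∀ F ∈ 𝓕₀, c.Par F) {ρ : ℝ} (h0 : 0 ≤ ρ) (h1 : ρ ≤ 1)
    {k : ℕ} (hk : R₀.card ≤ ack k k) (hn : 1 ≤ R₀.card) :
    ρ ^ 2 * ∑ F ∈ 𝓕₀.attach, ((P F.1 F.2).nw (R₀ \ F.1) : ℝ) ≤
      4 * (c.β * c.β) * 2 ^ 40 * (k + 1) * ((1 + 2 * c.β) * (R₀.card : ℝ) ^ (c.d - 1) +
        (c.nu R₀ (c.d - 2) ρ + ∑ i ∈ Finset.range (Nat.log 2 R₀.card),
          2 ^ i * c.nu R₀ (c.d - 2) (ρ * (((i : ℝ) + 1) / 2 ^ i)))) := by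
  set G : Finset ι → ℝ := fun F => (1 + 2 * c.β) * R₀.card +
    Ex (R₀ \ F) ρ (fun R => (c.NB R₀ F R : ℝ)) + ∑ i ∈ Finset.range (Nat.log 2 R₀.card), 2 ^ i *
      Ex (R₀ \ F) (ρ * (((i : ℝ) + 1) / 2 ^ i)) fun R => (c.NB R₀ F R : ℝ) with hG
  have hr : ∀ i : ℕ, 0 ≤ ρ * (((i : ℝ) + 1) / 2 ^ i) ∧ ρ * (((i : ℝ) + 1) / 2 ^ i) ≤ 1 :=
    fun i => ⟨by positivity, mul_le_one₀ h1 (by positivity) (Plan_rate i).2⟩
  have hG0 : ∀ F, 0 ≤ G F := fun F => add_nonneg (add_nonneg (by positivity)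
    (Ex_nonneg h0 h1 fun _ _ => Nat.cast_nonneg _)) (Finset.sum_nonneg fun i _ =>
      mul_nonneg (by positivity) (Ex_nonneg (hr i).1 (hr i).2 fun _ _ => Nat.cast_nonneg _))
  have e1 : ∑ F ∈ R₀.powersetCard (c.d - 2), G F =
      (R₀.card.choose (c.d - 2) : ℝ) * ((1 + 2 * c.β) * R₀.card) + (c.nu R₀ (c.d - 2) ρ +
        ∑ i ∈ Finset.range (Nat.log 2 R₀.card),
          2 ^ i * c.nu R₀ (c.d - 2) (ρ * (((i : ℝ) + 1) / 2 ^ i))) := by
    simp only [hG, Finset.sum_add_distrib, Finset.sum_const, Finset.card_powersetCard, nsmul_eq_mul,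
      Ctx.nu, Finset.mul_sum, add_assoc]
    rw [Finset.sum_comm (s := R₀.powersetCard (c.d - 2))]
  have e2 : (R₀.card.choose (c.d - 2) : ℝ) * ((1 + 2 * c.β) * R₀.card) ≤
      (1 + 2 * c.β) * (R₀.card : ℝ) ^ (c.d - 1) := by
    rw [show c.d - 1 = c.d - 2 + 1 by have := c.d3; omega, pow_succ, mul_left_comm]
    exact mul_le_mul_of_nonneg_left (mul_le_mul_of_nonneg_right
      (by exact_mod_cast Nat.choose_le_pow _ _) (Nat.cast_nonneg _)) (by positivity)
  calc ρ ^ 2 * ∑ F ∈ 𝓕₀.attach, ((P F.1 F.2).nw (R₀ \ F.1) : ℝ)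
      ≤ ∑ F ∈ 𝓕₀.attach, 4 * (c.β * c.β) * 2 ^ 40 * (k + 1) * G F.1 := by
        rw [Finset.mul_sum]
        exact Finset.sum_le_sum fun F _ => (P F.1 F.2).par_bound
          (Finset.mem_powersetCard.1 (h F.2)).1 h0 h1 hk hn
    _ = 4 * (c.β * c.β) * 2 ^ 40 * (k + 1) * ∑ F ∈ 𝓕₀, G F := by
        rw [← Finset.mul_sum, Finset.sum_attach 𝓕₀ G]
    _ ≤ 4 * (c.β * c.β) * 2 ^ 40 * (k + 1) * ∑ F ∈ R₀.powersetCard (c.d - 2), G F :=
        mul_le_mul_of_nonneg_left
          (Finset.sum_le_sum_of_subset_of_nonneg h fun F _ _ => hG0 F) (by positivity)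
    _ ≤ _ := by
        rw [e1]
        exact mul_le_mul_of_nonneg_left (add_le_add_left e2 _) (by positivity)

theorem tup_two_alpha (d β : ℕ) (hd : 3 ≤ d) : ∃ K : ℕ, 1 ≤ K ∧
    ∀ {E ι : Type} [NormedAddCommGroup E] [NormedSpace ℝ E] [FiniteDimensional ℝ E] [Fintype ι]
      [DecidableEq ι] (c : Ctx E ι), c.d = d → c.β = β →
      ∀ (R₀ : Finset ι) (k : ℕ), R₀.card ≤ ack k k →
        (c.Tup R₀ 2).card ≤ K * (k + 1) * R₀.card.choose (d - 1) := by
  obtain ⟨ρ, C, h0, h1, hC, hν⟩ := nu_final d hd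
  obtain ⟨K₁, hK₁⟩ := exists_nat_ge
    (2 * (4 * (β * β) * 2 ^ 40) * (1 + 2 * β + C * (β * d / ρ ^ d)) / ρ ^ 2)
  refine ⟨kext d β + K₁ * ((d - 1 + 1) ^ (d - 1) * (d - 1).factorial) + 1, by omega, ?_⟩
  intro E ι _ _ _ _ _ c hc hm R₀ k hk
  subst hc hm
  by_cases hn : R₀.card < c.d
  · rw [Ctx.tup_empty hn]; simp
  have hn1 : 1 ≤ R₀.card := by omega
  obtain ⟨𝓕₀, hs, P, hP⟩ := Main_split c R₀
  have a1 := Main_sum c R₀ hs P h0.le h1 hk hn1
  have a2 := Main_sum c R₀ hs (fun F hF => (P F hF).flip) h0.le h1 hk hn1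
  have a3 := hν (fun i p => if ρ ≤ R₀.card * p then c.nu R₀ i p else 0)
    (c.β * c.d / ρ ^ c.d * (R₀.card : ℝ) ^ (c.d - 1)) (by positivity)
    (fun p => by rw [c.nu_zero, ite_self]) (fun i hi p r hp hr h => by
      by_cases f : ρ ≤ R₀.card * p
      · rw [if_pos f, if_pos (f.trans (mul_le_mul_of_nonneg_left (by linarith) (Nat.cast_nonneg _)))]
        exact c.nu_step R₀ hi hp hr h h0 h1 f
      · rw [if_neg f, mul_zero]
        refine add_nonneg (by positivity) ?_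
        split_ifs
        exacts [c.nu_nonneg R₀ i (by linarith) h, le_rfl]) (Nat.log 2 R₀.card)
  rw [if_pos (le_mul_of_one_le_left h0.le (by exact_mod_cast hn1)),
    Finset.sum_congr rfl fun i hi => congrArg _ (if_pos (by
      have b1 : (2 : ℝ) ^ i ≤ R₀.card := by
        exact_mod_cast (Nat.pow_le_pow_right two_pos (Finset.mem_range.1 hi).le).trans
          (Nat.pow_log_le_self 2 (by omega))
      rw [mul_left_comm, ← mul_div_assoc]
      refine le_mul_of_one_le_right h0.le ((one_le_div (by positivity)).2 (b1.trans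
        (le_mul_of_one_le_right (Nat.cast_nonneg _) ?_)))
      linarith [Nat.cast_nonneg (α := ℝ) i]))] at a3
  set X : ℝ := (R₀.card : ℝ) ^ (c.d - 1) with hX
  set W := ∑ F ∈ 𝓕₀.attach,
    ((P F.1 F.2).nw (R₀ \ F.1) + (P F.1 F.2).flip.nw (R₀ \ F.1)) with hW
  have hX0 : 0 ≤ X := by positivity
  have a4 : ρ ^ 2 * (W : ℝ) ≤ 2 * (4 * (c.β * c.β) * 2 ^ 40) *
      (1 + 2 * c.β + C * (c.β * c.d / ρ ^ c.d)) * ((k + 1) * X) := by
    have b := mul_le_mul_of_nonneg_left (add_le_add_right a3 ((1 + 2 * c.β) * X))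
      (show (0 : ℝ) ≤ 4 * (c.β * c.β) * 2 ^ 40 * (k + 1) by positivity)
    rw [hW]
    push_cast
    rw [Finset.sum_add_distrib, mul_add]
    linarith
  have a5 : W ≤ K₁ * ((k + 1) * R₀.card ^ (c.d - 1)) := by
    have hρ : 0 < ρ ^ 2 := by positivity
    rw [div_le_iff₀ hρ] at hK₁
    have b : ρ ^ 2 * (W : ℝ) ≤ ρ ^ 2 * (K₁ * ((k + 1) * X)) := by
      have := mul_le_mul_of_nonneg_right hK₁ (show (0 : ℝ) ≤ (k + 1) * X by positivity)
      linarith
    have b' := le_of_mul_le_mul_left b hρ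
    rw [hX] at b'
    exact_mod_cast b'
  have a6 := Main_pow (n := R₀.card) (e := c.d - 1) (by omega)
  have a7 := c.ext_le R₀ 2
  set Y := R₀.card.choose (c.d - 1)
  set D := (c.d - 1 + 1) ^ (c.d - 1) * (c.d - 1).factorial
  set K₀ := kext c.d c.β
  have a8 : K₁ * ((k + 1) * R₀.card ^ (c.d - 1)) ≤ K₁ * ((k + 1) * (D * Y)) := by gcongr
  calc (c.Tup R₀ 2).card ≤ K₀ * Y + K₁ * ((k + 1) * (D * Y)) :=
        hP.trans (add_le_add a7 (a5.trans a8))
    _ ≤ (K₀ + K₁ * D + 1) * (k + 1) * Y := by nlinarith [Nat.zero_le (K₀ * k * Y), Nat.zero_le (k * Y)]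

/-- The number of good sides of vertices. -/
theorem tup_alpha (d β : ℕ) (hd : 3 ≤ d) : ∃ K : ℕ,
    ∀ {E ι : Type} [NormedAddCommGroup E] [NormedSpace ℝ E] [FiniteDimensional ℝ E] [Fintype ι]
      [DecidableEq ι] (c : Ctx E ι), c.d = d → c.β = β → (c.Tup Finset.univ d).card ≤
        K * (Fintype.card ι ^ (d - 1) * (sInf {k | Fintype.card ι ≤ ack k k} + 1)) := by
  obtain ⟨K, hK, h⟩ := tup_two_alpha d β hd
  refine ⟨kstep d β ^ (d - 2) * K, fun {E ι} _ _ _ _ _ c hc hm => ?_⟩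
  subst hc hm
  have h3 := c.steps (K := K * (sInf {k | Fintype.card ι ≤ ack k k} + 1))
    (Nat.mul_pos hK (Nat.succ_pos _)) (fun R => h c rfl rfl R _ (R.card_le_univ.trans
      (Nat.sInf_mem (s := {k | Fintype.card ι ≤ ack k k}) ⟨_, (lt_ack_left _ _).le⟩))) Finset.univ
  refine h3.trans ((Nat.mul_le_mul_left _ (Nat.choose_le_pow _ _)).trans (le_of_eq ?_))
  rw [Finset.card_univ]
  ring

end FP
end

-- merged part: Pool.Agent.Work.MP_8a5de9_co.Fl.Out
section
/-!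
# Counting helpers, and the strata on which a boundary polynomial vanishes
-/

open Set Filter Topology SA

namespace FP

set_option linter.unusedSectionVars false

theorem enc_le {α γ : Type} (f : α → γ) (s : Set α) (N : ℕ)
    (h : ∀ T : Finset α, (∀ x ∈ T, x ∈ s) → InjOn f T → T.card ≤ N) : (f '' s).encard ≤ N := by
  classical
  by_contra hn
  obtain ⟨t, h1, h2⟩ := exists_subset_encard_eq (s := f '' s) (k := (N + 1 : ℕ))
    (by exact_mod_cast Order.add_one_le_of_lt (not_le.1 hn))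
  obtain ⟨t, rfl⟩ := (finite_of_encard_eq_coe h2).exists_finset_coe
  obtain ⟨u, a1, a2, rfl⟩ := Finset.exists_subset_injOn_image_eq_of_surjOn (f := f) s t h1
  rw [encard_coe_eq_coe_finsetCard, Finset.card_image_of_injOn a2, Nat.cast_inj] at h2
  have := h u a1 a2
  omega

theorem card_cover {α κ : Type} (T : Finset α) (s : Finset κ) (Y : κ → α → Prop) (n : κ → ℕ)
    (hc : ∀ x ∈ T, ∃ k ∈ s, Y k x)
    (h : ∀ k ∈ s, ∀ T' ⊆ T, (∀ x ∈ T', Y k x) → T'.card ≤ n k) : T.card ≤ ∑ k ∈ s, n k := by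
  classical
  refine (Finset.card_le_card (t := s.biUnion fun k => T.filter (Y k)) fun x hx => ?_).trans
    (Finset.card_biUnion_le.trans (Finset.sum_le_sum fun k hk =>
      h k hk _ (Finset.filter_subset _ _) fun x hx => (Finset.mem_filter.1 hx).2))
  obtain ⟨k, hk, h3⟩ := hc x hx
  exact Finset.mem_biUnion.2 ⟨k, hk, Finset.mem_filter.2 ⟨hx, h3⟩⟩

theorem sum_sub {κ κ' ι : Type} [Fintype κ'] [DecidableEq ι] (𝒰 : Finset κ) (D : κ → Finset ι)
    {e : κ' → Finset ι} (he : Function.Injective e) {d : ℕ} (h : ∀ t ∈ 𝒰, (D t).card ≤ d) :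
    ∑ F : κ', (𝒰.filter fun t => e F ⊆ D t).card ≤ 2 ^ d * 𝒰.card := by
  have h1 := Finset.sum_card_bipartiteAbove_eq_sum_card_bipartiteBelow (s := Finset.univ) (t := 𝒰)
    (fun F t => e F ⊆ D t)
  refine h1.le.trans ((Finset.sum_le_card_nsmul _ _ (2 ^ d) fun t ht => ?_).trans
    (by rw [smul_eq_mul, mul_comm]))
  refine (Finset.card_le_card_of_injOn (t := (D t).powerset) e (fun F hF => ?_) he.injOn).trans ?_
  · exact Finset.mem_coe.2 (Finset.mem_powerset.2 (Finset.mem_filter.1 hF).2)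
  · rw [Finset.card_powerset]
    exact Nat.pow_le_pow_right two_pos (h t ht)

theorem low_le {ι : Type} [Fintype ι] [DecidableEq ι] {F R : Finset ι} (h : Disjoint F R) (d : ℕ) :
    (low R (d - F.card)).card ≤ ((low Finset.univ d).filter fun D => F ⊆ D).card := by
  refine Finset.card_le_card_of_injOn (fun J => F ∪ J) (fun J hJ => ?_) fun J hJ J' hJ' e => ?_
  · have h1 := mem_low.1 (Finset.mem_coe.1 hJ)
    have h2 := Finset.card_union_le F J
    exact Finset.mem_coe.2 (Finset.mem_filter.2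
      ⟨mem_low.2 ⟨Finset.subset_univ _, h2.trans_lt (by omega)⟩, Finset.subset_union_left⟩)
  · rw [← Finset.union_sdiff_cancel_left (h.mono_right (mem_low.1 (Finset.mem_coe.1 hJ)).1),
      ← Finset.union_sdiff_cancel_left (h.mono_right (mem_low.1 (Finset.mem_coe.1 hJ')).1)]
    exact congrArg (· \ F) e

theorem sum_low {κ ι : Type} [Fintype κ] [Fintype ι] [DecidableEq ι] {e : κ → Finset ι}
    (he : Function.Injective e) (R : κ → Finset ι) (h : ∀ F, Disjoint (e F) (R F)) (d : ℕ)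
    (hn : 1 ≤ Fintype.card ι) :
    ∑ F : κ, (low (R F) (d - (e F).card)).card ≤ 2 ^ d * (d * Fintype.card ι ^ (d - 1)) :=
  (Finset.sum_le_sum fun F _ => low_le (h F) d).trans ((sum_sub (low Finset.univ d) id he
    fun _ ht => (mem_low.1 ht).2.le).trans (Nat.mul_le_mul_left _ (low_pow hn d)))

theorem cpt_small {α : Type} [TopologicalSpace α] {K : Set α} (hK : IsCompact K) {f : α → ℝ}
    (hf : Continuous f) (h : ∀ x ∈ K, 0 < f x) : ∀ᶠ η in 𝓝[>] (0 : ℝ), ∀ x ∈ K, η < f x := by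
  obtain ⟨a, ha, h1⟩ := hK.exists_forall_le' hf.continuousOn h
  filter_upwards [Ioo_mem_nhdsGT ha] with η hη x hx
  exact hη.2.trans_le (h1 x hx)

/-- Points in different components of a compact zero set stay separated in a thin thickening. -/
theorem thick {α : Type} [TopologicalSpace α] [T2Space α] {K : Set α} (hK : IsCompact K)
    {e : α → ℝ} (he : Continuous e) (h0 : ∀ y, 0 ≤ e y) {x y : α} (hx : x ∈ K ∩ {w | e w = 0})
    (hy : y ∈ K ∩ {w | e w = 0}) (h : y ∉ cc (K ∩ {w | e w = 0}) x) :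
    ∀ᶠ ε in 𝓝[>] (0 : ℝ), y ∉ cc (K ∩ {w | e w ≤ ε}) x := by
  have h1 : IsCompact (K ∩ {w | e w = 0}) := hK.inter_right (isClosed_eq he continuous_const)
  have := isCompact_iff_compactSpace.1 h1
  obtain ⟨Z, hZ⟩ : ∃ Z : {s : Set ↥(K ∩ {w | e w = 0}) // IsClopen s ∧ ⟨x, hx⟩ ∈ s},
      ⟨y, hy⟩ ∉ Z.1 := by
    by_contra hn
    push Not at hn
    refine h ?_
    rw [cc, connectedComponentIn_eq_image hx, connectedComponent_eq_iInter_isClopen]
    exact ⟨_, mem_iInter.2 hn, rfl⟩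
  obtain ⟨U, V, a1, a2, a3, a4, a5⟩ := SeparatedNhds.of_isCompact_isCompact
    (Z.2.1.isClosed.isCompact.image continuous_subtype_val)
    (Z.2.1.compl.isClosed.isCompact.image continuous_subtype_val)
    (disjoint_image_of_injective Subtype.val_injective disjoint_compl_right)
  filter_upwards [cpt_small (hK.diff (a1.union a2)) he fun w hw => lt_of_le_of_ne (h0 w) fun e0 => by
    by_cases hz : (⟨w, hw.1, e0.symm⟩ : ↥(K ∩ {w | e w = 0})) ∈ Z.1
    exacts [hw.2 (Or.inl (a3 ⟨_, hz, rfl⟩)), hw.2 (Or.inr (a4 ⟨_, hz, rfl⟩))]] with ε hε hc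
  refine Set.disjoint_left.1 a5 (isPreconnected_connectedComponentIn.subset_left_of_subset_union
    a1 a2 a5 (fun w hw => ?_) ⟨x, mem_connectedComponentIn (cc_base hc), a3 ⟨_, Z.2.2, rfl⟩⟩ hc)
    (a4 ⟨_, hZ, rfl⟩)
  by_contra hn
  have h2 := connectedComponentIn_subset _ _ hw
  exact (hε w ⟨h2.1, hn⟩).not_ge h2.2

namespace Hy

variable {E ι : Type} [NormedAddCommGroup E] [NormedSpace ℝ E] [FiniteDimensional ℝ E]
  [Fintype ι] [DecidableEq ι] (c : Hy E ι)

theorem small : ∀ᶠ η in 𝓝[>] (0 : ℝ), ∀ (D : Finset ι) (x : E), (∀ a ∈ D, |c.g a x| ≤ η) →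
    ∃ y, y ∈ c.Lam D := by
  refine eventually_all.2 fun D => ?_
  by_cases h : ∃ y, y ∈ c.Lam D
  · exact Eventually.of_forall fun _ _ _ => h
  have h1 : (fun j : D => -c.g j.1 0) ∈ ((LinearMap.range (c.lin D) : Set (D → ℝ)))ᶜ := by
    rintro ⟨y, hy⟩
    refine h ⟨0 + y, fun a ha => ?_⟩
    rw [aff_add, show (c.g a).linear y = -c.g a 0 from congrFun hy ⟨a, ha⟩, add_neg_cancel]
  obtain ⟨r, hr, hb⟩ := Metric.isOpen_iff.1
    (LinearMap.range (c.lin D)).closed_of_finiteDimensional.isOpen_compl _ h1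
  filter_upwards [Ioo_mem_nhdsGT hr] with η hη x hx
  refine absurd (LinearMap.mem_range_self (c.lin D) x) (hb ((dist_pi_lt_iff hr).2 fun j => ?_))
  have h2 := aff_add (c.g j.1) 0 x
  rw [zero_add] at h2
  rw [Real.dist_eq, sub_neg_eq_add, add_comm]
  exact (h2 ▸ hx j.1 j.2 :).trans_lt hη.2

/-- The shift of a doubled hyperplane. -/
noncomputable def sh (T : Finset ι) (η : ℝ) (a : ι × Bool) : ℝ :=
  if a.2 = true then (if a.1 ∈ T then 0 else -η) else η

theorem sh_abs (T : Finset ι) {η : ℝ} (hη : 0 < η) (a : ι × Bool) : |sh T η a| ≤ η := by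
  unfold sh
  split_ifs
  exacts [abs_zero.trans_le hη.le, ((abs_neg η).trans (abs_of_pos hη)).le, (abs_of_pos hη).le]

theorem sh_zero (T : Finset ι) {η : ℝ} (hη : 0 < η) {D : Finset (ι × Bool)} {x : E}
    (h : ∀ a ∈ D, c.g a.1 x + sh T η a = 0) :
    InjOn Prod.fst (D : Set (ι × Bool)) ∧ ∀ a ∈ D.image Prod.fst, |c.g a x| ≤ η := by
  refine ⟨?_, fun a ha => ?_⟩
  · rintro ⟨a, s⟩ h1 ⟨a', s'⟩ h2 (rfl : a = a')
    have h3 : sh T η (a, s) = sh T η (a, s') := add_left_cancel ((h _ h1).trans (h _ h2).symm)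
    cases s <;> cases s' <;> first | rfl | exfalso
    all_goals
      simp only [sh, Bool.false_eq_true, if_false, if_true] at h3
      split_ifs at h3 <;> linarith
  · obtain ⟨u, hu, rfl⟩ := Finset.mem_image.1 ha
    rw [eq_neg_of_add_eq_zero_left (h u hu), abs_neg]
    exact sh_abs T hη u

/-- The hyperplanes of `T` and two shifted copies of the others. -/
noncomputable def shift (T : Finset ι) {η : ℝ} (hη : 0 < η)
    (hs : ∀ (D : Finset ι) (x : E), (∀ a ∈ D, |c.g a x| ≤ η) → ∃ y, y ∈ c.Lam D) :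
    Hy E (ι × Bool) where
  g a := c.g a.1 + AffineMap.const ℝ E (sh T η a)
  d := c.d
  dim := c.dim
  gp D x h := by
    obtain ⟨h1, h2⟩ := c.sh_zero T hη h
    obtain ⟨y, hy⟩ := hs _ x h2
    have h3 := (c.gp _ y hy).comp
      (fun a : D => (⟨a.1.1, Finset.mem_image_of_mem _ a.2⟩ : D.image Prod.fst))
      fun a b e => Subtype.ext (h1 a.2 b.2 (congrArg Subtype.val e))
    simpa [Function.comp_def] using h3

theorem outer {d : ℕ} (c : Hy (Fin d → ℝ) ι) (T : Finset ι) {κ : Type} (A : Finset κ) {N M : ℕ}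
    {e : (Fin d → ℝ) → ℝ} (he : e ∈ Af d ^ N) (h0 : ∀ y, 0 ≤ e y) {w : κ → (Fin d → ℝ) → ℝ}
    (hw : ∀ k, w k ∈ Af d ^ M) (hv : ∀ D, T ⊆ D → D.card = c.d → ∀ v ∈ c.Lam D, e v ≠ 0) :
    Few {y | (∀ a, c.g a y = 0 ↔ a ∈ T) ∧ e y = 0 ∧ ∀ k ∈ A, 0 < w k y}
      ((low ((Finset.univ \ T) ×ˢ (Finset.univ : Finset Bool))
        (c.d - (T ×ˢ ({true} : Finset Bool)).card)).card * bet d (1 * 2 + N + A.card * M)) := by
  intro S h1 h2
  have ce := af_cont he
  have cg : ∀ a, Continuous fun y => |c.g a y| := fun a => (aff_cont (c.g a)).abs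
  obtain ⟨r, hr⟩ : ∃ r : ℝ, ∀ x ∈ S, ∑ j, x j ^ 2 < r :=
    ⟨∑ x ∈ S, ∑ j, x j ^ 2 + 1, fun x hx => lt_of_le_of_lt (Finset.single_le_sum
      (f := fun x : Fin d → ℝ => ∑ j, x j ^ 2) (fun _ _ => Finset.sum_nonneg fun _ _ => sq_nonneg _)
        hx) (lt_add_one _)⟩
  have E2 : ∀ᶠ η in 𝓝[>] (0 : ℝ), ∀ D, T ⊆ D → D.card = c.d → ∀ v ∈ {x : Fin d → ℝ | ∑ j, x j ^ 2 ≤ r},
      η < (e v + ∑ a ∈ D, |c.g a v|) / (c.d + 1) :=
    eventually_all.2 fun D => eventually_imp_distrib_left.2 fun a1 =>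
      eventually_imp_distrib_left.2 fun a2 => cpt_small (cpt_sq r)
        ((ce.add (continuous_finsetSum _ fun a _ => cg a)).div_const _) fun v _ => by
          have b1 : 0 ≤ ∑ a ∈ D, |c.g a v| := Finset.sum_nonneg fun _ _ => abs_nonneg _
          refine div_pos (lt_of_le_of_ne (add_nonneg (h0 v) b1) fun b2 => ?_) (by positivity)
          obtain ⟨b3, b4⟩ := (add_eq_zero_iff_of_nonneg (h0 v) b1).1 b2.symm
          exact hv D a1 a2 v (fun a ha => abs_eq_zero.1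
            ((Finset.sum_eq_zero_iff_of_nonneg fun _ _ => abs_nonneg _).1 b4 a ha)) b3
  have E3 : ∀ᶠ η in 𝓝[>] (0 : ℝ), ∀ a, a ∉ T → ∀ x ∈ (S : Set (Fin d → ℝ)), η < |c.g a x| :=
    eventually_all.2 fun a => eventually_imp_distrib_left.2 fun ha =>
      cpt_small S.finite_toSet.isCompact (cg a) fun x hx =>
        abs_pos.2 fun b => ha (((h1 x hx).1 a).1 b)
  have E4 : ∀ᶠ η in 𝓝[>] (0 : ℝ), ∀ k ∈ A, ∀ x ∈ (S : Set (Fin d → ℝ)), η < w k x :=
    (eventually_all_finset A).2 fun k hk =>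
      cpt_small S.finite_toSet.isCompact (af_cont (hw k)) fun x hx => (h1 x hx).2.2 k hk
  obtain ⟨η, hη, a1, a2, a3, a4⟩ :=
    (eventually_mem_nhdsWithin.and (c.small.and (E2.and (E3.and E4)))).exists
  replace hη : 0 < η := hη
  let K : Set (Fin d → ℝ) := {x | ∑ j, x j ^ 2 ≤ r} ∩
    (c.Lam T ∩ ({x | ∀ a, a ∉ T → η ≤ |c.g a x|} ∩ {x | ∀ k ∈ A, η ≤ w k x}))
  have hK : IsCompact K := by
    refine (cpt_sq r).inter_right ((isClosed_Lam T).inter (IsClosed.inter ?_ ?_)) <;>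
      simp only [ofPred_forall]
    · exact isClosed_iInter fun a => isClosed_iInter fun _ => isClosed_le continuous_const (cg a)
    · exact isClosed_iInter fun k => isClosed_iInter fun _ =>
        isClosed_le continuous_const (af_cont (hw k))
  have hS : ∀ x ∈ S, x ∈ K ∩ {y | e y = 0} := fun x hx => ⟨⟨(hr x hx).le,
    fun a ha => ((h1 x hx).1 a).2 ha, fun a ha => (a3 a ha x hx).le, fun k hk => (a4 k hk x hx).le⟩,
      (h1 x hx).2.1⟩
  have hY : K ∩ {y | e y = 0} ⊆ {y | (∀ a, c.g a y = 0 ↔ a ∈ T) ∧ e y = 0 ∧ ∀ k ∈ A, 0 < w k y} :=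
    fun u hu => ⟨fun a => ⟨fun b1 => by_contra fun b2 => (hη.trans_le (hu.1.2.2.1 a b2)).ne'
      (abs_eq_zero.2 b1), hu.1.2.1 a⟩, hu.2, fun k hk => hη.trans_le (hu.1.2.2.2 k hk)⟩
  have E5 : ∀ᶠ ε in 𝓝[>] (0 : ℝ), ∀ x ∈ S, ∀ y ∈ S, x ≠ y → y ∉ cc (K ∩ {u | e u ≤ ε}) x :=
    (eventually_all_finset S).2 fun x hx => (eventually_all_finset S).2 fun y hy =>
      eventually_imp_distrib_left.2 fun ne => thick hK ce h0 (hS x hx) (hS y hy) fun b =>
        ne (h2 x hx y hy (connectedComponentIn_mono x hY b))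
  obtain ⟨ε, ⟨hε, hε'⟩, a5⟩ := ((show ∀ᶠ ε : ℝ in 𝓝[>] 0, ε ∈ Ioo (0 : ℝ) η from
    Ioo_mem_nhdsGT hη).and E5).exists
  have hW := ((bas_pos (af_sq (d := d) r)).inter (bas_pos (sub_mem (af_const N ε) he))).inter
    (bas_all A _ fun k _ => bas_pos (sub_mem (hw k) (af_const M η)))
  let Q : (c.shift T hη a1).MV :=
    { P := fun a => {x | (c.shift T hη a1).g a x = 0}
      W := _
      F := T ×ˢ {true}
      R := (Finset.univ \ T) ×ˢ Finset.univ
      hP := fun _ _ h => h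
      cl := fun a => isClosed_eq (aff_cont _) continuous_const
      op := hW.1
      dj := Finset.disjoint_left.2 fun a b1 b2 =>
        (Finset.mem_sdiff.1 (Finset.mem_product.1 b2).1).2 (Finset.mem_product.1 b1).1 }
  have g1 : ∀ a x, (c.shift T hη a1).g a x = c.g a.1 x + sh T η a := fun _ _ => rfl
  have g2 : ∀ a ∈ T, (a, true) ∈ Q.F := fun a ha =>
    Finset.mem_product.2 ⟨ha, Finset.mem_singleton_self _⟩
  have g3 : ∀ a, a ∉ T → ∀ s, (a, s) ∈ Q.R := fun a ha s =>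
    Finset.mem_product.2 ⟨Finset.mem_sdiff.2 ⟨Finset.mem_univ _, ha⟩, Finset.mem_univ _⟩
  have g5 : ∀ x, x ∈ Q.W ↔ (∑ j, x j ^ 2 < r ∧ e x < ε) ∧ ∀ k ∈ A, η < w k x := fun x =>
    and_congr (and_congr (sub_pos (a := r)) (sub_pos (a := ε))) (forall₂_congr fun k _ => sub_pos (a := w k x))
  have g4 : ∀ x ∈ S, x ∈ Q.X := fun x hx => by
    refine ⟨⟨fun a ha => ?_, (g5 x).2 ⟨⟨hr x hx, (h1 x hx).2.1.trans_lt hε⟩,
      fun k hk => a4 k hk x hx⟩⟩, fun a ha b => ?_⟩
    · obtain ⟨b1, b2⟩ := Finset.mem_product.1 ha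
      rw [g1, ((h1 x hx).1 _).2 b1, sh, if_pos (Finset.mem_singleton.1 b2), if_pos b1, add_zero]
    · have b1 := a3 a.1 (Finset.mem_sdiff.1 (Finset.mem_product.1 ha).1).2 x hx
      rw [eq_neg_of_add_eq_zero_left ((g1 a x).symm.trans b), abs_neg] at b1
      exact (sh_abs T hη a).not_gt b1
  refine Q.mv (fun J _ => hW.few _ _) S g4 (fun x hx y hy b => by_contra fun ne => a5 x hx y hy ne
    (isPreconnected_connectedComponentIn.subset_connectedComponentIn
      (mem_connectedComponentIn (g4 x hx)) (fun u hu => ?_) b)) ∅ fun J hJ hc v hv' _ _ _ _ => ?_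
  · have b1 := connectedComponentIn_subset _ _ hu
    have b0 := (g5 u).1 b1.1.2
    refine ⟨⟨b0.1.1.le, fun a ha => ?_, fun a ha => ?_, fun k hk => (b0.2 k hk).le⟩, b0.1.2.le⟩
    · have b2 := b1.1.1 _ (g2 a ha)
      rwa [g1, sh, if_pos rfl, if_pos ha, add_zero] at b2
    refine (isPreconnected_connectedComponentIn.lt_of_ne (cg a).continuousOn (fun t ht b2 => ?_)
      ⟨x, mem_connectedComponentIn (g4 x hx), a3 a ha x hx⟩ hu).le
    have b3 := (connectedComponentIn_subset _ _ ht).2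
    rcases (abs_eq hη.le).1 b2 with b4 | b4
    · refine b3 _ (g3 a ha true) ((g1 _ _).trans ?_)
      rw [b4, sh, if_pos rfl, if_neg ha, add_neg_cancel]
    · refine b3 _ (g3 a ha false) ((g1 _ _).trans ?_)
      rw [b4, sh, if_neg Bool.false_ne_true, neg_add_cancel]
  · exfalso
    obtain ⟨b1, b2⟩ := c.sh_zero T hη hv'.1
    have b3 : ((Q.F ∪ J).image Prod.fst).card = c.d := by
      rw [Finset.card_image_of_injOn b1, Finset.card_union_of_disjoint (Q.dj.mono_right hJ)]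
      exact hc
    have b4 := a2 _ (fun a ha => Finset.mem_image.2 ⟨_, Finset.mem_union_left _ (g2 a ha), rfl⟩) b3 v
      ((g5 v).1 hv'.2).1.1.le
    have b5 := Finset.sum_le_card_nsmul _ _ η b2
    have b6 := ((g5 v).1 hv'.2).1.2
    rw [b3, nsmul_eq_mul] at b5
    rw [lt_div_iff₀ (by positivity)] at b4
    linarith

end Hy

end FP
end

-- merged part: Pool.Agent.Work.MP_8a5de9_co.Fl.Faces
section
/-!
# The faces on the boundary of one cell
-/

open Set Filter Topology Metric SA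

namespace FP

set_option linter.unusedSectionVars false

namespace Ctx

open Hy

variable {E ι : Type} [NormedAddCommGroup E] [NormedSpace ℝ E] [FiniteDimensional ℝ E]
  [Fintype ι] [DecidableEq ι] {c : Ctx E ι} {R D : Finset ι} {x : E} {s : ι → SignType}

theorem good_of_closure (ho : c.On R D x) (hx : x ∈ closure (c.C R)) :
    ∃ s, supp s = D ∧ c.Good R x s := by
  obtain ⟨ρ, hρ⟩ := exists_loc (c := c) R x
  obtain ⟨y, hy, hy'⟩ := Metric.mem_closure_iff.1 hx ρ hρ.1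
  have h1 := (hρ.mem_U ho (mem_ball'.2 hy')).1 (C_sub _ hy)
  have h2 : supp (c.sv D y) = D := by
    ext i
    rw [mem_supp]
    exact ⟨fun h => by_contra fun hi => h (sv_of_notMem hi y),
      fun hi h => h1 i hi ((sv_eq_zero hi).1 h)⟩
  exact ⟨_, h2, good_of_mem hρ ho h2 (mem_ball'.2 hy')
    (fun i hi => (sv_of_mem (h2 ▸ mem_supp.2 hi) y).symm) hy⟩

theorem closure_of_good (ho : c.On R D x) (hs : supp s = D) (hg : c.Good R x s) :
    x ∈ closure (c.C R) := by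
  obtain ⟨ρ, hρ⟩ := exists_loc (c := c) R x
  have h1 := lift (c := c.toHy) (F := ∅) (H := D) (x := x) (τ := s) (Finset.disjoint_empty_left _)
    (fun _ h => absurd h (Finset.notMem_empty _)) (fun i hi => by
      by_cases h : i ∈ D
      exacts [absurd ((sv_eq_zero h).2 (ho.2.1 i h).1) hi, absurd (sv_of_notMem h x) hi])
    fun i hi => by_contra fun h => hi (hs ▸ mem_supp.2 h)
  refine mem_closure_iff_frequently.2 ((h1.and_eventually (hg.and (ball_mem_nhds x hρ.1))).mono ?_)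
  rintro y ⟨⟨-, a1⟩, a2, a3⟩
  refine a2 (fun i hi => ?_) ((hρ.mem_U ho a3).2 fun i hi h => ?_)
  · rw [← a1]
    exact (sv_of_mem (hs ▸ mem_supp.2 hi) y).symm
  · exact mem_supp.1 (hs ▸ hi : i ∈ supp s) (a1 ▸ (sv_eq_zero hi).2 h)

variable (c) in
theorem inner_le (F : Finset ι) (T : Finset E)
    (h1 : ∀ x ∈ T, c.On Finset.univ F x ∧ x ∈ closure (c.C Finset.univ))
    (h2 : ∀ x ∈ T, ∀ y ∈ T, y ∈ cc {w | c.On Finset.univ F w} x → x = y) :
    T.card ≤ (low (Finset.univ \ F) (c.d - F.card)).card * c.β +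
      ((c.Tup Finset.univ c.d).filter fun t => F ⊆ t.1).card := by
  let Q : c.toHy.MV :=
    { P := c.P
      W := c.OF F
      F := F
      R := Finset.univ \ F
      hP := fun _ _ h => c.Pz h
      cl := c.cl
      op := isOpen_OF F
      dj := Finset.disjoint_sdiff }
  have e : Q.X = {w | c.On Finset.univ F w} := Set.ext fun w =>
    ⟨fun h => ⟨F.subset_univ, fun i hi => ⟨h.1.1 i hi, h.1.2 i hi⟩,
      fun i h3 hi => h.2 i (Finset.mem_sdiff.2 ⟨h3, hi⟩)⟩,
    fun h => ⟨⟨fun i hi => (h.2.1 i hi).1, fun i hi => (h.2.1 i hi).2⟩,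
      fun i hi => h.2.2 i (Finset.mem_univ _) (Finset.mem_sdiff.1 hi).2⟩⟩
  refine (Q.mv (fun J _ => c.b2 _ F Finset.subset_union_left) T (fun x hx => e ▸ (h1 x hx).1)
    (e ▸ h2) (((c.Tup Finset.univ c.d).filter fun t => F ⊆ t.1).image fun t => t.1 \ F)
    fun J hJ hc v hv hP x hx hv' => ?_).trans (Nat.add_le_add_left Finset.card_image_le _)
  rw [e] at hv'
  obtain ⟨s, a1, a2⟩ := good_of_closure (h1 x hx).1 (h1 x hx).2
  have a3 : v ∈ closure (c.C Finset.univ) := closure_minimal (fun w hw =>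
    closure_of_good (connectedComponentIn_subset {w | c.On Finset.univ F w} x hw) a1
      (good_slide isPreconnected_connectedComponentIn
        (fun _ h => connectedComponentIn_subset {w | c.On Finset.univ F w} x h) a1.le
        (mem_connectedComponentIn (h1 x hx).1) hw a2)) isClosed_closure hv'
  have a4 : (F ∪ J).card = c.d := (Finset.card_union_of_disjoint (Q.dj.mono_right hJ)).trans hc
  obtain ⟨a5, a6⟩ := inner_of_mem (c := c) (x := v) a4 fun i hi =>
    (Finset.mem_union.1 hi).elim (fun h => c.rs (hv.1 i hi) (hv.2 i h)) (hP i)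
  obtain ⟨s', a7, a8⟩ := good_of_closure (a5.on (Finset.subset_univ _)) (a6.symm ▸ a3)
  exact Finset.mem_image.2 ⟨(F ∪ J, s'), Finset.mem_filter.2 ⟨mem_Tup.2
    ⟨Finset.subset_univ _, a5, a7.le, by rw [a7, a4], a8⟩, Finset.subset_union_left⟩,
    Finset.union_sdiff_cancel_left (Q.dj.mono_right hJ)⟩

end Ctx

theorem Few.of_mem {α : Type} [TopologicalSpace α] {X : Set α} {β : ℕ} (h : ∀ x ∈ X, Few X β) :
    Few X β := fun T h1 h2 => by
  rcases T.eq_empty_or_nonempty with rfl | ⟨x, hx⟩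
  exacts [Nat.zero_le _, h x (h1 x hx) T h1 h2]

section conc

open Hy

variable {d b m : ℕ} {ι : Type} [Fintype ι] [DecidableEq ι] {g : ι → (Fin d → ℝ) →ᵃ[ℝ] ℝ}
  {q : ι → Fin m → MvPolynomial (Fin d) ℝ} {x y w : Fin d → ℝ}

theorem same_refl (x : Fin d → ℝ) : Same g q x x := fun _ => ⟨Iff.rfl, fun _ _ => Iff.rfl⟩

theorem same_symm (h : Same g q x y) : Same g q y x :=
  fun i => ⟨(h i).1.symm, fun hy l => ((h i).2 ((h i).1.2 hy) l).symm⟩

theorem same_trans (h : Same g q x y) (h' : Same g q y w) : Same g q x w :=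
  fun i => ⟨(h i).1.trans (h' i).1,
    fun hx l => ((h i).2 hx l).trans ((h' i).2 ((h i).1.1 hx) l)⟩

theorem face_eq {Y : Set (Fin d → ℝ)} (hY : ∀ w ∈ Y, Same g q x w) (h : y ∈ cc Y x) :
    face g q x = face g q y := by
  have h1 : y ∈ face g q x := connectedComponentIn_mono x hY h
  have h2 : Same g q x y := connectedComponentIn_subset _ _ h1
  have e : {w | Same g q y w} = {w | Same g q x w} :=
    Set.ext fun w => ⟨same_trans h2, same_trans (same_symm h2)⟩
  rw [face, face, e]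
  exact connectedComponentIn_eq h1

/-- The hyperplanes. -/
def hyp (h : GenPos g q) : Hy (Fin d → ℝ) ι := ⟨g, d, by simp, fun D x hx => (h D x hx).1⟩

/-- The common bound for the numbers of components. -/
def bb (d b m : ℕ) : ℕ := d * m * bet d b + bet d (d * m * b)

/-- The data of the abstract theorem. -/
noncomputable def ctx (hd : 3 ≤ d) (hq : ∀ i l, (q i l).totalDegree ≤ b) (h : GenPos g q)
    (p : Fin d → ℝ) : Ctx (Fin d → ℝ) ι where
  toHy := hyp h
  z := (hyp h).exists_height.choose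
  p := p
  P := patch g q
  O i := {x | ∀ l ∈ Finset.univ, x ∈ {x | 0 < MvPolynomial.eval x (q i l)}}
  β := bb d b m
  d3 := hd
  cl i := by
    simp only [patch, ofPred_and, ofPred_forall]
    exact (isClosed_eq (aff_cont _) continuous_const).inter
      (isClosed_iInter fun l => isClosed_le continuous_const (af_cont (af_eval (hq i l))))
  op i := (bas_all _ _ fun l _ => bas_pos (af_eval (hq i l))).1
  Pz hx := hx.1
  rs h1 h2 := ⟨h1, fun l => (h2 l (Finset.mem_univ l)).le⟩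
  vo D x h1 h2 i hi l _ :=
    lt_of_le_of_ne ((h2 i hi).2 l) ((h D x fun j hj => (h2 j hj).1).2 h1 i hi l).symm
  zgen := (hyp h).exists_height.choose_spec.1
  zinj := (hyp h).exists_height.choose_spec.2
  b1 Z := Few.of_mem fun x hx => by
    have h1 : Z.card ≤ d := card_le hx.1
    refine (Few.cover (Z ×ˢ (Finset.univ : Finset (Fin m)))
      (fun k => {x | ∀ i ∈ Z, g i x = 0} ∩ {x | 0 < -MvPolynomial.eval x (q k.1 k.2)})
      (fun k hk y hy => ?_) (fun y hy => ?_)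
      fun k _ => (bas_pos (neg_mem (af_eval (hq k.1 k.2)))).few g Z).mono ?_
    · exact ⟨hy.1, fun h2 => (neg_pos.1 hy.2).not_ge ((h2 k.1 (Finset.mem_product.1 hk).1).2 k.2)⟩
    · by_contra hn
      refine hy.2 fun i hi => ⟨hy.1 i hi, fun l => le_of_not_gt fun h2 => hn ⟨(i, l),
        Finset.mem_product.2 ⟨hi, Finset.mem_univ _⟩, hy.1, neg_pos.2 h2⟩⟩
    · rw [Finset.card_product, Finset.card_univ, Fintype.card_fin]
      exact le_add_right (by gcongr)
  b2 Z F hF := Few.of_mem fun x hx => by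
    have h1 : F.card ≤ d := (Finset.card_le_card hF).trans (card_le hx.1)
    refine (((bas_all F _ fun i _ => bas_all Finset.univ _ fun l _ =>
      bas_pos (af_eval (hq i l))).mono (M := d * m * b) ?_).few g Z).mono le_add_self
    rw [Finset.card_univ, Fintype.card_fin, mul_assoc]
    gcongr

theorem outer_le (hq : ∀ i l, (q i l).totalDegree ≤ b) (h : GenPos g q) (A : Finset ι)
    (T : Finset (Fin d → ℝ)) (h1 : ∀ x ∈ T, (∀ a, g a x = 0 ↔ a ∈ A) ∧
      ∃ a ∈ A, ∃ l, MvPolynomial.eval x (q a l) = 0) (h2 : InjOn (face g q) T) :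
    T.card ≤ (low ((Finset.univ \ A) ×ˢ (Finset.univ : Finset Bool))
      (d - (A ×ˢ ({true} : Finset Bool)).card)).card *
        (3 ^ (d * m) * bet d (1 * 2 + b * 2 + d * m * b)) := by
  rcases T.eq_empty_or_nonempty with rfl | ⟨x₀, hx₀⟩
  · exact Nat.zero_le _
  have h3 : (A ×ˢ (Finset.univ : Finset (Fin m))).card ≤ d * m := by
    rw [Finset.card_product, Finset.card_univ, Fintype.card_fin]
    exact Nat.mul_le_mul_right _ (card_le (c := hyp h) fun a ha => ((h1 x₀ hx₀).1 a).2 ha)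
  generalize hB : A ×ˢ (Finset.univ : Finset (Fin m)) = B at h3
  have hB' : ∀ k, k ∈ B ↔ k.1 ∈ A := fun k => by simp [← hB]
  refine (card_cover T (Finset.univ.filter fun σ : ι × Fin m → SignType => supp σ ⊆ B)
    (fun σ x => ∀ k ∈ B, SignType.sign (MvPolynomial.eval x (q k.1 k.2)) = σ k)
    (fun _ => (low ((Finset.univ \ A) ×ˢ (Finset.univ : Finset Bool))
      (d - (A ×ˢ ({true} : Finset Bool)).card)).card * bet d (1 * 2 + b * 2 + d * m * b))
    (fun x hx => ⟨fun k => if k ∈ B then SignType.sign (MvPolynomial.eval x (q k.1 k.2)) else 0,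
      Finset.mem_filter.2 ⟨Finset.mem_univ _, fun k hk => by_contra fun hk' =>
        mem_supp.1 hk (if_neg hk')⟩, fun k hk => (if_pos hk).symm⟩) fun σ _ T' a1 a2 => ?_).trans ?_
  swap
  · rw [Finset.sum_const, smul_eq_mul, mul_left_comm]
    exact Nat.mul_le_mul_left _ (Nat.mul_le_mul_right _
      ((card_supp_le B).trans (Nat.pow_le_pow_right (by norm_num) h3)))
  rcases T'.eq_empty_or_nonempty with rfl | ⟨x₁, hx₁⟩
  · exact Nat.zero_le _
  obtain ⟨a₀, b1, l₀, b2⟩ := (h1 x₁ (a1 hx₁)).2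
  have b3 : (a₀, l₀) ∈ B.filter fun k => σ k = 0 := Finset.mem_filter.2 ⟨(hB' _).2 b1, by
    rw [← a2 x₁ hx₁ _ ((hB' (a₀, l₀)).2 b1), b2, sign_zero]⟩
  have b4 : ∀ y, (∑ k ∈ B.filter fun k => σ k = 0,
      (fun x => MvPolynomial.eval x (q k.1 k.2)) ^ 2) y = 0 ↔
        ∀ k ∈ B.filter fun k => σ k = 0, MvPolynomial.eval y (q k.1 k.2) = 0 := fun y => by
    rw [Finset.sum_apply]
    exact (Finset.sum_eq_zero_iff_of_nonneg fun _ _ => sq_nonneg _).trans
      (forall₂_congr fun _ _ => sq_eq_zero_iff)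
  have b5 : ∀ y, ((∑ k ∈ B.filter fun k => σ k = 0,
      (fun x => MvPolynomial.eval x (q k.1 k.2)) ^ 2) y = 0 ∧ ∀ k ∈ B.filter fun k => σ k ≠ 0,
        0 < ((σ k : ℝ) • fun x => MvPolynomial.eval x (q k.1 k.2)) y) ↔
      ∀ k ∈ B, SignType.sign (MvPolynomial.eval y (q k.1 k.2)) = σ k := fun y => by
    rw [b4]
    simp only [Finset.mem_filter, and_imp, ← forall₂_and, Pi.smul_apply, smul_eq_mul]
    refine forall₂_congr fun k _ => ?_
    rcases σ k with _ | _ | _ <;> simp [sign_eq_neg_one_iff, sign_eq_one_iff]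
  refine ((hyp h).outer A (B.filter fun k => σ k ≠ 0) (N := b * 2) (M := b)
    (Submodule.sum_mem _ fun k _ => af_pow (af_eval (hq k.1 k.2)) 2)
    (fun y => by rw [Finset.sum_apply]; exact Finset.sum_nonneg fun _ _ => sq_nonneg _)
    (fun k => Submodule.smul_mem _ (σ k : ℝ) (af_eval (hq k.1 k.2)))
    (fun D c1 c2 v hv e => (h D v hv).2 c2 a₀ (c1 b1) l₀ ((b4 v).1 e _ b3)) T'
    (fun x hx => ⟨(h1 x (a1 hx)).1, (b5 x).2 (a2 x hx)⟩) fun x hx y hy e =>
      h2 (a1 hx) (a1 hy) (face_eq (fun w hw i => ?_) e)).trans (Nat.mul_le_mul_left _ ?_)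
  · by_cases hi : i ∈ A
    · have c1 : ∀ l, SignType.sign (MvPolynomial.eval x (q i l)) =
          SignType.sign (MvPolynomial.eval w (q i l)) := fun l =>
        (a2 x hx (i, l) ((hB' _).2 hi)).trans ((b5 w).1 hw.2 (i, l) ((hB' _).2 hi)).symm
      refine ⟨and_congr (iff_of_true (((h1 x (a1 hx)).1 i).2 hi) ((hw.1 i).2 hi))
        (forall_congr' fun l => ?_), fun _ l => ?_⟩
      · rw [← sign_nonneg_iff, c1, sign_nonneg_iff]
      · rw [← sign_eq_zero_iff, c1, sign_eq_zero_iff]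
    · have c1 : x ∉ patch g q i := fun e => hi (((h1 x (a1 hx)).1 i).1 e.1)
      exact ⟨iff_of_false c1 fun e => hi ((hw.1 i).1 e.1), fun e => absurd e c1⟩
  · have := (Finset.card_filter_le B fun k => σ k ≠ 0).trans h3
    unfold bet
    gcongr

theorem faces_le (hd : 3 ≤ d) (hq : ∀ i l, (q i l).totalDegree ≤ b) (h : GenPos g q)
    (p : Fin d → ℝ) (hn : 1 ≤ Fintype.card ι) : (face g q '' frontier (cell g q p)).encard ≤
      (2 ^ d * (d * Fintype.card ι ^ (d - 1)) * bb d b m +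
        2 ^ d * ((ctx hd hq h p).Tup Finset.univ d).card +
        2 ^ d * (d * (Fintype.card ι * 2) ^ (d - 1)) *
          (3 ^ (d * m) * bet d (1 * 2 + b * 2 + d * m * b)) : ℕ) := by
  classical
  have e : cell g q p = (ctx hd hq h p).C Finset.univ := by
    refine congrArg (connectedComponentIn · p) (Set.ext fun x => ?_)
    simp only [Ctx.U, mem_compl_iff, mem_iUnion, not_exists, mem_ofPred_eq, Finset.mem_univ,
      forall_true_left]
    rfl
  refine enc_le _ _ _ fun T h1 h2 => ?_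
  rw [← Finset.card_filter_add_card_filter_not (s := T)
    fun x => ∀ i, x ∈ patch g q i → ∀ l, MvPolynomial.eval x (q i l) ≠ 0]
  refine add_le_add ((card_cover _ Finset.univ (fun F x => (ctx hd hq h p).On Finset.univ F x) _
    (fun x hx => ⟨Finset.univ.filter fun i => x ∈ patch g q i, Finset.mem_univ _, ?_⟩)
    fun F _ T' a1 a2 => (ctx hd hq h p).inner_le F T' (fun x hx => ⟨a2 x hx, ?_⟩)
      fun x hx y hy a3 => ?_).trans ?_) ((card_cover _ Finset.univ (fun A x => ∀ a, g a x = 0 ↔ a ∈ A) _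
    (fun x _ => ⟨Finset.univ.filter fun i => g i x = 0, Finset.mem_univ _, by simp⟩)
    fun A _ T' a1 a2 => outer_le hq h A T' (fun x hx => ⟨a2 x hx, ?_⟩) (h2.mono fun x hx =>
      (Finset.mem_filter.1 (a1 hx)).1)).trans ?_)
  · refine ⟨Finset.subset_univ _, fun i hi => ?_, fun i a1 a2 a3 => a2 (Finset.mem_filter.2 ⟨a1, a3⟩)⟩
    have a1 := (Finset.mem_filter.1 hi).2
    exact ⟨a1.1, fun l _ => lt_of_le_of_ne (a1.2 l) ((Finset.mem_filter.1 hx).2 i a1 l).symm⟩
  · exact e ▸ (h1 x (Finset.mem_filter.1 (a1 hx)).1).1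
  · refine h2 (Finset.mem_filter.1 (a1 hx)).1 (Finset.mem_filter.1 (a1 hy)).1
      (face_eq (fun w hw i => ?_) a3)
    by_cases hi : i ∈ F
    · exact ⟨iff_of_true (Ctx.rel_sub i ((a2 x hx).2.1 i hi)) (Ctx.rel_sub i (hw.2.1 i hi)),
        fun _ l => iff_of_false (((a2 x hx).2.1 i hi).2 l (Finset.mem_univ l)).ne'
          ((hw.2.1 i hi).2 l (Finset.mem_univ l)).ne'⟩
    · have c1 := (a2 x hx).2.2 i (Finset.mem_univ i) hi
      exact ⟨iff_of_false c1 (hw.2.2 i (Finset.mem_univ i) hi), fun e => absurd e c1⟩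
  · rw [Finset.sum_add_distrib, ← Finset.sum_mul]
    exact add_le_add (Nat.mul_le_mul_right _ (sum_low Function.injective_id
      (fun F => Finset.univ \ F) (fun _ => Finset.disjoint_sdiff) d hn))
      (sum_sub _ Prod.fst Function.injective_id fun t ht => (Ctx.mem_Tup.1 ht).2.1.1.le)
  · have a3 := (Finset.mem_filter.1 (a1 hx)).2
    push Not at a3
    obtain ⟨i, a4, a5⟩ := a3
    exact ⟨i, (a2 x hx i).1 a4.1, a5⟩
  · rw [← Finset.sum_mul]
    refine Nat.mul_le_mul_right _ ((sum_low (e := fun A : Finset ι => A ×ˢ ({true} : Finset Bool))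
      (fun A A' e => Finset.ext fun a => ?_) _ (fun A => Finset.disjoint_left.2 fun a b1 b2 =>
        (Finset.mem_sdiff.1 (Finset.mem_product.1 b2).1).2 (Finset.mem_product.1 b1).1) d ?_).trans ?_)
    · simpa using Finset.ext_iff.1 e (a, true)
    · rw [Fintype.card_prod, Fintype.card_bool]
      omega
    · rw [Fintype.card_prod, Fintype.card_bool]

end conc

/-- One cell among flat semialgebraic patches. -/
theorem flat_cell (d b m : ℕ) (hd : 3 ≤ d) : ∃ C : ℕ, ∀ (n : ℕ)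
    (g : Fin n → (Fin d → ℝ) →ᵃ[ℝ] ℝ) (q : Fin n → Fin m → MvPolynomial (Fin d) ℝ),
    (∀ i l, (q i l).totalDegree ≤ b) → GenPos g q → ∀ p, (∀ i, p ∉ patch g q i) →
      (face g q '' frontier (cell g q p)).encard ≤
        (C * n ^ (d - 1) * (sInf {k | n ≤ ack k k} + 1) : ℕ) := by
  obtain ⟨K, hK⟩ := tup_alpha d (bb d b m) hd
  refine ⟨2 ^ d * d * bb d b m + 2 ^ d * K + 2 ^ d * (d * 2 ^ (d - 1)) *
    (3 ^ (d * m) * bet d (1 * 2 + b * 2 + d * m * b)), fun n g q hq h p _ => ?_⟩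
  rcases n.eq_zero_or_pos with rfl | hn
  · rw [cell, iUnion_of_empty, compl_empty, connectedComponentIn_univ,
      PreconnectedSpace.connectedComponent_eq_univ, frontier_univ, image_empty, encard_empty]
    exact zero_le
  refine (faces_le hd hq h p (by rwa [Fintype.card_fin])).trans (Nat.cast_le.2 ?_)
  have h1 := hK (ctx hd hq h p) rfl rfl
  rw [Fintype.card_fin] at h1 ⊢
  rw [mul_pow]
  have h2 := Nat.mul_le_mul_left (2 ^ d) h1
  generalize sInf {k | n ≤ ack k k} = a at h2 ⊢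
  generalize n ^ (d - 1) = X at h2 ⊢
  generalize 3 ^ (d * m) * bet d (1 * 2 + b * 2 + d * m * b) = Y
  nlinarith [Nat.zero_le (2 ^ d * d * bb d b m * X * a), Nat.zero_le (2 ^ d * (d * 2 ^ (d - 1)) * Y * X * a)]

end FP
end
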